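import Pool.Agent.H39.KZ.Defs

/-!
# Job KZ-A1: alternating forms killing the Steinberg pairs give functionals killing `J`

Let `F = ZMod 2`, `V = V 2 K`, `Λ = ExteriorAlgebra F V`.

PROOF.  Let `W = F × V × F` and for `v ∈ V` let `ρ v : W → W` be the `F`-linear map
`(c, w, s) ↦ (0, c • v, r v w)`.  Then `ρ : V →ₗ[F] Module.End F W` is linear and
`ρ v * ρ v = 0` because `ρ v (ρ v (c, w, s)) = ρ v (0, c • v, r v w) = (0, 0, r v (c • v)) = 0`
by `hr`.  So `ρ` extends to an algebra homomorphism `ρΛ : Λ →ₐ[F] Module.End F W`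
(`ExteriorAlgebra.lift`).  Put `R ω = (ρΛ ω (1, 0, 0)).2.2` (a linear functional).
`R (ι u * ι v) = (ρ u (ρ v (1,0,0))).2.2 = (ρ u (0, v, 0)).2.2 = r u v` (`r v 0 = 0`).

To see that `R` kills `J h = ker (toMilnor h)` it suffices to find a ring homomorphism
`ρM : MilnorMod 2 K →+* Module.End F W` with `ρM ∘ toMilnor h = ρΛ`.
 * `TensorAlgebra.lift ℤ` applied to the `ℤ`-linear map `Additive Kˣ → Module.End F W`,
   `a ↦ ρ (cl 2 a.toMul)` (an additive map) gives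
   `τ : TensorAlgebra ℤ (Additive Kˣ) →ₐ[ℤ] Module.End F W`.
 * `τ` respects `SteinbergRel K`: we need `τ (ι a) * τ x * τ (ι b) = 0` when `a + b = 1`.
   By `TensorAlgebra.induction` every `x` satisfies:
     `∃ c : F, ∀ (v : V) (s : F), ∃ s' : F, τ x (0, v, s) = (0, c • v, s')`
   (for `algebraMap n`: `c = n`; for `ι a`: `τ (ι a) (0, v, s) = (0, 0, r [a] v)`, so `c = 0`;
   products and sums: multiply and add the `c`'s).  Hence
   `τ (ι a) (τ x (τ (ι b) (c₀, w, s))) = τ (ι a) (τ x (0, c₀ • [b], r [b] w))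
      = τ (ι a) (0, c • c₀ • [b], s') = (0, 0, r [a] (c • c₀ • [b])) = 0` by `hS`.
 * So `τ` descends to `MilnorK K = RingQuot (SteinbergRel K)` (`RingQuot.lift`), and then to
   `MilnorMod 2 K = ZMod 2 ⊗[ℤ] MilnorK K` (`Algebra.TensorProduct.lift` with the algebra map
   `ZMod 2 → Module.End F W`; everything commutes, `Module.End F W` is a `ZMod 2`-algebra and a
   `ℤ`-algebra), `ρM (c ⊗ₜ x) = c • τ' x`.
 * `ρM ∘ toMilnor h = ρΛ` by `ExteriorAlgebra.hom_ext`: on `ι v`, `v = cl 2 a` (every element of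
   `V` is such a class, cf. the proof of `symV_sq`), both sides are `ρ v` (`symV_cl`).
   If the `F`-algebra structures make trouble, show instead
   `∀ ω, ρM (toMilnor h ω) = ρΛ ω` by `ExteriorAlgebra.induction`.
-/

set_option autoImplicit false

open scoped TensorProduct

namespace H39.KZ

universe u

/-- the space `F × V × F` -/
abbrev WW (K : Type u) [Field K] : Type u := ZMod 2 × V 2 K × ZMod 2

/-- the linear map `(c, w, s) ↦ (0, c • v, r v w)` -/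
noncomputable def rho {K : Type u} [Field K] (r : V 2 K →ₗ[ZMod 2] V 2 K →ₗ[ZMod 2] ZMod 2) :
    V 2 K →ₗ[ZMod 2] Module.End (ZMod 2) (WW K) :=
  LinearMap.mk₂ (ZMod 2) (fun v x => ((0 : ZMod 2), x.1 • v, r v x.2.1))
    (by intro u v x; ext <;> simp)
    (by
      intro c v x
      refine Prod.ext ?_ (Prod.ext ?_ ?_)
      · simp
      · simp [smul_comm c x.1 v]
      · simp)
    (by intro v x y; ext <;> simp [add_smul])
    (by
      intro c v x
      refine Prod.ext ?_ (Prod.ext ?_ ?_)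
      · simp
      · simp [mul_smul]
      · simp)

lemma rho_apply {K : Type u} [Field K] (r : V 2 K →ₗ[ZMod 2] V 2 K →ₗ[ZMod 2] ZMod 2) (v : V 2 K)
    (x : WW K) : rho r v x = ((0 : ZMod 2), x.1 • v, r v x.2.1) := rfl

lemma rho_sq {K : Type u} [Field K] (r : V 2 K →ₗ[ZMod 2] V 2 K →ₗ[ZMod 2] ZMod 2)
    (hr : ∀ v, r v v = 0) (v : V 2 K) : rho r v * rho r v = 0 := by
  refine LinearMap.ext fun x => ?_
  rw [Module.End.mul_apply, rho_apply, rho_apply]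
  simp [hr]

/-- the action of the tensor algebra -/
noncomputable def tau {K : Type u} [Field K] (r : V 2 K →ₗ[ZMod 2] V 2 K →ₗ[ZMod 2] ZMod 2) :
    TensorAlgebra ℤ (Additive Kˣ) →ₐ[ℤ] Module.End (ZMod 2) (WW K) :=
  TensorAlgebra.lift ℤ
    (((rho r).toAddMonoidHom.comp (ModN.mkQ (G := Additive Kˣ) 2)).toIntLinearMap)

lemma tau_ι {K : Type u} [Field K] (r : V 2 K →ₗ[ZMod 2] V 2 K →ₗ[ZMod 2] ZMod 2) (a : Kˣ) :
    tau r (TensorAlgebra.ι ℤ (Additive.ofMul a)) = rho r (cl 2 a) := by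
  rw [tau, TensorAlgebra.lift_ι_apply]
  rfl

lemma tau_scal {K : Type u} [Field K] (r : V 2 K →ₗ[ZMod 2] V 2 K →ₗ[ZMod 2] ZMod 2)
    (x : TensorAlgebra ℤ (Additive Kˣ)) :
    ∃ c : ZMod 2, ∀ (v : V 2 K) (s : ZMod 2), ∃ s' : ZMod 2,
      tau r x ((0 : ZMod 2), v, s) = ((0 : ZMod 2), c • v, s') := by
  induction x using TensorAlgebra.induction with
  | algebraMap n =>
    refine ⟨(n : ZMod 2), fun v s => ⟨(n : ZMod 2) * s, ?_⟩⟩
    rw [AlgHom.commutes]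
    have h1 : algebraMap ℤ (Module.End (ZMod 2) (WW K)) n = (n : Module.End (ZMod 2) (WW K)) :=
      eq_intCast _ n
    rw [h1, Module.End.intCast_apply]
    refine Prod.ext ?_ (Prod.ext ?_ ?_)
    · simp
    · simp [Int.cast_smul_eq_zsmul]
    · simp
  | ι a =>
    refine ⟨0, fun v s => ⟨r (cl 2 a.toMul) v, ?_⟩⟩
    have h1 : tau r (TensorAlgebra.ι ℤ a) = rho r (cl 2 a.toMul) := tau_ι r a.toMul
    rw [h1, rho_apply]
    refine Prod.ext rfl (Prod.ext ?_ rfl)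
    simp
  | mul a b ha hb =>
    obtain ⟨c, hc⟩ := ha
    obtain ⟨d, hd⟩ := hb
    refine ⟨c * d, fun v s => ?_⟩
    obtain ⟨s1, h1⟩ := hd v s
    obtain ⟨s2, h2⟩ := hc (d • v) s1
    refine ⟨s2, ?_⟩
    rw [map_mul, Module.End.mul_apply, h1, h2, mul_smul]
  | add a b ha hb =>
    obtain ⟨c, hc⟩ := ha
    obtain ⟨d, hd⟩ := hb
    refine ⟨c + d, fun v s => ?_⟩
    obtain ⟨s1, h1⟩ := hc v s
    obtain ⟨s2, h2⟩ := hd v s
    refine ⟨s1 + s2, ?_⟩
    rw [map_add, LinearMap.add_apply, h1, h2, add_smul]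
    simp

lemma tau_rel {K : Type u} [Field K] (r : V 2 K →ₗ[ZMod 2] V 2 K →ₗ[ZMod 2] ZMod 2)
    (hS : ∀ a b : Kˣ, (a : K) + (b : K) = 1 → r (cl 2 a) (cl 2 b) = 0)
    {x y : TensorAlgebra ℤ (Additive Kˣ)} (h : SteinbergRel K x y) : tau r x = tau r y := by
  obtain ⟨a, b, x, hab⟩ := h
  rw [map_zero]
  refine LinearMap.ext fun z => ?_
  obtain ⟨c, hc⟩ := tau_scal r x
  obtain ⟨s, hs⟩ := hc (z.1 • cl 2 b) (r (cl 2 b) z.2.1)
  rw [map_mul, map_mul, Module.End.mul_apply, Module.End.mul_apply, tau_ι, tau_ι,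
    rho_apply r (cl 2 b), hs, rho_apply]
  simp [hS a b hab]

/-- the action of the Milnor ring -/
noncomputable def tauM {K : Type u} [Field K] (r : V 2 K →ₗ[ZMod 2] V 2 K →ₗ[ZMod 2] ZMod 2)
    (hS : ∀ a b : Kˣ, (a : K) + (b : K) = 1 → r (cl 2 a) (cl 2 b) = 0) :
    MilnorK K →+* Module.End (ZMod 2) (WW K) :=
  RingQuot.lift ⟨(tau r).toRingHom, fun _ _ h => tau_rel r hS h⟩

lemma tauM_sym {K : Type u} [Field K] (r : V 2 K →ₗ[ZMod 2] V 2 K →ₗ[ZMod 2] ZMod 2)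
    (hS : ∀ a b : Kˣ, (a : K) + (b : K) = 1 → r (cl 2 a) (cl 2 b) = 0) (a : Kˣ) :
    tauM r hS (sym (Additive.ofMul a)) = rho r (cl 2 a) := by
  rw [← tau_ι]
  exact RingQuot.lift_mkRingHom_apply _ _ _

/-- the action of the Milnor ring modulo two -/
noncomputable def tauF {K : Type u} [Field K] (r : V 2 K →ₗ[ZMod 2] V 2 K →ₗ[ZMod 2] ZMod 2)
    (hS : ∀ a b : Kˣ, (a : K) + (b : K) = 1 → r (cl 2 a) (cl 2 b) = 0) :
    MilnorMod 2 K →ₐ[ZMod 2] Module.End (ZMod 2) (WW K) :=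
  Algebra.TensorProduct.lift (Algebra.ofId (ZMod 2) (Module.End (ZMod 2) (WW K)))
    (tauM r hS).toIntAlgHom (fun x y => by
      rw [Algebra.ofId_apply]
      exact Algebra.commute_algebraMap_left x _)

theorem exists_functional {K : Type u} [Field K] (h : Good 2 K)
    (r : V 2 K →ₗ[ZMod 2] V 2 K →ₗ[ZMod 2] ZMod 2) (hr : ∀ v, r v v = 0)
    (hS : ∀ a b : Kˣ, (a : K) + (b : K) = 1 → r (cl 2 a) (cl 2 b) = 0) :
    ∃ R : ExteriorAlgebra (ZMod 2) (V 2 K) →ₗ[ZMod 2] ZMod 2,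
      (∀ u v, R (ExteriorAlgebra.ι (ZMod 2) u * ExteriorAlgebra.ι (ZMod 2) v) = r u v) ∧
        ∀ m ∈ J h, R m = 0 := by
  have key : ((tauF r hS).comp (toMilnor h)) =
      ExteriorAlgebra.lift (ZMod 2) ⟨rho r, rho_sq r hr⟩ := by
    refine ExteriorAlgebra.hom_ext (LinearMap.ext fun v => ?_)
    obtain ⟨a, rfl⟩ : ∃ a : Kˣ, cl 2 a = v := by
      obtain ⟨x, hx⟩ := Submodule.mkQ_surjective _ v
      exact ⟨x.toMul, hx⟩
    rw [LinearMap.comp_apply, LinearMap.comp_apply, AlgHom.toLinearMap_apply,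
      AlgHom.toLinearMap_apply, AlgHom.comp_apply, ExteriorAlgebra.lift_ι_apply, toMilnor,
      ExteriorAlgebra.lift_ι_apply, symV_cl, tauF, Algebra.TensorProduct.lift_tmul, map_one,
      one_mul]
    exact tauM_sym r hS a
  refine ⟨(LinearMap.snd (ZMod 2) (V 2 K) (ZMod 2)) ∘ₗ
    (LinearMap.snd (ZMod 2) (ZMod 2) (V 2 K × ZMod 2)) ∘ₗ
    (LinearMap.applyₗ ((1 : ZMod 2), (0 : V 2 K), (0 : ZMod 2))) ∘ₗ
    (ExteriorAlgebra.lift (ZMod 2) ⟨rho r, rho_sq r hr⟩).toLinearMap, ?_, ?_⟩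
  · intro u v
    simp only [LinearMap.comp_apply, AlgHom.toLinearMap_apply, map_mul,
      ExteriorAlgebra.lift_ι_apply, LinearMap.applyₗ_apply_apply, Module.End.mul_apply, rho_apply,
      LinearMap.snd_apply, one_smul]
  · intro m hm
    have h1 : toMilnor h m = 0 := hm
    have h2 := congrArg (fun f => f m) key
    simp only [AlgHom.comp_apply, h1, map_zero] at h2
    simp only [LinearMap.comp_apply, AlgHom.toLinearMap_apply, ← h2, map_zero]

end H39.KZ
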