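import Pool.Agent.H39.KZ.Defs

/-!
# Job KZ-A2: the elements of `barDeg 4 4`

For `A = Λ(V)`, `M = J`, the part of internal degree `4` of the fourth term of the bar complex is
spanned by the tensors `v₁ ⊗ v₂ ⊗ v₃ ⊗ v₄ ⊗ m` with `vᵢ ∈ V` and `m ∈ J ∩ Λ²(V)`.

PROOF.
(1) `barDeg n j = ⊥` if `j < n`: induction on `n`; `barDeg (n+1) j` is the supremum over
    `1 ≤ i ≤ j` of `map₂ _ (𝒜 i) (barDeg n (j - i))` and `j - i < n`; `Submodule.map₂_bot_right`.
(2) `barDeg (n+1) (n+1) ≤ map₂ _ (𝒜 1) (barDeg n n)`: the terms `i ≥ 2` are `⊥` by (1).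
(3) So if `Gen n : Set (Bar n)` is defined by: `Gen 0 = {m : J | (m : Λ) ∈ ⋀² V}` and
    `Gen (n+1) = {ι v ⊗ₜ x | v ∈ V, x ∈ Gen n}`, then `barDeg n n ≤ span (Gen n)`
    (`Submodule.map₂_span_span` or `Submodule.map₂_le`; `⋀¹ V` is the range of `ι`,
    `⋀[R]^1 M = (LinearMap.range ι)^1`, `pow_one`).
(4) An element of `span_{ZMod 2} (Gen 4)` is a finite sum of elements of `Gen 4`
    (`Submodule.span_induction`, scalars are `0` and `1`; or `mem_span_iff...`; one may also put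
    the scalar into `m`).  `Fin N`-indexed families: for the sum of two elements use
    `Fin.append` / `Fin.sum_univ_add`, or prove the statement first for a `Finset`/`List`
    or a general `Fintype` index type and transport along `Fintype.equivFin`.
(5) The finite set `S`: every `w ∈ ⋀² V = (range ι)^2 = range ι * range ι` lies in
    `span {ι u * ι v | u ∈ S, v ∈ S}` for some finite `S` (`Submodule.mul_induction_on`, union of
    the two `S` for a sum); take the union of these finite sets for `m 0, …, m (N-1)` and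
    of all the `v a t` (`Finset.univ.biUnion`, `classical`) and use `Submodule.span_mono`.
-/

set_option autoImplicit false

open scoped TensorProduct

namespace H39.KZ

universe u

section A2gen

variable (k : Type) [Field k] (A : Type u) [Ring A] [Algebra k A]
  (M : Type u) [AddCommGroup M] [Module k M] [Module A M] [IsScalarTower k A M]
  (𝒜 : ℕ → Submodule k A) (ℳ : ℕ → Submodule k M)

theorem A2_bot (n : ℕ) : ∀ j : ℕ, j < n → barDeg k A M 𝒜 ℳ n j = ⊥ := by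
  induction n with
  | zero => intro j hj; omega
  | succ n ih =>
    intro j hj
    show (⨆ (i : ℕ) (_ : 1 ≤ i ∧ i ≤ j),
      Submodule.map₂ (TensorProduct.mk k A (Bar k A M n)) (𝒜 i) (barDeg k A M 𝒜 ℳ n (j - i))) = ⊥
    refine le_bot_iff.1 (iSup₂_le fun i hi => ?_)
    rw [ih (j - i) (by omega), Submodule.map₂_bot_right]

theorem A2_le (n : ℕ) : barDeg k A M 𝒜 ℳ (n + 1) (n + 1) ≤
    Submodule.map₂ (TensorProduct.mk k A (Bar k A M n)) (𝒜 1) (barDeg k A M 𝒜 ℳ n n) := by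
  show (⨆ (i : ℕ) (_ : 1 ≤ i ∧ i ≤ n + 1),
      Submodule.map₂ (TensorProduct.mk k A (Bar k A M n)) (𝒜 i)
        (barDeg k A M 𝒜 ℳ n (n + 1 - i))) ≤ _
  refine iSup₂_le fun i hi => ?_
  by_cases h1 : i = 1
  · subst h1
    exact le_rfl
  · rw [A2_bot k A M 𝒜 ℳ n (n + 1 - i) (by omega), Submodule.map₂_bot_right]
    exact bot_le

/-- Generators. -/
def A2Gen (B : Set A) : (n : ℕ) → Set (Bar k A M n : Type u)
  | 0 => {m : M | m ∈ ℳ 0}
  | n + 1 => Set.image2 (fun (a : A) (x : (Bar k A M n : Type u)) =>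
      TensorProduct.mk k A (Bar k A M n) a x) B (A2Gen B n)

theorem A2_span (B : Set A) (hB : 𝒜 1 ≤ Submodule.span k B) (n : ℕ) :
    barDeg k A M 𝒜 ℳ n n ≤ Submodule.span k (A2Gen k A M ℳ B n) := by
  induction n with
  | zero =>
    intro m hm
    exact Submodule.subset_span hm
  | succ n ih =>
    refine (A2_le k A M 𝒜 ℳ n).trans ?_
    refine (Submodule.map₂_le_map₂ hB ih).trans ?_
    rw [Submodule.map₂_span_span]
    exact le_rfl

end A2gen

/-- The tensor `v₀ ⊗ v₁ ⊗ v₂ ⊗ v₃ ⊗ m` in `Bar 4`. -/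
noncomputable def tens4 {K : Type u} [Field K] (h : Good 2 K) (v : Fin 4 → V 2 K) (m : J h) :
    (Bar (ZMod 2) (ExteriorAlgebra (ZMod 2) (V 2 K)) (J h) 4 : Type u) :=
  (ExteriorAlgebra.ι (ZMod 2) (v 0) ⊗ₜ[ZMod 2] (ExteriorAlgebra.ι (ZMod 2) (v 1) ⊗ₜ[ZMod 2]
    (ExteriorAlgebra.ι (ZMod 2) (v 2) ⊗ₜ[ZMod 2] (ExteriorAlgebra.ι (ZMod 2) (v 3) ⊗ₜ[ZMod 2] m)))
    : ExteriorAlgebra (ZMod 2) (V 2 K) ⊗[ZMod 2] (ExteriorAlgebra (ZMod 2) (V 2 K) ⊗[ZMod 2]
      (ExteriorAlgebra (ZMod 2) (V 2 K) ⊗[ZMod 2]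
        (ExteriorAlgebra (ZMod 2) (V 2 K) ⊗[ZMod 2] (J h)))))

/-- The span of the products `ι u * ι v`, `u, v ∈ S`. -/
noncomputable def span2 {K : Type u} [Field K] (S : Set (V 2 K)) :
    Submodule (ZMod 2) (ExteriorAlgebra (ZMod 2) (V 2 K)) :=
  Submodule.span (ZMod 2)
    {w | ∃ u ∈ S, ∃ v ∈ S, w = ExteriorAlgebra.ι (ZMod 2) u * ExteriorAlgebra.ι (ZMod 2) v}

theorem A2_span2_mono {K : Type u} [Field K] {S T : Set (V 2 K)} (h : S ⊆ T) :
    span2 S ≤ span2 T := by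
  refine Submodule.span_mono ?_
  rintro w ⟨u, hu, v, hv, rfl⟩
  exact ⟨u, h hu, v, h hv, rfl⟩

open Classical in
theorem A2_exS {K : Type u} [Field K] {w : ExteriorAlgebra (ZMod 2) (V 2 K)}
    (hw : w ∈ ⋀[ZMod 2]^2 (V 2 K)) : ∃ S : Finset (V 2 K), w ∈ span2 (S : Set (V 2 K)) := by
  have hw' : w ∈ (LinearMap.range (ExteriorAlgebra.ι (ZMod 2) (M := V 2 K))) ^ 2 := hw
  rw [pow_two] at hw'
  refine Submodule.mul_induction_on hw' ?_ ?_
  · rintro a ⟨u, rfl⟩ b ⟨v, rfl⟩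
    refine ⟨{u, v}, Submodule.subset_span ⟨u, by simp, v, by simp, rfl⟩⟩
  · rintro x y ⟨S, hS⟩ ⟨T, hT⟩
    refine ⟨S ∪ T, Submodule.add_mem _ (A2_span2_mono ?_ hS) (A2_span2_mono ?_ hT)⟩
    · intro z hz
      simpa using Or.inl hz
    · intro z hz
      simpa using Or.inr hz

theorem A2_tens4_smul {K : Type u} [Field K] (h : Good 2 K) (v : Fin 4 → V 2 K) (m : J h)
    (c : ZMod 2) : tens4 h v (c • m) = c • tens4 h v m := by
  unfold tens4
  simp only [TensorProduct.tmul_smul]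
  rfl

theorem barDeg_four {K : Type u} [Field K] (h : Good 2 K)
    (y : (Bar (ZMod 2) (ExteriorAlgebra (ZMod 2) (V 2 K)) (J h) 4 : Type u))
    (hy : y ∈ barDeg (ZMod 2) (ExteriorAlgebra (ZMod 2) (V 2 K)) (J h)
      (fun n => ⋀[ZMod 2]^n (V 2 K)) (Jdeg h) 4 4) :
    ∃ (N : ℕ) (v : Fin N → Fin 4 → V 2 K) (m : Fin N → J h) (S : Finset (V 2 K)),
      (∀ a t, v a t ∈ S) ∧ (∀ a, (m a : ExteriorAlgebra (ZMod 2) (V 2 K)) ∈ span2 (S : Set (V 2 K)))
        ∧ y = ∑ a, tens4 h (v a) (m a) := by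
  classical
  set G := A2Gen (ZMod 2) (ExteriorAlgebra (ZMod 2) (V 2 K)) (J h) (Jdeg h)
    (Set.range (ExteriorAlgebra.ι (ZMod 2) (M := V 2 K))) 4 with hG
  have hB : (⋀[ZMod 2]^1 (V 2 K)) ≤ Submodule.span (ZMod 2)
      (Set.range (ExteriorAlgebra.ι (ZMod 2) (M := V 2 K))) := by
    intro w hw
    have hw' : w ∈ (LinearMap.range (ExteriorAlgebra.ι (ZMod 2) (M := V 2 K))) ^ 1 := hw
    rw [pow_one] at hw'
    obtain ⟨u, rfl⟩ := hw'
    exact Submodule.subset_span ⟨u, rfl⟩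
  have hy1 : y ∈ Submodule.span (ZMod 2) G :=
    A2_span (ZMod 2) (ExteriorAlgebra (ZMod 2) (V 2 K)) (J h) (fun n => ⋀[ZMod 2]^n (V 2 K))
      (Jdeg h) _ hB 4 hy
  have key : ∃ (N : ℕ) (v : Fin N → Fin 4 → V 2 K) (m : Fin N → J h),
      (∀ a, m a ∈ Jdeg h 0) ∧ y = ∑ a, tens4 h (v a) (m a) := by
    refine Submodule.span_induction (p := fun y _ => ∃ (N : ℕ) (v : Fin N → Fin 4 → V 2 K)
      (m : Fin N → J h), (∀ a, m a ∈ Jdeg h 0) ∧ y = ∑ a, tens4 h (v a) (m a)) ?_ ?_ ?_ ?_ hy1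
    · rintro x ⟨_, ⟨v0, rfl⟩, _, ⟨_, ⟨v1, rfl⟩, _, ⟨_, ⟨v2, rfl⟩, _, ⟨_, ⟨v3, rfl⟩, m, hm, rfl⟩,
        rfl⟩, rfl⟩, rfl⟩
      refine ⟨1, fun _ => ![v0, v1, v2, v3], fun _ => m, fun _ => hm, ?_⟩
      rw [Fin.sum_univ_one]
      rfl
    · refine ⟨0, fun a => a.elim0, fun a => a.elim0, fun a => a.elim0, ?_⟩
      simp
    · rintro x z _ _ ⟨N, v, m, hm, rfl⟩ ⟨N', v', m', hm', rfl⟩
      refine ⟨N + N', Fin.append v v', Fin.append m m', ?_, ?_⟩
      · intro a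
        refine Fin.addCases (fun i => ?_) (fun i => ?_) a
        · rw [Fin.append_left]; exact hm i
        · rw [Fin.append_right]; exact hm' i
      · rw [Fin.sum_univ_add]
        simp only [Fin.append_left, Fin.append_right]
    · rintro c x _ ⟨N, v, m, hm, rfl⟩
      refine ⟨N, v, fun a => c • m a, fun a => Submodule.smul_mem _ _ (hm a), ?_⟩
      rw [Finset.smul_sum]
      exact Finset.sum_congr rfl fun a _ => (A2_tens4_smul h (v a) (m a) c).symm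
  obtain ⟨N, v, m, hm, hy2⟩ := key
  have hS : ∀ a, ∃ S : Finset (V 2 K),
      (m a : ExteriorAlgebra (ZMod 2) (V 2 K)) ∈ span2 (S : Set (V 2 K)) := fun a =>
    A2_exS (hm a)
  choose S hS using hS
  refine ⟨N, v, m, (Finset.univ.biUnion S) ∪
    (Finset.univ.biUnion fun a => Finset.univ.image (v a)), ?_, ?_, hy2⟩
  · intro a t
    refine Finset.mem_union_right _ (Finset.mem_biUnion.2 ⟨a, Finset.mem_univ _, ?_⟩)
    exact Finset.mem_image_of_mem _ (Finset.mem_univ t)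
  · intro a
    refine A2_span2_mono ?_ (hS a)
    intro z hz
    exact Finset.mem_coe.2 (Finset.mem_union_left _
      (Finset.mem_biUnion.2 ⟨a, Finset.mem_univ _, Finset.mem_coe.1 hz⟩))

end H39.KZ
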