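import Pool.Agent.H39.KZ.A2

/-!
# Job KZ-A3: the cycle `z`

Let `x, y, a, b ∈ V`, `α = ι a * ι b`, and suppose `mx, my ∈ J` are `mx = ι x * α`,
`my = ι y * α`.  Put
`z = x ⊗ x ⊗ x ⊗ my + x ⊗ x ⊗ y ⊗ mx + x ⊗ y ⊗ x ⊗ mx + y ⊗ x ⊗ x ⊗ mx ∈ Bar 3`.

(1) `z ∈ barDeg 3 4`: `mx, my ∈ Jdeg 1` (products of three `ι`'s lie in `⋀³ V = (range ι)^3`),
    and `barDeg 3 4 ⊇ map₂ (𝒜 1) (map₂ (𝒜 1) (map₂ (𝒜 1) (Jdeg 1)))` (take `i = 1` three times in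
    the suprema: `4 - 1 = 3`, `3 - 1 = 2`, `2 - 1 = 1`).
(2) `barD 2 z = 0`: for `u, v, w ∈ V`, `m ∈ J`,
    `barD 2 (u ⊗ v ⊗ w ⊗ m) = uv ⊗ w ⊗ m - u ⊗ vw ⊗ m + u ⊗ v ⊗ (w • m)`
    (unfold `barD`, `mulFirst`, `act`; `w • m` is the multiplication of the ideal `J`).
    Hence (using `ι x * ι x = 0`, `ι y * ι x = - ι x * ι y`, characteristic `2`)
    `x ⊗ x ⊗ x ⊗ my  ↦  x ⊗ x ⊗ (x • my)`
    `x ⊗ x ⊗ y ⊗ mx  ↦  - x ⊗ xy ⊗ mx + x ⊗ x ⊗ (y • mx)`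
    `x ⊗ y ⊗ x ⊗ mx  ↦  xy ⊗ x ⊗ mx - x ⊗ yx ⊗ mx + x ⊗ y ⊗ (x • mx)`
    `y ⊗ x ⊗ x ⊗ mx  ↦  yx ⊗ x ⊗ mx + y ⊗ x ⊗ (x • mx)`
    with `x • mx = 0`, `x • my + y • mx = (xy + yx) α = 0`, `xy + yx = 0`, and so the sum is `0`.
-/

set_option autoImplicit false

open scoped TensorProduct

namespace H39.KZ

universe u

/-- The tensor `v₀ ⊗ v₁ ⊗ v₂ ⊗ m` in `Bar 3`. -/
noncomputable def tens3 {K : Type u} [Field K] (h : Good 2 K) (v₀ v₁ v₂ : V 2 K) (m : J h) :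
    (Bar (ZMod 2) (ExteriorAlgebra (ZMod 2) (V 2 K)) (J h) 3 : Type u) :=
  (ExteriorAlgebra.ι (ZMod 2) v₀ ⊗ₜ[ZMod 2] (ExteriorAlgebra.ι (ZMod 2) v₁ ⊗ₜ[ZMod 2]
    (ExteriorAlgebra.ι (ZMod 2) v₂ ⊗ₜ[ZMod 2] m))
    : ExteriorAlgebra (ZMod 2) (V 2 K) ⊗[ZMod 2] (ExteriorAlgebra (ZMod 2) (V 2 K) ⊗[ZMod 2]
      (ExteriorAlgebra (ZMod 2) (V 2 K) ⊗[ZMod 2] (J h))))

/-- The cycle `z`. -/
noncomputable def zElt {K : Type u} [Field K] (h : Good 2 K) (x y : V 2 K) (mx my : J h) :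
    (Bar (ZMod 2) (ExteriorAlgebra (ZMod 2) (V 2 K)) (J h) 3 : Type u) :=
  tens3 h x x x my + tens3 h x x y mx + tens3 h x y x mx + tens3 h y x x mx

theorem iota_mem_one {K : Type u} [Field K] (v : V 2 K) :
    ExteriorAlgebra.ι (ZMod 2) v ∈ ⋀[ZMod 2]^1 (V 2 K) := by
  rw [show (⋀[ZMod 2]^1 (V 2 K)) = (LinearMap.range (ExteriorAlgebra.ι (ZMod 2))) ^ 1 from rfl,
    pow_one]
  exact LinearMap.mem_range_self _ v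

theorem iota3_mem {K : Type u} [Field K] (x a b : V 2 K) :
    ExteriorAlgebra.ι (ZMod 2) x * (ExteriorAlgebra.ι (ZMod 2) a * ExteriorAlgebra.ι (ZMod 2) b) ∈
      ⋀[ZMod 2]^3 (V 2 K) := by
  rw [show (⋀[ZMod 2]^3 (V 2 K)) = (LinearMap.range (ExteriorAlgebra.ι (ZMod 2))) ^ 3 from rfl,
    pow_succ', pow_two]
  exact Submodule.mul_mem_mul (LinearMap.mem_range_self _ x)
    (Submodule.mul_mem_mul (LinearMap.mem_range_self _ a) (LinearMap.mem_range_self _ b))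

theorem tmul_mem_barDeg {K : Type u} [Field K] (h : Good 2 K) (v : V 2 K) (n j : ℕ)
    (x : (Bar (ZMod 2) (ExteriorAlgebra (ZMod 2) (V 2 K)) (J h) n : Type u))
    (hx : x ∈ barDeg (ZMod 2) (ExteriorAlgebra (ZMod 2) (V 2 K)) (J h)
      (fun n => ⋀[ZMod 2]^n (V 2 K)) (Jdeg h) n j) :
    (show (Bar (ZMod 2) (ExteriorAlgebra (ZMod 2) (V 2 K)) (J h) (n + 1) : Type u) from
      (ExteriorAlgebra.ι (ZMod 2) v ⊗ₜ[ZMod 2] x : ExteriorAlgebra (ZMod 2) (V 2 K) ⊗[ZMod 2]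
        (Bar (ZMod 2) (ExteriorAlgebra (ZMod 2) (V 2 K)) (J h) n : Type u))) ∈
      barDeg (ZMod 2) (ExteriorAlgebra (ZMod 2) (V 2 K)) (J h)
      (fun n => ⋀[ZMod 2]^n (V 2 K)) (Jdeg h) (n + 1) (j + 1) := by
  unfold barDeg
  refine Submodule.mem_iSup_of_mem 1 (Submodule.mem_iSup_of_mem ⟨le_refl _, by omega⟩ ?_)
  exact Submodule.apply_mem_map₂ _ (iota_mem_one v) hx

theorem zElt_mem {K : Type u} [Field K] (h : Good 2 K) (x y a b : V 2 K) (mx my : J h)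
    (hmx : (mx : ExteriorAlgebra (ZMod 2) (V 2 K)) = ExteriorAlgebra.ι (ZMod 2) x *
      (ExteriorAlgebra.ι (ZMod 2) a * ExteriorAlgebra.ι (ZMod 2) b))
    (hmy : (my : ExteriorAlgebra (ZMod 2) (V 2 K)) = ExteriorAlgebra.ι (ZMod 2) y *
      (ExteriorAlgebra.ι (ZMod 2) a * ExteriorAlgebra.ι (ZMod 2) b)) :
    zElt h x y mx my ∈ barDeg (ZMod 2) (ExteriorAlgebra (ZMod 2) (V 2 K)) (J h)
      (fun n => ⋀[ZMod 2]^n (V 2 K)) (Jdeg h) 3 4 := by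
  have key : ∀ (m : J h), (m : ExteriorAlgebra (ZMod 2) (V 2 K)) ∈ ⋀[ZMod 2]^3 (V 2 K) →
      ∀ v₀ v₁ v₂ : V 2 K, tens3 h v₀ v₁ v₂ m ∈
        barDeg (ZMod 2) (ExteriorAlgebra (ZMod 2) (V 2 K)) (J h)
          (fun n => ⋀[ZMod 2]^n (V 2 K)) (Jdeg h) 3 4 := by
    intro m hm v₀ v₁ v₂
    have h0 : m ∈ barDeg (ZMod 2) (ExteriorAlgebra (ZMod 2) (V 2 K)) (J h)
        (fun n => ⋀[ZMod 2]^n (V 2 K)) (Jdeg h) 0 1 := hm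
    exact tmul_mem_barDeg h v₀ 2 3 _ (tmul_mem_barDeg h v₁ 1 2 _ (tmul_mem_barDeg h v₂ 0 1 _ h0))
  have hx3 : (mx : ExteriorAlgebra (ZMod 2) (V 2 K)) ∈ ⋀[ZMod 2]^3 (V 2 K) := by
    rw [hmx]; exact iota3_mem x a b
  have hy3 : (my : ExteriorAlgebra (ZMod 2) (V 2 K)) ∈ ⋀[ZMod 2]^3 (V 2 K) := by
    rw [hmy]; exact iota3_mem y a b
  exact add_mem (add_mem (add_mem (key my hy3 _ _ _) (key mx hx3 _ _ _)) (key mx hx3 _ _ _))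
    (key mx hx3 _ _ _)

theorem barD_tens3 {K : Type u} [Field K] (h : Good 2 K) (v₀ v₁ v₂ : V 2 K) (m : J h) :
    barD (ZMod 2) (ExteriorAlgebra (ZMod 2) (V 2 K)) (J h) 2 (tens3 h v₀ v₁ v₂ m) =
      (show (Bar (ZMod 2) (ExteriorAlgebra (ZMod 2) (V 2 K)) (J h) 2 : Type u) from
      (((ExteriorAlgebra.ι (ZMod 2) v₀ * ExteriorAlgebra.ι (ZMod 2) v₁) ⊗ₜ[ZMod 2]
        (ExteriorAlgebra.ι (ZMod 2) v₂ ⊗ₜ[ZMod 2] m) - ExteriorAlgebra.ι (ZMod 2) v₀ ⊗ₜ[ZMod 2]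
        ((ExteriorAlgebra.ι (ZMod 2) v₁ * ExteriorAlgebra.ι (ZMod 2) v₂) ⊗ₜ[ZMod 2] m -
          ExteriorAlgebra.ι (ZMod 2) v₁ ⊗ₜ[ZMod 2] (ExteriorAlgebra.ι (ZMod 2) v₂ • m))
        : ExteriorAlgebra (ZMod 2) (V 2 K) ⊗[ZMod 2] (ExteriorAlgebra (ZMod 2) (V 2 K) ⊗[ZMod 2]
          (J h))))) := by
  rfl

theorem zElt_cycle {K : Type u} [Field K] (h : Good 2 K) (x y a b : V 2 K) (mx my : J h)
    (hmx : (mx : ExteriorAlgebra (ZMod 2) (V 2 K)) = ExteriorAlgebra.ι (ZMod 2) x *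
      (ExteriorAlgebra.ι (ZMod 2) a * ExteriorAlgebra.ι (ZMod 2) b))
    (hmy : (my : ExteriorAlgebra (ZMod 2) (V 2 K)) = ExteriorAlgebra.ι (ZMod 2) y *
      (ExteriorAlgebra.ι (ZMod 2) a * ExteriorAlgebra.ι (ZMod 2) b)) :
    barD (ZMod 2) (ExteriorAlgebra (ZMod 2) (V 2 K)) (J h) 2 (zElt h x y mx my) = 0 := by
  have hxx : ExteriorAlgebra.ι (ZMod 2) x * ExteriorAlgebra.ι (ZMod 2) x = 0 :=
    ExteriorAlgebra.ι_sq_zero x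
  have hyx : ExteriorAlgebra.ι (ZMod 2) y * ExteriorAlgebra.ι (ZMod 2) x =
      -(ExteriorAlgebra.ι (ZMod 2) x * ExteriorAlgebra.ι (ZMod 2) y) :=
    eq_neg_of_add_eq_zero_left (ExteriorAlgebra.ι_add_mul_swap y x)
  have hxmx : ExteriorAlgebra.ι (ZMod 2) x • mx = 0 := by
    apply Subtype.ext
    show ExteriorAlgebra.ι (ZMod 2) x * (mx : ExteriorAlgebra (ZMod 2) (V 2 K)) = 0
    rw [hmx, ← mul_assoc, hxx, zero_mul]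
  have hymx : ExteriorAlgebra.ι (ZMod 2) y • mx = -(ExteriorAlgebra.ι (ZMod 2) x • my) := by
    apply Subtype.ext
    show ExteriorAlgebra.ι (ZMod 2) y * (mx : ExteriorAlgebra (ZMod 2) (V 2 K)) =
      -(ExteriorAlgebra.ι (ZMod 2) x * (my : ExteriorAlgebra (ZMod 2) (V 2 K)))
    rw [hmx, hmy, ← mul_assoc, ← mul_assoc (ExteriorAlgebra.ι (ZMod 2) x), hyx, neg_mul]
  have hadd : ∀ p q : (Bar (ZMod 2) (ExteriorAlgebra (ZMod 2) (V 2 K)) (J h) 3 : Type u),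
      barD (ZMod 2) (ExteriorAlgebra (ZMod 2) (V 2 K)) (J h) 2 (p + q) =
        barD (ZMod 2) (ExteriorAlgebra (ZMod 2) (V 2 K)) (J h) 2 p +
          barD (ZMod 2) (ExteriorAlgebra (ZMod 2) (V 2 K)) (J h) 2 q :=
    fun p q => (barD (ZMod 2) (ExteriorAlgebra (ZMod 2) (V 2 K)) (J h) 2).map_add' p q
  unfold zElt
  have e1 := barD_tens3 h x x x my
  have e2 := barD_tens3 h x x y mx
  have e3 := barD_tens3 h x y x mx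
  have e4 := barD_tens3 h y x x mx
  rw [hxx] at e1 e2 e4
  rw [hyx] at e3 e4
  rw [hxmx] at e3 e4
  rw [hymx] at e2
  refine ((hadd _ _).trans (congrArg₂ _ ((hadd _ _).trans (congrArg₂ _ ((hadd _ _).trans
    (congrArg₂ _ e1 e2)) e3)) e4)).trans ?_
  show ((_ + _ + _ + _ : ExteriorAlgebra (ZMod 2) (V 2 K) ⊗[ZMod 2]
    (ExteriorAlgebra (ZMod 2) (V 2 K) ⊗[ZMod 2] (J h)))) = 0
  simp only [TensorProduct.zero_tmul, TensorProduct.tmul_zero, TensorProduct.neg_tmul,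
    TensorProduct.tmul_neg, TensorProduct.tmul_sub, zero_sub, sub_zero, neg_neg]
  abel

end H39.KZ
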