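import Pool.Agent.H39.KZ.A3

/-!
# Job KZ-A4: contractions of an element with boundary `z`

Let `y = ∑ₐ vₐ₀ ⊗ vₐ₁ ⊗ vₐ₂ ⊗ vₐ₃ ⊗ mₐ` with `barD 3 y = z`.  We contract the equation with
functionals.

PROOF.  Notation `d⌋w = CliffordAlgebra.contractLeft d w` (`ExteriorAlgebra R M` is the Clifford
algebra of the zero form; `CliffordAlgebra.contractLeft_ι_mul : d⌋(ι a * b) = d a • b - ι a * d⌋b`,
`contractLeft_ι : d⌋(ι x) = algebraMap (d x)`), `ε = ExteriorAlgebra.algebraMapInv : Λ →ₐ F`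
(`ε (ι v) = 0`, `ε (algebraMap r) = r`).
For `e : V → F` linear put `ê = ε ∘ (e⌋·) : Λ →ₗ[F] F`.  Then `ê (ι u) = e u` and
`ê (ι u * ι v) = ε (e u • ι v - ι u * algebraMap (e v)) = 0`.
For `e, e'` put `λ_{e,e'} w = ε (e'⌋(e⌋w))`.  Then `λ_{e,e'} (ι u) = 0` and
`λ_{e,e'} (ι u * ι v) = e u * e' v - e v * e' u`.
For three functionals `φ₀, φ₁, φ₂ : Λ →ₗ[F] F` let
`C(φ₀, φ₁, φ₂) : Bar 3 = Λ ⊗ (Λ ⊗ (Λ ⊗ J)) → J`, `a ⊗ b ⊗ c ⊗ m ↦ φ₀ a • φ₁ b • φ₂ c • m`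
(compose maps `Λ ⊗ N → N`, `a ⊗ n ↦ φ a • n`, i.e. `TensorProduct.lid ∘ rTensor φ`, or
`TensorProduct.lift`).
`barD 3 (v₀ ⊗ v₁ ⊗ v₂ ⊗ v₃ ⊗ m) = v₀v₁ ⊗ v₂ ⊗ v₃ ⊗ m - (v₀ ⊗ v₁v₂ ⊗ v₃ ⊗ m - (v₀ ⊗ v₁ ⊗ v₂v₃ ⊗ m
  - v₀ ⊗ v₁ ⊗ v₂ ⊗ (v₃ • m)))` (unfold `barD`, `mulFirst`, `act`; use `show`/`change` to pass from
`Bar` to the explicit tensor products).
 (1) apply `C(λ_{e₀,e₁}, ê₂, ê₃)`: `z ↦ 0` since `λ (ι u) = 0`; only the first term of the boundary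
     contributes: `∑ₐ (e₀ v₀ * e₁ v₁ - e₀ v₁ * e₁ v₀) * e₂ v₂ * e₃ v₃ • m = 0`.
 (2) apply `C(ê₀, λ_{e₁,e₂}, ê₃)`, (3) apply `C(ê₀, ê₁, λ_{e₂,e₃})` in the same way.
 (4) apply `C(ê₀, ê₁, ê₂)`: the first three terms give `0` (`ê (ι u * ι v) = 0`), the last one
     `- e₀ v₀ * e₁ v₁ * e₂ v₂ • (v₃ • m)`, and `z` gives the right hand side; `- = +` in
     characteristic two; `((ι v • m : J) : Λ) = ι v * m`.
-/

set_option autoImplicit false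

open scoped TensorProduct

namespace H39.KZ

universe u

section gen

variable (k : Type) [Field k] (A : Type u) [Ring A] [Algebra k A]
  (M : Type u) [AddCommGroup M] [Module k M] [Module A M] [IsScalarTower k A M]

theorem A4_barD_zero (a : A) (m : M) :
    barD k A M 0 (a ⊗ₜ[k] m : A ⊗[k] M) = a • m := by
  show act k A M (a ⊗ₜ[k] m) = a • m
  rfl

theorem A4_barD_succ (n : ℕ) (a b : A) (x : (Bar k A M n : Type u)) :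
    barD k A M (n + 1) (a ⊗ₜ[k] (b ⊗ₜ[k] x) : A ⊗[k] (A ⊗[k] (Bar k A M n : Type u)))
      = ((a * b) ⊗ₜ[k] x : A ⊗[k] (Bar k A M n : Type u))
        - (a ⊗ₜ[k] (barD k A M n (b ⊗ₜ[k] x : A ⊗[k] (Bar k A M n : Type u))) :
            A ⊗[k] (Bar k A M n : Type u)) := by
  rfl

/-- contraction of the first factor -/
noncomputable def A4con (φ : A →ₗ[k] k) (N : Type u) [AddCommGroup N] [Module k N] :
    A ⊗[k] N →ₗ[k] N :=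
  (TensorProduct.lid k N).toLinearMap ∘ₗ φ.rTensor N

theorem A4con_tmul (φ : A →ₗ[k] k) (N : Type u) [AddCommGroup N] [Module k N] (a : A) (x : N) :
    A4con k A φ N (a ⊗ₜ[k] x) = φ a • x := by
  simp [A4con]

/-- contraction of three factors -/
noncomputable def A4C (φ₀ φ₁ φ₂ : A →ₗ[k] k) :
    A ⊗[k] (A ⊗[k] (A ⊗[k] M)) →ₗ[k] M :=
  A4con k A φ₂ M ∘ₗ A4con k A φ₁ (A ⊗[k] M) ∘ₗ A4con k A φ₀ (A ⊗[k] (A ⊗[k] M))

theorem A4C_tmul (φ₀ φ₁ φ₂ : A →ₗ[k] k) (a b c : A) (m : M) :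
    A4C k A M φ₀ φ₁ φ₂ (a ⊗ₜ[k] (b ⊗ₜ[k] (c ⊗ₜ[k] m))) = (φ₀ a * φ₁ b * φ₂ c) • m := by
  simp only [A4C, LinearMap.comp_apply, A4con_tmul, map_smul, smul_smul]

theorem A4C_barD (φ₀ φ₁ φ₂ : A →ₗ[k] k) (a b c d : A) (m : M) :
    A4C k A M φ₀ φ₁ φ₂ (barD k A M 3 (a ⊗ₜ[k] (b ⊗ₜ[k] (c ⊗ₜ[k] (d ⊗ₜ[k] m))) :
      A ⊗[k] (A ⊗[k] (A ⊗[k] (A ⊗[k] M)))))
      = (φ₀ (a * b) * φ₁ c * φ₂ d) • m - (φ₀ a * φ₁ (b * c) * φ₂ d) • m
        + (φ₀ a * φ₁ b * φ₂ (c * d)) • m - (φ₀ a * φ₁ b * φ₂ c) • (d • m) := by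
  have h3 : barD k A M 3 (a ⊗ₜ[k] (b ⊗ₜ[k] (c ⊗ₜ[k] (d ⊗ₜ[k] m))) :
      A ⊗[k] (A ⊗[k] (A ⊗[k] (A ⊗[k] M)))) =
      (((a * b) ⊗ₜ[k] (c ⊗ₜ[k] (d ⊗ₜ[k] m)) - a ⊗ₜ[k] ((b * c) ⊗ₜ[k] (d ⊗ₜ[k] m) -
        b ⊗ₜ[k] ((c * d) ⊗ₜ[k] m - c ⊗ₜ[k] (d • m)))) : A ⊗[k] (A ⊗[k] (A ⊗[k] M))) := by
    rfl
  rw [h3]
  simp only [map_sub, TensorProduct.tmul_sub, A4C_tmul]
  abel

end gen

section ext

variable {K : Type u} [Field K]

/-- `e` composed with the contraction -/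
noncomputable def A4hat (e : V 2 K →ₗ[ZMod 2] ZMod 2) :
    ExteriorAlgebra (ZMod 2) (V 2 K) →ₗ[ZMod 2] ZMod 2 :=
  (ExteriorAlgebra.algebraMapInv (R := ZMod 2) (M := V 2 K)).toLinearMap ∘ₗ
    CliffordAlgebra.contractLeft e

/-- double contraction -/
noncomputable def A4lam (e e' : V 2 K →ₗ[ZMod 2] ZMod 2) :
    ExteriorAlgebra (ZMod 2) (V 2 K) →ₗ[ZMod 2] ZMod 2 :=
  (ExteriorAlgebra.algebraMapInv (R := ZMod 2) (M := V 2 K)).toLinearMap ∘ₗ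
    CliffordAlgebra.contractLeft e' ∘ₗ CliffordAlgebra.contractLeft e

theorem A4inv_ι (v : V 2 K) : ExteriorAlgebra.algebraMapInv (R := ZMod 2)
    (ExteriorAlgebra.ι (ZMod 2) v) = 0 := by
  simp [ExteriorAlgebra.algebraMapInv]

theorem A4inv_alg (r : ZMod 2) : ExteriorAlgebra.algebraMapInv (R := ZMod 2) (M := V 2 K)
    (algebraMap (ZMod 2) (ExteriorAlgebra (ZMod 2) (V 2 K)) r) = r := by
  exact ExteriorAlgebra.algebraMap_leftInverse (V 2 K) r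

theorem A4hat_ι (e : V 2 K →ₗ[ZMod 2] ZMod 2) (v : V 2 K) :
    A4hat e (ExteriorAlgebra.ι (ZMod 2) v) = e v := by
  show ExteriorAlgebra.algebraMapInv (R := ZMod 2) (M := V 2 K)
    (CliffordAlgebra.contractLeft e (CliffordAlgebra.ι _ v)) = e v
  rw [CliffordAlgebra.contractLeft_ι]
  exact A4inv_alg _

theorem A4hat_ιι (e : V 2 K →ₗ[ZMod 2] ZMod 2) (u v : V 2 K) :
    A4hat e (ExteriorAlgebra.ι (ZMod 2) u * ExteriorAlgebra.ι (ZMod 2) v) = 0 := by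
  show ExteriorAlgebra.algebraMapInv (R := ZMod 2) (M := V 2 K)
    (CliffordAlgebra.contractLeft e (CliffordAlgebra.ι _ u * CliffordAlgebra.ι _ v)) = 0
  rw [CliffordAlgebra.contractLeft_ι_mul, map_sub, map_smul, map_mul]
  have h1 := A4inv_ι u
  have h2 := A4inv_ι v
  rw [show ExteriorAlgebra.algebraMapInv (R := ZMod 2) (M := V 2 K) (CliffordAlgebra.ι _ u) = 0
    from h1, show ExteriorAlgebra.algebraMapInv (R := ZMod 2) (M := V 2 K)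
    (CliffordAlgebra.ι _ v) = 0 from h2]
  simp

theorem A4lam_ι (e e' : V 2 K →ₗ[ZMod 2] ZMod 2) (v : V 2 K) :
    A4lam e e' (ExteriorAlgebra.ι (ZMod 2) v) = 0 := by
  show ExteriorAlgebra.algebraMapInv (R := ZMod 2) (M := V 2 K)
    (CliffordAlgebra.contractLeft e' (CliffordAlgebra.contractLeft e
      (CliffordAlgebra.ι _ v))) = 0
  rw [CliffordAlgebra.contractLeft_ι, CliffordAlgebra.contractLeft_algebraMap, map_zero]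

theorem A4lam_ιι (e e' : V 2 K →ₗ[ZMod 2] ZMod 2) (u v : V 2 K) :
    A4lam e e' (ExteriorAlgebra.ι (ZMod 2) u * ExteriorAlgebra.ι (ZMod 2) v)
      = e u * e' v - e v * e' u := by
  show ExteriorAlgebra.algebraMapInv (R := ZMod 2) (M := V 2 K)
    (CliffordAlgebra.contractLeft e' (CliffordAlgebra.contractLeft e
      (CliffordAlgebra.ι _ u * CliffordAlgebra.ι _ v))) = _
  rw [CliffordAlgebra.contractLeft_ι_mul, CliffordAlgebra.contractLeft_ι, map_sub, map_smul,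
    CliffordAlgebra.contractLeft_ι, CliffordAlgebra.contractLeft_ι_mul,
    CliffordAlgebra.contractLeft_algebraMap, mul_zero, sub_zero, map_sub, map_smul, map_smul]
  rw [show ExteriorAlgebra.algebraMapInv (R := ZMod 2) (M := V 2 K)
    (algebraMap (ZMod 2) _ (e' v)) = e' v from A4inv_alg _,
    show ExteriorAlgebra.algebraMapInv (R := ZMod 2) (M := V 2 K)
    (algebraMap (ZMod 2) _ (e v)) = e v from A4inv_alg _, smul_eq_mul, smul_eq_mul]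
  ring

/-- contraction of `tens4` after the boundary -/
theorem A4C_tens4 (h : Good 2 K)
    (φ₀ φ₁ φ₂ : ExteriorAlgebra (ZMod 2) (V 2 K) →ₗ[ZMod 2] ZMod 2) (v : Fin 4 → V 2 K)
    (m : J h) :
    A4C (ZMod 2) (ExteriorAlgebra (ZMod 2) (V 2 K)) (J h) φ₀ φ₁ φ₂
      (barD (ZMod 2) (ExteriorAlgebra (ZMod 2) (V 2 K)) (J h) 3 (tens4 h v m))
      = (φ₀ (ExteriorAlgebra.ι (ZMod 2) (v 0) * ExteriorAlgebra.ι (ZMod 2) (v 1)) *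
          φ₁ (ExteriorAlgebra.ι (ZMod 2) (v 2)) * φ₂ (ExteriorAlgebra.ι (ZMod 2) (v 3))) • m
        - (φ₀ (ExteriorAlgebra.ι (ZMod 2) (v 0)) *
          φ₁ (ExteriorAlgebra.ι (ZMod 2) (v 1) * ExteriorAlgebra.ι (ZMod 2) (v 2)) *
          φ₂ (ExteriorAlgebra.ι (ZMod 2) (v 3))) • m
        + (φ₀ (ExteriorAlgebra.ι (ZMod 2) (v 0)) * φ₁ (ExteriorAlgebra.ι (ZMod 2) (v 1)) *
          φ₂ (ExteriorAlgebra.ι (ZMod 2) (v 2) * ExteriorAlgebra.ι (ZMod 2) (v 3))) • m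
        - (φ₀ (ExteriorAlgebra.ι (ZMod 2) (v 0)) * φ₁ (ExteriorAlgebra.ι (ZMod 2) (v 1)) *
          φ₂ (ExteriorAlgebra.ι (ZMod 2) (v 2))) • (ExteriorAlgebra.ι (ZMod 2) (v 3) • m) :=
  A4C_barD _ _ _ _ _ _ _ _ _ _ _

theorem A4C_tens3 (h : Good 2 K)
    (φ₀ φ₁ φ₂ : ExteriorAlgebra (ZMod 2) (V 2 K) →ₗ[ZMod 2] ZMod 2) (u v w : V 2 K)
    (m : J h) :
    A4C (ZMod 2) (ExteriorAlgebra (ZMod 2) (V 2 K)) (J h) φ₀ φ₁ φ₂ (tens3 h u v w m)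
      = (φ₀ (ExteriorAlgebra.ι (ZMod 2) u) * φ₁ (ExteriorAlgebra.ι (ZMod 2) v) *
          φ₂ (ExteriorAlgebra.ι (ZMod 2) w)) • m :=
  A4C_tmul _ _ _ _ _ _ _ _ _ _

/-- the contracted equation -/
theorem A4_main (h : Good 2 K) (x y : V 2 K) (mx my : J h)
    (N : ℕ) (v : Fin N → Fin 4 → V 2 K) (m : Fin N → J h)
    (hb : barD (ZMod 2) (ExteriorAlgebra (ZMod 2) (V 2 K)) (J h) 3 (∑ a, tens4 h (v a) (m a))
      = zElt h x y mx my)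
    (φ₀ φ₁ φ₂ : ExteriorAlgebra (ZMod 2) (V 2 K) →ₗ[ZMod 2] ZMod 2) :
    ∑ a, ((φ₀ (ExteriorAlgebra.ι (ZMod 2) (v a 0) * ExteriorAlgebra.ι (ZMod 2) (v a 1)) *
          φ₁ (ExteriorAlgebra.ι (ZMod 2) (v a 2)) * φ₂ (ExteriorAlgebra.ι (ZMod 2) (v a 3))) • m a
        - (φ₀ (ExteriorAlgebra.ι (ZMod 2) (v a 0)) *
          φ₁ (ExteriorAlgebra.ι (ZMod 2) (v a 1) * ExteriorAlgebra.ι (ZMod 2) (v a 2)) *
          φ₂ (ExteriorAlgebra.ι (ZMod 2) (v a 3))) • m a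
        + (φ₀ (ExteriorAlgebra.ι (ZMod 2) (v a 0)) * φ₁ (ExteriorAlgebra.ι (ZMod 2) (v a 1)) *
          φ₂ (ExteriorAlgebra.ι (ZMod 2) (v a 2) * ExteriorAlgebra.ι (ZMod 2) (v a 3))) • m a
        - (φ₀ (ExteriorAlgebra.ι (ZMod 2) (v a 0)) * φ₁ (ExteriorAlgebra.ι (ZMod 2) (v a 1)) *
          φ₂ (ExteriorAlgebra.ι (ZMod 2) (v a 2))) • (ExteriorAlgebra.ι (ZMod 2) (v a 3) • m a))
      = (φ₀ (ExteriorAlgebra.ι (ZMod 2) x) * φ₁ (ExteriorAlgebra.ι (ZMod 2) x) *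
          φ₂ (ExteriorAlgebra.ι (ZMod 2) x)) • my
        + (φ₀ (ExteriorAlgebra.ι (ZMod 2) x) * φ₁ (ExteriorAlgebra.ι (ZMod 2) x) *
          φ₂ (ExteriorAlgebra.ι (ZMod 2) y)) • mx
        + (φ₀ (ExteriorAlgebra.ι (ZMod 2) x) * φ₁ (ExteriorAlgebra.ι (ZMod 2) y) *
          φ₂ (ExteriorAlgebra.ι (ZMod 2) x)) • mx
        + (φ₀ (ExteriorAlgebra.ι (ZMod 2) y) * φ₁ (ExteriorAlgebra.ι (ZMod 2) x) *
          φ₂ (ExteriorAlgebra.ι (ZMod 2) x)) • mx := by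
  have h1 := congrArg (A4C (ZMod 2) (ExteriorAlgebra (ZMod 2) (V 2 K)) (J h) φ₀ φ₁ φ₂) hb
  rw [map_sum] at h1
  have h2 : A4C (ZMod 2) (ExteriorAlgebra (ZMod 2) (V 2 K)) (J h) φ₀ φ₁ φ₂
      (zElt h x y mx my) = _ :=
    (map_add _ _ _).trans (congrArg₂ (· + ·) ((map_add _ _ _).trans
      (congrArg₂ (· + ·) ((map_add _ _ _).trans (congrArg₂ (· + ·)
        (A4C_tens3 h φ₀ φ₁ φ₂ x x x my) (A4C_tens3 h φ₀ φ₁ φ₂ x x y mx)))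
        (A4C_tens3 h φ₀ φ₁ φ₂ x y x mx))) (A4C_tens3 h φ₀ φ₁ φ₂ y x x mx))
  rw [h2] at h1
  refine Eq.trans (Eq.trans ?_ (map_sum (A4C (ZMod 2) (ExteriorAlgebra (ZMod 2) (V 2 K)) (J h)
    φ₀ φ₁ φ₂) (fun a => barD (ZMod 2) (ExteriorAlgebra (ZMod 2) (V 2 K)) (J h) 3
      (tens4 h (v a) (m a))) Finset.univ).symm) h1
  exact Finset.sum_congr rfl fun a _ => (A4C_tens4 h φ₀ φ₁ φ₂ (v a) (m a)).symm

end ext

theorem extraction {K : Type u} [Field K] (h : Good 2 K) (x y : V 2 K) (mx my : J h)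
    (N : ℕ) (v : Fin N → Fin 4 → V 2 K) (m : Fin N → J h)
    (hb : barD (ZMod 2) (ExteriorAlgebra (ZMod 2) (V 2 K)) (J h) 3 (∑ a, tens4 h (v a) (m a))
      = zElt h x y mx my)
    (e₀ e₁ e₂ e₃ : V 2 K →ₗ[ZMod 2] ZMod 2) :
    (∑ a, (e₀ (v a 0) * e₁ (v a 1) * e₂ (v a 2) * e₃ (v a 3)) • m a
      = ∑ a, (e₁ (v a 0) * e₀ (v a 1) * e₂ (v a 2) * e₃ (v a 3)) • m a) ∧
    (∑ a, (e₀ (v a 0) * e₁ (v a 1) * e₂ (v a 2) * e₃ (v a 3)) • m a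
      = ∑ a, (e₀ (v a 0) * e₂ (v a 1) * e₁ (v a 2) * e₃ (v a 3)) • m a) ∧
    (∑ a, (e₀ (v a 0) * e₁ (v a 1) * e₂ (v a 2) * e₃ (v a 3)) • m a
      = ∑ a, (e₀ (v a 0) * e₁ (v a 1) * e₃ (v a 2) * e₂ (v a 3)) • m a) ∧
    (∑ a, (e₀ (v a 0) * e₁ (v a 1) * e₂ (v a 2)) •
        (ExteriorAlgebra.ι (ZMod 2) (v a 3) * (m a : ExteriorAlgebra (ZMod 2) (V 2 K)))
      = (e₀ x * e₁ x * e₂ x) • (my : ExteriorAlgebra (ZMod 2) (V 2 K))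
        + (e₀ x * e₁ x * e₂ y + e₀ x * e₁ y * e₂ x + e₀ y * e₁ x * e₂ x) •
          (mx : ExteriorAlgebra (ZMod 2) (V 2 K))) := by
  have hchar : ∀ w : J h, -w = w := by
    intro w
    have h2 : (2 : ZMod 2) • w = 0 := by
      rw [show (2 : ZMod 2) = 0 from rfl, zero_smul]
    rw [two_smul] at h2
    exact (eq_neg_of_add_eq_zero_left h2).symm
  refine ⟨?_, ?_, ?_, ?_⟩
  · have := A4_main h x y mx my N v m hb (A4lam e₀ e₁) (A4hat e₂) (A4hat e₃)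
    simp only [A4lam_ι, A4lam_ιι, A4hat_ι, zero_mul, zero_smul, sub_zero, add_zero] at this
    rw [← sub_eq_zero, ← Finset.sum_sub_distrib, ← this]
    refine Finset.sum_congr rfl fun a _ => ?_
    rw [← sub_smul]
    congr 1
    ring
  · have := A4_main h x y mx my N v m hb (A4hat e₀) (A4lam e₁ e₂) (A4hat e₃)
    simp only [A4lam_ι, A4lam_ιι, A4hat_ι, A4hat_ιι, zero_mul, mul_zero, zero_smul, sub_zero,
      add_zero, zero_sub] at this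
    rw [← sub_eq_zero, ← Finset.sum_sub_distrib, ← neg_eq_zero, ← Finset.sum_neg_distrib, ← this]
    refine Finset.sum_congr rfl fun a _ => ?_
    rw [← sub_smul]
    congr 2
    ring
  · have := A4_main h x y mx my N v m hb (A4hat e₀) (A4hat e₁) (A4lam e₂ e₃)
    simp only [A4lam_ι, A4lam_ιι, A4hat_ι, A4hat_ιι, zero_mul, mul_zero, zero_smul, sub_zero,
      add_zero, zero_sub, zero_add] at this
    rw [← sub_eq_zero, ← Finset.sum_sub_distrib, ← this]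
    refine Finset.sum_congr rfl fun a _ => ?_
    rw [← sub_smul]
    congr 1
    ring
  · have := A4_main h x y mx my N v m hb (A4hat e₀) (A4hat e₁) (A4hat e₂)
    simp only [A4hat_ι, A4hat_ιι, zero_mul, mul_zero, zero_smul, sub_zero,
      add_zero, zero_sub, zero_add, hchar] at this
    have h3 := congrArg (fun w : J h => (w : ExteriorAlgebra (ZMod 2) (V 2 K))) this
    simp only [Submodule.coe_add, Submodule.coe_sum, Submodule.coe_smul_of_tower,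
      smul_eq_mul] at h3
    refine h3.trans ?_
    rw [add_smul, add_smul]
    abel

end H39.KZ
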