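import Mathlib

/-!
# Job KZ-A5: a pairing of Koszul cycles in characteristic two

Let `F = ZMod 2`, `P = MvPolynomial ι F`.  `T i j ∈ P` is an alternating family with
`∑ⱼ Xⱼ T i j = 0`, and `D i j : P → F` is an alternating family of functionals with
`D i j (X k f) + D i k (X j f) + D j k (X i f) = 0`.  Then `∑_{i<j} D i j (T i j) = 0`.

PROOF.  Define functionals `E j : P →ₗ F` on the monomial basis (`MvPolynomial.basisMonomials`,
`Basis.constr`, or `Finsupp.lsum`): for `e : ι →₀ ℕ`, `e ≠ 0`, let `p = min (supp e)`
(`Finset.min'`), and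
  `E j (monomial e 1) = D p j (monomial (e - single p 1) 1)` if `p < j`, and `0` if `p ≥ j` or
  `e = 0`.
CLAIM: `D i j f = E j (X i * f) + E i (X j * f)` for all `i, j, f`.
By linearity `f = monomial e 1`, and by symmetry of both sides in `(i, j)` (`hDs`) we may assume
`i ≤ j`; for `i = j` both sides are `0` (`hD0`, characteristic two).  Let `i < j`.
 * All elements of `supp e` are `≥ i` (or `e = 0`).  Then `min supp (e + δᵢ) = i < j`, so
   `E j (X i * f) = D i j f`.  And `min supp (e + δⱼ) ≥ i`, so `E i (X j * f) = 0`.
 * Otherwise let `p = min supp e < i < j`.  Then `min supp (e + δᵢ) = min supp (e + δⱼ) = p`, so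
   with `g = monomial (e - δₚ) 1`, `f = X p * g`:
   `E j (X i * f) = D p j (X i * g)`, `E i (X j * f) = D p i (X j * g)`, and
   `D p j (X i * g) + D p i (X j * g) = D i j (X p * g) = D i j f` by `hD` (for the triple
   `(p, i, j)`; rearranged with `hDs`; characteristic two).
Then `∑_{i<j} D i j (T i j) = ∑_{i<j} (E j (X i * T i j) + E i (X j * T i j))
   = ∑_{i<j} E j (X i * T i j) + ∑_{j<i} E j (X i * T j i)` (rename in the second sum)
   `= ∑_{i ≠ j} E j (X i * T i j) = ∑ⱼ E j (∑ᵢ X i * T i j)` (`hTs`, `hT0`)
   `= ∑ⱼ E j (∑ᵢ X i * T j i) = 0`.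
-/

set_option autoImplicit false

namespace H39.KZ

open MvPolynomial

theorem koszul_pairing {ι : Type*} [Fintype ι] [LinearOrder ι]
    (T : ι → ι → MvPolynomial ι (ZMod 2))
    (hTs : ∀ i j, T i j = T j i) (hT0 : ∀ i, T i i = 0) (hT : ∀ i, ∑ j, X j * T i j = 0)
    (D : ι → ι → MvPolynomial ι (ZMod 2) →ₗ[ZMod 2] ZMod 2)
    (hDs : ∀ i j, D i j = D j i) (hD0 : ∀ i, D i i = 0)
    (hD : ∀ i j k f, D i j (X k * f) + D i k (X j * f) + D j k (X i * f) = 0) :
    ∑ i, ∑ j, (if i < j then D i j (T i j) else 0) = 0 := by
  classical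
  have h2 : ∀ z : ZMod 2, z + z = 0 := fun z => CharTwo.add_self_eq_zero z
  obtain ⟨V, hVdef⟩ : ∃ V : ι → (ι →₀ ℕ) → ZMod 2, V = fun j e =>
    if h : e.support.Nonempty then
      (if e.support.min' h < j then
        D (e.support.min' h) j (monomial (e - Finsupp.single (e.support.min' h) 1) 1) else 0)
    else 0 := ⟨_, rfl⟩
  have hV : ∀ (j p : ι) (e : ι →₀ ℕ), e p ≠ 0 → (∀ q, e q ≠ 0 → p ≤ q) →
      V j e = if p < j then D p j (monomial (e - Finsupp.single p 1) 1) else 0 := by
    intro j p e hp hq
    have hne : e.support.Nonempty := ⟨p, Finsupp.mem_support_iff.mpr hp⟩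
    have hmin : e.support.min' hne = p := by
      apply le_antisymm
      · exact Finset.min'_le _ _ (Finsupp.mem_support_iff.mpr hp)
      · exact hq _ (Finsupp.mem_support_iff.mp (Finset.min'_mem _ _))
    rw [hVdef]
    simp only [dif_pos hne, hmin]
  obtain ⟨E, hE⟩ : ∃ E : ι → MvPolynomial ι (ZMod 2) →ₗ[ZMod 2] ZMod 2,
      ∀ j e, E j (monomial e 1) = V j e := by
    refine ⟨fun j => (basisMonomials ι (ZMod 2)).constr (ZMod 2) (V j), fun j e => ?_⟩
    have h := (basisMonomials ι (ZMod 2)).constr_basis (ZMod 2) (V j) e
    rwa [coe_basisMonomials] at h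
  have hXm : ∀ (i : ι) (e : ι →₀ ℕ), (X i : MvPolynomial ι (ZMod 2)) * monomial e 1
      = monomial (e + Finsupp.single i 1) 1 := by
    intro i e
    rw [add_comm e, X, monomial_mul, one_mul]
  have key0 : ∀ (i j : ι), i < j → ∀ e : ι →₀ ℕ,
      D i j (monomial e 1) = E j (X i * monomial e 1) + E i (X j * monomial e 1) := by
    intro i j hij e
    rw [hXm, hXm, hE, hE]
    by_cases hall : ∀ q, e q ≠ 0 → i ≤ q
    · have h1 : V j (e + Finsupp.single i 1) = D i j (monomial e 1) := by
        rw [hV j i (e + Finsupp.single i 1) (by simp) ?_, if_pos hij, add_tsub_cancel_right]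
        intro q hq
        by_cases hqi : q = i
        · exact hqi.ge
        · apply hall
          intro h0
          apply hq
          rw [Finsupp.add_apply, h0, Finsupp.single_apply, if_neg (Ne.symm hqi), add_zero]
      have h2' : V i (e + Finsupp.single j 1) = 0 := by
        have hne : (e + Finsupp.single j 1).support.Nonempty :=
          ⟨j, Finsupp.mem_support_iff.mpr (by simp)⟩
        obtain ⟨p, hp⟩ : ∃ p, p = (e + Finsupp.single j 1).support.min' hne := ⟨_, rfl⟩
        have hpm : (e + Finsupp.single j 1 : ι →₀ ℕ) p ≠ 0 := by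
          rw [hp]
          exact Finsupp.mem_support_iff.mp (Finset.min'_mem _ _)
        have hip : i ≤ p := by
          by_cases hpj : p = j
          · rw [hpj]
            exact hij.le
          · apply hall
            intro h0
            apply hpm
            rw [Finsupp.add_apply, h0, Finsupp.single_apply, if_neg (Ne.symm hpj), add_zero]
        rw [hV i p _ hpm ?_, if_neg (not_lt.mpr hip)]
        intro q hq
        rw [hp]
        exact Finset.min'_le _ _ (Finsupp.mem_support_iff.mpr hq)
      rw [h1, h2', add_zero]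
    · push Not at hall
      obtain ⟨q0, hq0, hq0i⟩ := hall
      have hne : e.support.Nonempty := ⟨q0, Finsupp.mem_support_iff.mpr hq0⟩
      obtain ⟨p, hp⟩ : ∃ p, p = e.support.min' hne := ⟨_, rfl⟩
      have hpm : e p ≠ 0 := by
        rw [hp]
        exact Finsupp.mem_support_iff.mp (Finset.min'_mem _ _)
      have hpmin : ∀ q, e q ≠ 0 → p ≤ q := by
        intro q hq
        rw [hp]
        exact Finset.min'_le _ _ (Finsupp.mem_support_iff.mpr hq)
      have hpi : p < i := lt_of_le_of_lt (hpmin q0 hq0) hq0i
      have hpj : p < j := hpi.trans hij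
      have hgen : ∀ (a b : ι), p < a → p < b → V b (e + Finsupp.single a 1)
          = D p b (X a * monomial (e - Finsupp.single p 1) 1) := by
        intro a b ha hb
        rw [hV b p (e + Finsupp.single a 1) ?_ ?_, if_pos hb, hXm]
        · congr 3
          ext q
          simp only [Finsupp.add_apply, Finsupp.tsub_apply]
          by_cases hqp : q = p
          · subst hqp
            have h1 : (Finsupp.single a 1 : ι →₀ ℕ) q = 0 := by
              rw [Finsupp.single_apply, if_neg ha.ne']
            rw [h1]
            simp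
          · have h1 : (Finsupp.single p 1 : ι →₀ ℕ) q = 0 := by
              rw [Finsupp.single_apply, if_neg (Ne.symm hqp)]
            rw [h1]
            simp
        · rw [Finsupp.add_apply]
          omega
        · intro q hq
          by_cases hqa : q = a
          · rw [hqa]
            exact ha.le
          · apply hpmin
            intro h0
            apply hq
            rw [Finsupp.add_apply, h0, Finsupp.single_apply, if_neg (Ne.symm hqa), add_zero]
      rw [hgen i j hpi hpj, hgen j i hpj hpi]
      have hf : monomial e (1 : ZMod 2) = X p * monomial (e - Finsupp.single p 1) 1 := by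
        rw [hXm]
        congr 2
        ext q
        simp only [Finsupp.add_apply, Finsupp.tsub_apply]
        by_cases hqp : q = p
        · subst hqp
          rw [Finsupp.single_eq_same]
          omega
        · have h1 : (Finsupp.single p 1 : ι →₀ ℕ) q = 0 := by
            rw [Finsupp.single_apply, if_neg (Ne.symm hqp)]
          rw [h1]
          simp
      have h3 := hD p i j (monomial (e - Finsupp.single p 1) 1)
      rw [← hf] at h3
      have h4 := h2 (D i j (monomial e 1))
      linear_combination h4 - h3
  have key : ∀ (i j : ι), i < j → ∀ f : MvPolynomial ι (ZMod 2),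
      D i j f = E j (X i * f) + E i (X j * f) := by
    intro i j hij f
    induction f using MvPolynomial.induction_on' with
    | monomial u a =>
      have h1 : (monomial u a : MvPolynomial ι (ZMod 2)) = a • monomial u 1 := by
        rw [smul_monomial, smul_eq_mul, mul_one]
      rw [h1, mul_smul_comm, mul_smul_comm, map_smul, map_smul, map_smul, key0 i j hij u,
        smul_add]
    | add p q hp hq =>
      rw [mul_add, mul_add, map_add, map_add, map_add, hp, hq]
      ring
  have h1 : ∑ i, ∑ j, (if i < j then D i j (T i j) else 0)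
      = ∑ i, ∑ j, (if i < j then E j (X i * T i j) else 0)
        + ∑ i, ∑ j, (if i < j then E i (X j * T i j) else 0) := by
    rw [← Finset.sum_add_distrib]
    refine Finset.sum_congr rfl fun i _ => ?_
    rw [← Finset.sum_add_distrib]
    refine Finset.sum_congr rfl fun j _ => ?_
    by_cases hij : i < j
    · rw [if_pos hij, if_pos hij, if_pos hij, key i j hij]
    · rw [if_neg hij, if_neg hij, if_neg hij, add_zero]
  have h3 : ∑ i, ∑ j, (if i < j then E j (X i * T i j) else 0)
      = ∑ i, ∑ j, (if j < i then E i (X j * T i j) else 0) := by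
    rw [Finset.sum_comm]
    refine Finset.sum_congr rfl fun i _ => Finset.sum_congr rfl fun j _ => ?_
    rw [hTs j i]
  rw [h1, h3, ← Finset.sum_add_distrib]
  refine Finset.sum_eq_zero fun i _ => ?_
  have h5 := congrArg (E i) (hT i)
  rw [map_sum, map_zero] at h5
  rw [← Finset.sum_add_distrib]
  refine Eq.trans (Finset.sum_congr rfl fun j _ => ?_) h5
  rcases lt_trichotomy i j with h | h | h
  · rw [if_pos h, if_neg (not_lt.mpr h.le), zero_add]
  · subst h
    rw [if_neg (lt_irrefl _), hT0, mul_zero, map_zero, add_zero]
  · rw [if_pos h, if_neg (not_lt.mpr h.le), add_zero]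

end H39.KZ
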