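import Mathlib

/-!
# Job KZ-A6: a symmetric family of four indices is a linear map on polynomials

PROOF.  Let `f : List ι → N`, `f [i, j, k, l] = M i j k l` and `f L = 0` if `L.length ≠ 4`
(by pattern matching).  CLAIM: `L ~ L'` (`List.Perm`) implies `f L = f L'`.  We prove
`∀ pre, f (pre ++ L) = f (pre ++ L')` by induction on the permutation: `nil` and `trans` are
trivial, `cons a`: `pre ++ a :: L = (pre ++ [a]) ++ L`; `swap`: `f (pre ++ y :: x :: L) =
f (pre ++ x :: y :: L)`: case distinction on `pre` (length `0, 1, 2` or `≥ 3`) and `L`; in all cases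
with total length `4` this is `h1`, `h2` or `h3`, otherwise both sides are `0`.
Hence `f` descends to `g : Multiset ι → N` (`Quot.lift`/`Quotient.lift`), and we let
`𝓜 = (MvPolynomial.basisMonomials ι (ZMod 2)).constr (ZMod 2) (fun e => g (Finsupp.toMultiset e))`.
Then `𝓜 (monomial e 1) = g (toMultiset e)`; `X i * X j * X k * X l = monomial (δᵢ + δⱼ + δₖ + δₗ) 1`
and `toMultiset` of this exponent is `{i, j, k, l} = ↑[i, j, k, l]`; and if `e.degree ≠ 4` then the
multiset has card `≠ 4` (`Finsupp.card_toMultiset`, `Finsupp.degree_apply`...), so that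
`g = 0` (induct on the quotient).  All values of `g` are in `{M i j k l} ∪ {0}`, which gives the last
claim (write `f` as a combination of monomials, or `Basis.constr_range`).
-/

set_option autoImplicit false

namespace H39.KZ

open MvPolynomial

section A6aux

variable {ι : Type*} {N : Type*} [AddCommGroup N]

/-- The function on lists. -/
def A6_f (M : ι → ι → ι → ι → N) : List ι → N
  | [i, j, k, l] => M i j k l
  | _ => 0

theorem A6_f_len (M : ι → ι → ι → ι → N) (L : List ι) (h : L.length ≠ 4) : A6_f M L = 0 := by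
  rcases L with _ | ⟨a, _ | ⟨b, _ | ⟨c, _ | ⟨d, _ | ⟨e, L⟩⟩⟩⟩⟩ <;> first | rfl | simp at h

theorem A6_swap (M : ι → ι → ι → ι → N) (h1 : ∀ i j k l, M i j k l = M j i k l)
    (h2 : ∀ i j k l, M i j k l = M i k j l) (h3 : ∀ i j k l, M i j k l = M i j l k)
    (pre : List ι) (x y : ι) (L : List ι) :
    A6_f M (pre ++ y :: x :: L) = A6_f M (pre ++ x :: y :: L) := by
  by_cases hl : (pre ++ y :: x :: L).length = 4
  · rcases pre with _ | ⟨a, _ | ⟨b, _ | ⟨c, pre⟩⟩⟩
    · rcases L with _ | ⟨c, _ | ⟨d, _ | ⟨e, L⟩⟩⟩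
      · simp at hl
      · simp at hl
      · exact h1 _ _ _ _
      · simp at hl
    · rcases L with _ | ⟨c, _ | ⟨d, L⟩⟩
      · simp at hl
      · exact h2 _ _ _ _
      · simp at hl
    · rcases L with _ | ⟨c, L⟩
      · exact h3 _ _ _ _
      · simp at hl
    · simp at hl
      omega
  · rw [A6_f_len M _ hl, A6_f_len M]
    simpa using hl

theorem A6_perm (M : ι → ι → ι → ι → N) (h1 : ∀ i j k l, M i j k l = M j i k l)
    (h2 : ∀ i j k l, M i j k l = M i k j l) (h3 : ∀ i j k l, M i j k l = M i j l k)
    {L L' : List ι} (h : L.Perm L') : ∀ pre, A6_f M (pre ++ L) = A6_f M (pre ++ L') := by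
  induction h with
  | nil => intro pre; rfl
  | cons a _ ih =>
    intro pre
    have := ih (pre ++ [a])
    simpa using this
  | swap x y L => intro pre; exact A6_swap M h1 h2 h3 pre x y L
  | trans _ _ ih1 ih2 => intro pre; rw [ih1, ih2]

end A6aux

theorem exists_sym_map {ι : Type*} {N : Type*} [AddCommGroup N] [Module (ZMod 2) N]
    (M : ι → ι → ι → ι → N) (h1 : ∀ i j k l, M i j k l = M j i k l)
    (h2 : ∀ i j k l, M i j k l = M i k j l) (h3 : ∀ i j k l, M i j k l = M i j l k) :
    ∃ 𝓜 : MvPolynomial ι (ZMod 2) →ₗ[ZMod 2] N,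
      (∀ i j k l, 𝓜 (X i * X j * X k * X l) = M i j k l) ∧
        (∀ e : ι →₀ ℕ, e.degree ≠ 4 → 𝓜 (monomial e 1) = 0) ∧
        ∀ f, 𝓜 f ∈ Submodule.span (ZMod 2) {w | ∃ i j k l, w = M i j k l} := by
  classical
  set g : Multiset ι → N := fun m => Quot.liftOn m (A6_f M)
    (fun L L' h => by simpa using A6_perm M h1 h2 h3 h []) with hg
  have hgc : ∀ L : List ι, g (L : Multiset ι) = A6_f M L := fun L => rfl
  have hgs : ∀ m : Multiset ι, g m ∈ Submodule.span (ZMod 2) {w | ∃ i j k l, w = M i j k l} := by
    intro m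
    induction m using Quot.inductionOn with
    | _ L =>
      change A6_f M L ∈ _
      by_cases hl : L.length = 4
      · obtain ⟨i, j, k, l, rfl⟩ : ∃ i j k l, L = [i, j, k, l] := by
          rcases L with _ | ⟨a, _ | ⟨b, _ | ⟨c, _ | ⟨d, _ | ⟨e, L⟩⟩⟩⟩⟩ <;> simp at hl ⊢
        exact Submodule.subset_span ⟨i, j, k, l, rfl⟩
      · rw [A6_f_len M L hl]
        exact Submodule.zero_mem _
  set 𝓜 : MvPolynomial ι (ZMod 2) →ₗ[ZMod 2] N :=
    (MvPolynomial.basisMonomials ι (ZMod 2)).constr (ZMod 2) (fun e => g (Finsupp.toMultiset e))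
    with h𝓜
  have hmon : ∀ e : ι →₀ ℕ, 𝓜 (monomial e 1) = g (Finsupp.toMultiset e) := by
    intro e
    have := (MvPolynomial.basisMonomials ι (ZMod 2)).constr_basis (ZMod 2)
      (fun e => g (Finsupp.toMultiset e)) e
    rw [MvPolynomial.coe_basisMonomials] at this
    exact this
  refine ⟨𝓜, ?_, ?_, ?_⟩
  · intro i j k l
    have e : (X i * X j * X k * X l : MvPolynomial ι (ZMod 2)) =
        monomial (Finsupp.single i 1 + Finsupp.single j 1 + Finsupp.single k 1 +
          Finsupp.single l 1) 1 := by
      simp only [X, monomial_mul, mul_one]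
    rw [e, hmon]
    have : Finsupp.toMultiset (Finsupp.single i 1 + Finsupp.single j 1 + Finsupp.single k 1 +
          Finsupp.single l 1) = (([i, j, k, l] : List ι) : Multiset ι) := by
      simp only [map_add, Finsupp.toMultiset_single, one_smul]
      rfl
    rw [this, hgc]
    rfl
  · intro e he
    rw [hmon]
    have hcard : Multiset.card (Finsupp.toMultiset e) ≠ 4 := by
      rw [Finsupp.card_toMultiset]
      exact he
    revert hcard
    generalize Finsupp.toMultiset e = m
    induction m using Quot.inductionOn with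
    | _ L =>
      intro hcard
      exact A6_f_len M L hcard
  · intro f
    induction f using MvPolynomial.induction_on' with
    | monomial u a =>
      have : monomial u a = a • monomial u (1 : ZMod 2) := by
        rw [smul_monomial, smul_eq_mul, mul_one]
      rw [this, map_smul, hmon]
      exact Submodule.smul_mem _ _ (hgs _)
    | add p q hp hq =>
      rw [map_add]
      exact Submodule.add_mem _ hp hq

end H39.KZ
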