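import Pool.Agent.H39.KZ.A2

/-!
# Job KZ-A7: the functionals `lam e e'` on the exterior algebra

`lam e e' w = ε (e⌋(e'⌋w))`, where `⌋` is the contraction and `ε : Λ → F` the augmentation.
Everything follows from
`CliffordAlgebra.contractLeft_ι_mul : d⌋(ι a * b) = d a • b - ι a * d⌋b`,
`CliffordAlgebra.contractLeft_comm : d⌋(d'⌋x) = -(d'⌋(d⌋x))`,
`CliffordAlgebra.contractLeft_contractLeft : d⌋(d⌋x) = 0`, `CliffordAlgebra.contractLeft_ι`,
`ExteriorAlgebra.algebraMapInv` (an algebra homomorphism with `ε (ι v) = 0`) and characteristic 2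
(`CharTwo`, or `fin_cases`/`decide` on `ZMod 2`; `-a = a` in `ZMod 2`).

(iii) `e'⌋(ι u * ι v) = e' u • ι v - ι u * algebraMap (e' v)`, `e⌋` of this is
   `e' u * e v - e' v * e u` (a scalar), apply `ε`.
(iv) apply `ε (e₁⌋(e₂⌋(e₃⌋·)))` to `∑ₗ ι (bₗ) * mₗ = 0`:
   `e₃⌋(ι b * m) = e₃ b • m - ι b * e₃⌋m`,
   `e₂⌋…  = e₃ b • e₂⌋m - e₂ b • e₃⌋m + ι b * e₂⌋(e₃⌋m)`,
   `e₁⌋…  = e₃ b • e₁⌋(e₂⌋m) - e₂ b • e₁⌋(e₃⌋m) + e₁ b • e₂⌋(e₃⌋m) - ι b * (…)`,
   and `ε (ι b * …) = 0`.  So `∑ₗ (e₃ bₗ * lam e₁ e₂ mₗ + e₂ bₗ * lam e₁ e₃ mₗ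
   + e₁ bₗ * lam e₂ e₃ mₗ) = 0`.
`R_eq`: both sides are linear in `w`, so take `w = ι u * ι v`, `u, v ∈ S`.  With
   `u = ∑ᵢ eᵢ(u) bᵢ`, `v = ∑ⱼ eⱼ(v) bⱼ`: `R w = r u v = ∑ᵢ ∑ⱼ eᵢ(u) eⱼ(v) r(bᵢ, bⱼ)`; the diagonal
   terms vanish, `r bⱼ bᵢ = r bᵢ bⱼ` (alternating + characteristic 2), so this is
   `∑_{i<j} r(bᵢ, bⱼ) (eᵢ(u) eⱼ(v) + eⱼ(u) eᵢ(v))`, use (iii).
-/

set_option autoImplicit false

namespace H39.KZ

universe u

variable {W : Type u} [AddCommGroup W] [Module (ZMod 2) W]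

/-- `ε (e⌋(e'⌋w))`. -/
noncomputable def lam (e e' : W →ₗ[ZMod 2] ZMod 2) : ExteriorAlgebra (ZMod 2) W →ₗ[ZMod 2] ZMod 2 :=
  (ExteriorAlgebra.algebraMapInv (R := ZMod 2) (M := W)).toLinearMap ∘ₗ
    (CliffordAlgebra.contractLeft (Q := (0 : QuadraticForm (ZMod 2) W)) e) ∘ₗ
    (CliffordAlgebra.contractLeft (Q := (0 : QuadraticForm (ZMod 2) W)) e')

/-- the contraction -/
noncomputable def A7_c (e : W →ₗ[ZMod 2] ZMod 2) :
    ExteriorAlgebra (ZMod 2) W →ₗ[ZMod 2] ExteriorAlgebra (ZMod 2) W :=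
  CliffordAlgebra.contractLeft (Q := (0 : QuadraticForm (ZMod 2) W)) e

/-- the augmentation -/
noncomputable def A7_eps : ExteriorAlgebra (ZMod 2) W →ₐ[ZMod 2] ZMod 2 :=
  ExteriorAlgebra.algebraMapInv (R := ZMod 2) (M := W)

theorem A7_lam (e e' : W →ₗ[ZMod 2] ZMod 2) (w : ExteriorAlgebra (ZMod 2) W) :
    lam e e' w = A7_eps (A7_c e (A7_c e' w)) := rfl

theorem A7_c_mul (e : W →ₗ[ZMod 2] ZMod 2) (u : W) (x : ExteriorAlgebra (ZMod 2) W) :
    A7_c e (ExteriorAlgebra.ι (ZMod 2) u * x) =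
      e u • x - ExteriorAlgebra.ι (ZMod 2) u * A7_c e x :=
  CliffordAlgebra.contractLeft_ι_mul (Q := (0 : QuadraticForm (ZMod 2) W)) e u x

theorem A7_c_ι (e : W →ₗ[ZMod 2] ZMod 2) (u : W) :
    A7_c e (ExteriorAlgebra.ι (ZMod 2) u) = algebraMap (ZMod 2) _ (e u) :=
  CliffordAlgebra.contractLeft_ι (0 : QuadraticForm (ZMod 2) W) e u

theorem A7_c_self (e : W →ₗ[ZMod 2] ZMod 2) (x : ExteriorAlgebra (ZMod 2) W) :
    A7_c e (A7_c e x) = 0 :=
  CliffordAlgebra.contractLeft_contractLeft (Q := (0 : QuadraticForm (ZMod 2) W)) e x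

theorem A7_c_comm (e e' : W →ₗ[ZMod 2] ZMod 2) (x : ExteriorAlgebra (ZMod 2) W) :
    A7_c e (A7_c e' x) = -(A7_c e' (A7_c e x)) :=
  CliffordAlgebra.contractLeft_comm (Q := (0 : QuadraticForm (ZMod 2) W)) e e' x

theorem A7_eps_ι (u : W) : A7_eps (ExteriorAlgebra.ι (ZMod 2) u) = 0 := by
  rw [A7_eps, ExteriorAlgebra.algebraMapInv, ExteriorAlgebra.lift_ι_apply]
  rfl

theorem A7_eps_ι_mul (u : W) (x : ExteriorAlgebra (ZMod 2) W) :
    A7_eps (ExteriorAlgebra.ι (ZMod 2) u * x) = 0 := by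
  rw [map_mul, A7_eps_ι, zero_mul]

theorem A7_eps_alg (r : ZMod 2) :
    A7_eps (algebraMap (ZMod 2) (ExteriorAlgebra (ZMod 2) W) r) = r := by
  rw [AlgHom.commutes]
  rfl

theorem lam_comm (e e' : W →ₗ[ZMod 2] ZMod 2) : lam e e' = lam e' e := by
  refine LinearMap.ext fun w => ?_
  rw [A7_lam, A7_lam, A7_c_comm, map_neg, CharTwo.neg_eq]

theorem lam_self (e : W →ₗ[ZMod 2] ZMod 2) : lam e e = 0 := by
  refine LinearMap.ext fun w => ?_
  rw [A7_lam, A7_c_self, map_zero]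
  rfl

theorem lam_ι_mul_ι (e e' : W →ₗ[ZMod 2] ZMod 2) (u v : W) :
    lam e e' (ExteriorAlgebra.ι (ZMod 2) u * ExteriorAlgebra.ι (ZMod 2) v)
      = e u * e' v + e v * e' u := by
  rw [A7_lam, A7_c_mul, A7_c_ι, map_sub, map_smul, A7_c_ι, A7_c_mul, map_sub, map_smul, map_sub,
    map_smul, A7_eps_alg, A7_eps_alg, A7_eps_ι_mul, sub_zero, CharTwo.sub_eq_add, smul_eq_mul,
    smul_eq_mul]
  ring

theorem lam_triple {ι : Type*} [Fintype ι] (b : ι → W) (m : ι → ExteriorAlgebra (ZMod 2) W)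
    (hm : ∑ l, ExteriorAlgebra.ι (ZMod 2) (b l) * m l = 0) (e₁ e₂ e₃ : W →ₗ[ZMod 2] ZMod 2) :
    ∑ l, (e₃ (b l) * lam e₁ e₂ (m l) + e₂ (b l) * lam e₁ e₃ (m l) + e₁ (b l) * lam e₂ e₃ (m l))
      = 0 := by
  have key : ∀ (u : W) (x : ExteriorAlgebra (ZMod 2) W),
      A7_eps (A7_c e₁ (A7_c e₂ (A7_c e₃ (ExteriorAlgebra.ι (ZMod 2) u * x)))) =
        e₃ u * lam e₁ e₂ x + e₂ u * lam e₁ e₃ x + e₁ u * lam e₂ e₃ x := by
    intro u x
    simp only [A7_c_mul, map_sub, map_smul, A7_eps_ι_mul, A7_lam, smul_eq_mul,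
      CharTwo.sub_eq_add, add_zero]
    ring
  have h := congrArg (fun z => A7_eps (A7_c e₁ (A7_c e₂ (A7_c e₃ z)))) hm
  simp only [map_sum, map_zero, key] at h
  exact h

theorem R_eq {K : Type u} [Field K] {ι : Type*} [Fintype ι] [LinearOrder ι]
    (bas : ι → V 2 K) (e : ι → V 2 K →ₗ[ZMod 2] ZMod 2) (S : Set (V 2 K))
    (hS : ∀ s ∈ S, s = ∑ i, e i s • bas i)
    (r : V 2 K →ₗ[ZMod 2] V 2 K →ₗ[ZMod 2] ZMod 2) (hr : ∀ v, r v v = 0)
    (R : ExteriorAlgebra (ZMod 2) (V 2 K) →ₗ[ZMod 2] ZMod 2)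
    (hR : ∀ u v, R (ExteriorAlgebra.ι (ZMod 2) u * ExteriorAlgebra.ι (ZMod 2) v) = r u v)
    (w : ExteriorAlgebra (ZMod 2) (V 2 K)) (hw : w ∈ span2 S) :
    R w = ∑ i, ∑ j, (if i < j then r (bas i) (bas j) * lam (e i) (e j) w else 0) := by
  classical
  have hsym : ∀ u v, r u v = r v u := by
    intro u v
    have h := hr (u + v)
    simp only [map_add, LinearMap.add_apply, hr, zero_add, add_zero] at h
    have h2 : r u v = -(r v u) := eq_neg_of_add_eq_zero_right h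
    rw [h2, CharTwo.neg_eq]
  have hgen : ∀ u ∈ S, ∀ v ∈ S,
      r u v = ∑ i, ∑ j, (if i < j then r (bas i) (bas j) * lam (e i) (e j)
        (ExteriorAlgebra.ι (ZMod 2) u * ExteriorAlgebra.ι (ZMod 2) v) else 0) := by
    intro u hu v hv
    have h1 : r u v = ∑ i, ∑ j, e i u * (e j v * r (bas i) (bas j)) := by
      conv_lhs => rw [hS u hu, hS v hv]
      rw [map_sum r, LinearMap.sum_apply]
      refine Finset.sum_congr rfl fun i _ => ?_
      rw [map_smul r, LinearMap.smul_apply, map_sum, smul_eq_mul, Finset.mul_sum]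
      refine Finset.sum_congr rfl fun j _ => ?_
      rw [map_smul, smul_eq_mul]
    rw [h1]
    have h2 : ∀ i j, e i u * (e j v * r (bas i) (bas j)) =
        (if i < j then e i u * (e j v * r (bas i) (bas j)) else 0) +
        (if j < i then e i u * (e j v * r (bas i) (bas j)) else 0) := by
      intro i j
      rcases lt_trichotomy i j with h | h | h
      · rw [if_pos h, if_neg h.asymm, add_zero]
      · subst h
        rw [hr, if_neg (lt_irrefl _), mul_zero, mul_zero, add_zero]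
      · rw [if_neg h.asymm, if_pos h, zero_add]
    rw [Finset.sum_congr rfl fun i _ => Finset.sum_congr rfl fun j _ => h2 i j]
    simp only [Finset.sum_add_distrib]
    rw [Finset.sum_comm (f := fun i j => if j < i then e i u * (e j v * r (bas i) (bas j)) else 0),
      ← Finset.sum_add_distrib]
    refine Finset.sum_congr rfl fun i _ => ?_
    rw [← Finset.sum_add_distrib]
    refine Finset.sum_congr rfl fun j _ => ?_
    by_cases h : i < j
    · rw [if_pos h, if_pos h, if_pos h, lam_ι_mul_ι, hsym (bas j) (bas i)]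
      ring
    · rw [if_neg h, if_neg h, if_neg h, add_zero]
  induction hw using Submodule.span_induction with
  | mem x hx =>
    obtain ⟨u, hu, v, hv, rfl⟩ := hx
    rw [hR]
    exact hgen u hu v hv
  | zero => simp
  | add x y _ _ hx hy =>
    rw [map_add, hx, hy, ← Finset.sum_add_distrib]
    refine Finset.sum_congr rfl fun i _ => ?_
    rw [← Finset.sum_add_distrib]
    refine Finset.sum_congr rfl fun j _ => ?_
    by_cases h : i < j
    · rw [if_pos h, if_pos h, if_pos h, map_add, mul_add]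
    · rw [if_neg h, if_neg h, if_neg h, add_zero]
  | smul c x _ hx =>
    rw [map_smul, hx, smul_eq_mul, Finset.mul_sum]
    refine Finset.sum_congr rfl fun i _ => ?_
    rw [Finset.mul_sum]
    refine Finset.sum_congr rfl fun j _ => ?_
    by_cases h : i < j
    · rw [if_pos h, if_pos h, map_smul, smul_eq_mul]
      ring
    · rw [if_neg h, if_neg h, mul_zero]

end H39.KZ
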