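import Mathlib

/-!
# Job KZ-A8: the relation satisfied by the symmetric family

Let `b : ι → W`, `e : ι → W*` be dual (`eᵢ(bᵢ) = 1`, `eᵢ(bⱼ) = 0`), `ix ≠ iy`, `α ∈ Λ`, and let
`𝓜 : MvPolynomial ι F → Λ` be linear with `𝓜 (X i X j X k X l) = M i j k l` (symmetric) and `𝓜 = 0`
on the monomials of degree `≠ 4`.  Suppose for all `i, j, k`
`∑ₗ ι(bₗ) * M i j k l = (eᵢ x * eⱼ x * eₖ x) • (ι y * α)
    + (eᵢ x * eⱼ x * eₖ y + eᵢ x * eⱼ y * eₖ x + eᵢ y * eⱼ x * eₖ x) • (ι x * α)`,
with `x = b ix`, `y = b iy`.  Then for all `f`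
`∑ₗ ι(bₗ) * 𝓜 (X l * f) = ∑ₗ ι(bₗ) * (coeff E (X l * f) • α)`, `E = 3 δ_ix + δ_iy`.

PROOF.  By linearity in `f` take `f = monomial e 1` (`MvPolynomial.induction_on'` or
`Finsupp`-induction; the scalars are in `ZMod 2`).  If `e.degree ≠ 3`, then
`X l * f = monomial (e + δₗ) 1` has degree `≠ 4`, so that both sides vanish (`E` has degree `4`).
If `e.degree = 3` then `f = X i * X j * X k` for some `i, j, k` (e.g. take a list representing
`Finsupp.toMultiset e`, of length `3`).  Then `X l * f = X i * X j * X k * X l` up to order, the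
left hand side is `∑ₗ ι(bₗ) * M i j k l`, given by the hypothesis.
With `δ` = Kronecker: `eᵢ x = δ(i, ix)`, `eᵢ y = δ(i, iy)`.  Right hand side:
`coeff E (X l * X i * X j * X k) = 1` if the multiset `{l, i, j, k}` equals `{ix, ix, ix, iy}` and
`0` otherwise.
 * if `i = j = k = ix`: only `l = iy` contributes: `ι(y) * α`; the left side is `ι y * α + 0`
   (`δ(ix, iy) = 0`).
 * if two of `i, j, k` are `ix` and the third is `iy`: only `l = ix` contributes: `ι(x) * α`; the
   left side is `ι x * α` (exactly one of the three products is `1`).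
 * otherwise both sides are `0`.
-/

set_option autoImplicit false

namespace H39.KZ

open MvPolynomial

theorem a8_split {ι : Type*} (u : ι →₀ ℕ) (n : ℕ) (h : u.degree = n + 1) :
    ∃ i v, u = Finsupp.single i 1 + v ∧ v.degree = n := by
  classical
  have hu : u ≠ 0 := by
    rintro rfl
    simp at h
  obtain ⟨i, hi⟩ := Finsupp.ne_iff.mp hu
  have hi' : Finsupp.single i 1 ≤ u := by
    rw [Finsupp.single_le_iff]
    exact Nat.one_le_iff_ne_zero.mpr hi
  refine ⟨i, u - Finsupp.single i 1, (add_tsub_cancel_of_le hi').symm, ?_⟩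
  have h2 : (Finsupp.single i 1 + (u - Finsupp.single i 1)).degree = n + 1 := by
    rw [add_tsub_cancel_of_le hi', h]
  rw [map_add, Finsupp.degree_single] at h2
  omega

theorem a8_three {ι : Type*} (u : ι →₀ ℕ) (h : u.degree = 3) :
    ∃ i j k, u = Finsupp.single i 1 + Finsupp.single j 1 + Finsupp.single k 1 := by
  obtain ⟨i, v, rfl, hv⟩ := a8_split u 2 h
  obtain ⟨j, w, rfl, hw⟩ := a8_split v 1 hv
  obtain ⟨k, t, rfl, ht⟩ := a8_split w 0 hw
  have ht' : t = 0 := by
    rwa [Finsupp.degree_eq_zero_iff] at ht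
  subst ht'
  exact ⟨i, j, k, by simp [add_assoc]⟩

theorem a8_cond {ι : Type*} [DecidableEq ι] (ix iy : ι) (hne : ix ≠ iy) (i j k l : ι) :
    (Finsupp.single l 1 + (Finsupp.single i 1 + Finsupp.single j 1 + Finsupp.single k 1)
      = (Finsupp.single ix 3 + Finsupp.single iy 1 : ι →₀ ℕ)) ↔
    ((i = ix ∧ j = ix ∧ k = ix) ∧ l = iy) ∨
      (((i = ix ∧ j = ix ∧ k = iy) ∨ (i = ix ∧ j = iy ∧ k = ix) ∨ (i = iy ∧ j = ix ∧ k = ix)) ∧
        l = ix) := by
  constructor
  · intro h
    have hx := DFunLike.congr_fun h ix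
    have hy := DFunLike.congr_fun h iy
    have hi := DFunLike.congr_fun h i
    have hj := DFunLike.congr_fun h j
    have hk := DFunLike.congr_fun h k
    have hl := DFunLike.congr_fun h l
    simp only [Finsupp.add_apply, Finsupp.single_apply] at hx hy hi hj hk hl
    have e1 : i = ix ∨ i = iy := by
      by_contra hc
      rw [not_or] at hc
      have q1 : ¬ ix = i := fun q => hc.1 q.symm
      have q2 : ¬ iy = i := fun q => hc.2 q.symm
      simp only [q1, q2, if_true, if_false] at hi
      omega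
    have e2 : j = ix ∨ j = iy := by
      by_contra hc
      rw [not_or] at hc
      have q1 : ¬ ix = j := fun q => hc.1 q.symm
      have q2 : ¬ iy = j := fun q => hc.2 q.symm
      simp only [q1, q2, if_true, if_false] at hj
      omega
    have e3 : k = ix ∨ k = iy := by
      by_contra hc
      rw [not_or] at hc
      have q1 : ¬ ix = k := fun q => hc.1 q.symm
      have q2 : ¬ iy = k := fun q => hc.2 q.symm
      simp only [q1, q2, if_true, if_false] at hk
      omega
    have e4 : l = ix ∨ l = iy := by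
      by_contra hc
      rw [not_or] at hc
      have q1 : ¬ ix = l := fun q => hc.1 q.symm
      have q2 : ¬ iy = l := fun q => hc.2 q.symm
      simp only [q1, q2, if_true, if_false] at hl
      omega
    have hne' := hne.symm
    rcases e1 with rfl | rfl <;> rcases e2 with rfl | rfl <;> rcases e3 with rfl | rfl <;>
      rcases e4 with rfl | rfl <;> simp_all
  · have h3 : (Finsupp.single ix 3 : ι →₀ ℕ)
        = Finsupp.single ix 1 + Finsupp.single ix 1 + Finsupp.single ix 1 := by
      rw [← Finsupp.single_add, ← Finsupp.single_add]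
    rw [h3]
    rintro (⟨⟨rfl, rfl, rfl⟩, rfl⟩ | ⟨⟨rfl, rfl, rfl⟩ | ⟨rfl, rfl, rfl⟩ | ⟨rfl, rfl, rfl⟩, rfl⟩)
    · abel
    · abel
    · abel
    · abel

theorem sym_map_rel {ι : Type*} [Fintype ι] {W : Type*} [AddCommGroup W] [Module (ZMod 2) W]
    (b : ι → W) (e : ι → W →ₗ[ZMod 2] ZMod 2) (h1 : ∀ i, e i (b i) = 1)
    (h0 : ∀ i j, i ≠ j → e i (b j) = 0) (ix iy : ι) (hne : ix ≠ iy)
    (α : ExteriorAlgebra (ZMod 2) W) (M : ι → ι → ι → ι → ExteriorAlgebra (ZMod 2) W)
    (𝓜 : MvPolynomial ι (ZMod 2) →ₗ[ZMod 2] ExteriorAlgebra (ZMod 2) W)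
    (hM : ∀ i j k l, 𝓜 (X i * X j * X k * X l) = M i j k l)
    (hM0 : ∀ d : ι →₀ ℕ, d.degree ≠ 4 → 𝓜 (monomial d 1) = 0)
    (hrel : ∀ i j k, ∑ l, ExteriorAlgebra.ι (ZMod 2) (b l) * M i j k l
      = (e i (b ix) * e j (b ix) * e k (b ix)) • (ExteriorAlgebra.ι (ZMod 2) (b iy) * α)
        + (e i (b ix) * e j (b ix) * e k (b iy) + e i (b ix) * e j (b iy) * e k (b ix)
            + e i (b iy) * e j (b ix) * e k (b ix)) •
          (ExteriorAlgebra.ι (ZMod 2) (b ix) * α))
    (f : MvPolynomial ι (ZMod 2)) :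
    ∑ l, ExteriorAlgebra.ι (ZMod 2) (b l) * 𝓜 (X l * f)
      = ∑ l, ExteriorAlgebra.ι (ZMod 2) (b l) *
          (coeff (Finsupp.single ix 3 + Finsupp.single iy 1) (X l * f) • α) := by
  classical
  have hex : ∀ i, e i (b ix) = if i = ix then 1 else 0 := fun i => by
    split_ifs with h
    · rw [h, h1]
    · exact h0 i ix h
  have hey : ∀ i, e i (b iy) = if i = iy then 1 else 0 := fun i => by
    split_ifs with h
    · rw [h, h1]
    · exact h0 i iy h
  induction f using MvPolynomial.induction_on' with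
  | add p q hp hq =>
    simp only [mul_add, map_add, coeff_add, add_smul, Finset.sum_add_distrib]
    rw [hp, hq]
  | monomial u a =>
    have key : ∑ l, ExteriorAlgebra.ι (ZMod 2) (b l) * 𝓜 (X l * monomial u (1 : ZMod 2))
      = ∑ l, ExteriorAlgebra.ι (ZMod 2) (b l) *
          (coeff (Finsupp.single ix 3 + Finsupp.single iy 1) (X l * monomial u (1 : ZMod 2)) • α) := by
      have hXm : ∀ l, X l * monomial u (1 : ZMod 2) = monomial (Finsupp.single l 1 + u) 1 := by
        intro l
        rw [X, monomial_mul, one_mul]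
      by_cases hu : u.degree = 3
      · obtain ⟨i, j, k, rfl⟩ := a8_three u hu
        have hL : ∀ l, 𝓜 (X l * monomial (Finsupp.single i 1 + Finsupp.single j 1
            + Finsupp.single k 1) (1 : ZMod 2)) = M i j k l := by
          intro l
          rw [← hM]
          congr 1
          have : monomial (Finsupp.single i 1 + Finsupp.single j 1 + Finsupp.single k 1)
              (1 : ZMod 2) = X i * X j * X k := by
            simp only [X, monomial_mul, one_mul]
          rw [this]
          ring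
        simp only [hL]
        simp only [hXm, coeff_monomial]
        rw [hrel]
        simp only [hex, hey, a8_cond ix iy hne]
        have hne' := hne.symm
        by_cases a1 : i = ix <;> by_cases a2 : j = ix <;> by_cases a3 : k = ix <;>
          by_cases c1 : i = iy <;> by_cases c2 : j = iy <;> by_cases c3 : k = iy <;>
          simp_all [ite_smul, mul_ite, Finset.sum_ite_eq']
      · refine Finset.sum_congr rfl fun l _ => ?_
        have hdeg : (Finsupp.single l 1 + u).degree ≠ 4 := by
          rw [map_add, Finsupp.degree_single]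
          omega
        rw [hXm, hM0 _ hdeg, coeff_monomial, if_neg, zero_smul]
        intro h
        apply hdeg
        rw [h, map_add, Finsupp.degree_single, Finsupp.degree_single]
    have hm : monomial u a = a • monomial u (1 : ZMod 2) := by
      rw [smul_monomial, smul_eq_mul, mul_one]
    rw [hm]
    have hl : ∀ l, ExteriorAlgebra.ι (ZMod 2) (b l) * 𝓜 (X l * a • monomial u (1 : ZMod 2))
        = a • (ExteriorAlgebra.ι (ZMod 2) (b l) * 𝓜 (X l * monomial u (1 : ZMod 2))) := by
      intro l
      rw [mul_smul_comm, map_smul, mul_smul_comm]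
    have hr : ∀ l, ExteriorAlgebra.ι (ZMod 2) (b l) *
        (coeff (Finsupp.single ix 3 + Finsupp.single iy 1)
          (X l * a • monomial u (1 : ZMod 2)) • α)
        = a • (ExteriorAlgebra.ι (ZMod 2) (b l) *
          (coeff (Finsupp.single ix 3 + Finsupp.single iy 1)
            (X l * monomial u (1 : ZMod 2)) • α)) := by
      intro l
      rw [mul_smul_comm a (X l), coeff_smul, smul_assoc, mul_smul_comm a]
    simp only [hl, hr]
    rw [← Finset.smul_sum, ← Finset.smul_sum, key]

end H39.KZ
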