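import Pool.Agent.H39.KZ.Cert
import Pool.Agent.H39.KZ.A1
import Pool.Agent.H39.KZ.A4
import Pool.Agent.H39.KZ.A5
import Pool.Agent.H39.KZ.A6
import Pool.Agent.H39.KZ.A7
import Pool.Agent.H39.KZ.A8

/-!
# KZ-A9: certificates imply the non-vanishing of `H_{3,4}(Λ(V), J(2))`
-/

set_option autoImplicit false

open scoped TensorProduct

namespace H39.KZ

open MvPolynomial

universe u

/-- `[-a] = [a]` if `-1` is a square. -/
theorem cl_neg {K : Type u} [Field K] (h : Good 2 K) (a : Kˣ) : cl 2 (-a) = cl 2 a := by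
  obtain ⟨i, hi⟩ := h.2 rfl
  have hi0 : i ≠ 0 := by
    rintro rfl
    simp at hi
  have : -a = a * (Units.mk0 i hi0) ^ 2 := by
    apply Units.ext
    simp [hi]
  rw [this]
  unfold cl
  rw [ofMul_mul, map_add, ofMul_pow, map_nsmul]
  have h2 : ∀ w : V 2 K, 2 • w = 0 := fun w => by
    rw [← Nat.cast_smul_eq_nsmul (ZMod 2)]
    have : ((2 : ℕ) : ZMod 2) = 0 := by decide
    rw [this, zero_smul]
  rw [h2, add_zero]

theorem symV_mul_symV {K : Type u} [Field K] (h : Good 2 K) (x x' : Kˣ) (hx : (x' : K) = 1 + x) :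
    symV 2 K (cl 2 x) * symV 2 K (cl 2 x') = 0 := by
  rw [← cl_neg h x, symV_cl, symV_cl, Algebra.TensorProduct.tmul_mul_tmul, sym_mul_sym,
    TensorProduct.tmul_zero]
  rw [hx]
  simp

theorem mem_J_1 {K : Type u} [Field K] (h : Good 2 K) (x x' : Kˣ) (hx : (x' : K) = 1 + x)
    (w : ExteriorAlgebra (ZMod 2) (V 2 K)) :
    ExteriorAlgebra.ι (ZMod 2) (cl 2 x) * (ExteriorAlgebra.ι (ZMod 2) (cl 2 x') * w) ∈ J h := by
  have h0 : toMilnor h (ExteriorAlgebra.ι (ZMod 2) (cl 2 x)) *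
      toMilnor h (ExteriorAlgebra.ι (ZMod 2) (cl 2 x')) = 0 := by
    unfold toMilnor
    rw [ExteriorAlgebra.lift_ι_apply, ExteriorAlgebra.lift_ι_apply, symV_mul_symV h x x' hx]
  have h1 : toMilnor h (ExteriorAlgebra.ι (ZMod 2) (cl 2 x) *
      (ExteriorAlgebra.ι (ZMod 2) (cl 2 x') * w)) = 0 := by
    rw [← mul_assoc, map_mul, map_mul, h0, zero_mul]
  exact h1

theorem mem_J_2 {K : Type u} [Field K] (h : Good 2 K) (y y' : Kˣ) (hy : (y' : K) = 1 + y)
    (w : V 2 K) :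
    ExteriorAlgebra.ι (ZMod 2) (cl 2 y) * (ExteriorAlgebra.ι (ZMod 2) w *
      ExteriorAlgebra.ι (ZMod 2) (cl 2 y')) ∈ J h := by
  have h2 : toMilnor h (ExteriorAlgebra.ι (ZMod 2) (cl 2 y)) *
      toMilnor h (ExteriorAlgebra.ι (ZMod 2) (cl 2 y')) = 0 := by
    unfold toMilnor
    rw [ExteriorAlgebra.lift_ι_apply, ExteriorAlgebra.lift_ι_apply, symV_mul_symV h y y' hy]
  have h3 : ExteriorAlgebra.ι (ZMod 2) (cl 2 y) * ExteriorAlgebra.ι (ZMod 2) w
      = - (ExteriorAlgebra.ι (ZMod 2) w * ExteriorAlgebra.ι (ZMod 2) (cl 2 y)) :=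
    eq_neg_of_add_eq_zero_left (ExteriorAlgebra.ι_add_mul_swap _ _)
  have h1 : toMilnor h (ExteriorAlgebra.ι (ZMod 2) (cl 2 y) * (ExteriorAlgebra.ι (ZMod 2) w *
      ExteriorAlgebra.ι (ZMod 2) (cl 2 y'))) = 0 := by
    rw [← mul_assoc, h3, neg_mul, map_neg, mul_assoc, map_mul, map_mul, h2, mul_zero, neg_zero]
  exact h1

theorem not_vanish_of_cert {K : Type u} [Field K] (h : Good 2 K) (x y x' y' : Kˣ)
    (hx : (x' : K) = 1 + x) (hy : (y' : K) = 1 + y)
    (hc : ∀ S : Set (V 2 K), S.Finite → Cert (cl 2 x) (cl 2 y) (cl 2 x') (cl 2 y') S) :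
    ¬ JHVanish h 3 4 := by
  classical
  intro hJ
  obtain ⟨mx, hmx⟩ : ∃ mx : J h, (mx : ExteriorAlgebra (ZMod 2) (V 2 K)) =
      ExteriorAlgebra.ι (ZMod 2) (cl 2 x) * (ExteriorAlgebra.ι (ZMod 2) (cl 2 x') *
        ExteriorAlgebra.ι (ZMod 2) (cl 2 y')) := ⟨⟨_, mem_J_1 h x x' hx _⟩, rfl⟩
  obtain ⟨my, hmy⟩ : ∃ my : J h, (my : ExteriorAlgebra (ZMod 2) (V 2 K)) =
      ExteriorAlgebra.ι (ZMod 2) (cl 2 y) * (ExteriorAlgebra.ι (ZMod 2) (cl 2 x') *
        ExteriorAlgebra.ι (ZMod 2) (cl 2 y')) := ⟨⟨_, mem_J_2 h y y' hy _⟩, rfl⟩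
  obtain ⟨y0, hy0, hbd⟩ := hJ (zElt h (cl 2 x) (cl 2 y) mx my)
    (zElt_mem h _ _ _ _ mx my hmx hmy) (zElt_cycle h _ _ _ _ mx my hmx hmy)
  obtain ⟨N, v, m, S, hvS, hmS, rfl⟩ := barDeg_four h y0 hy0
  obtain ⟨ι, _, Q, _, bas, e, nn, mm, ψ, ix, iy, he1, he0, hspan, hst, hid, hne, hbx, hby, hnz⟩ :=
    hc ((S : Set (V 2 K)) ∪ {cl 2 x', cl 2 y'}) (by
      exact (S.finite_toSet).union (by simp))
  letI : LinearOrder ι := LinearOrder.lift' (Fintype.equivFin ι) (Equiv.injective _)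
  have hext := extraction h (cl 2 x) (cl 2 y) mx my N v m hbd
  obtain ⟨𝓜, h𝓜, h𝓜0, h𝓜r⟩ := exists_sym_map
    (fun i j k l => ∑ a, (e i (v a 0) * e j (v a 1) * e k (v a 2) * e l (v a 3)) • m a)
    (fun i j k l => (hext (e i) (e j) (e k) (e l)).1)
    (fun i j k l => (hext (e i) (e j) (e k) (e l)).2.1)
    (fun i j k l => (hext (e i) (e j) (e k) (e l)).2.2.1)
  set α : ExteriorAlgebra (ZMod 2) (V 2 K) := ExteriorAlgebra.ι (ZMod 2) (cl 2 x') *
        ExteriorAlgebra.ι (ZMod 2) (cl 2 y') with hα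
  set inc : J h →ₗ[ZMod 2] ExteriorAlgebra (ZMod 2) (V 2 K) :=
    (J h).subtype.restrictScalars (ZMod 2) with hinc
  have hincv : ∀ w : J h, inc w = (w : ExteriorAlgebra (ZMod 2) (V 2 K)) := fun w => rfl
  set E : ι →₀ ℕ := Finsupp.single ix 3 + Finsupp.single iy 1 with hE
  have hrel := sym_map_rel bas e he1 he0 ix iy hne α
    (fun i j k l => inc (∑ a, (e i (v a 0) * e j (v a 1) * e k (v a 2) * e l (v a 3)) • m a))
    (inc ∘ₗ 𝓜) (fun i j k l => by rw [LinearMap.comp_apply, h𝓜])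
    (fun d hd => by rw [LinearMap.comp_apply, h𝓜0 d hd, map_zero])
    (fun i j k => by
      have h4 := (hext (e i) (e j) (e k) (e k)).2.2.2
      rw [hbx, hby]
      rw [hmy, hmx] at h4
      rw [← h4]
      have h8 : ∀ x, ExteriorAlgebra.ι (ZMod 2) (bas x) *
          inc (∑ a, (e i (v a 0) * e j (v a 1) * e k (v a 2) * e x (v a 3)) • m a)
          = ∑ a, ExteriorAlgebra.ι (ZMod 2) (bas x) *
            ((e i (v a 0) * e j (v a 1) * e k (v a 2) * e x (v a 3)) • inc (m a)) := by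
        intro x
        rw [map_sum, Finset.mul_sum]
        refine Finset.sum_congr rfl fun a _ => ?_
        rw [map_smul]
      rw [Finset.sum_congr rfl (fun x _ => h8 x)]
      simp only [hincv]
      rw [Finset.sum_comm]
      refine Finset.sum_congr rfl fun a _ => ?_
      have h5 : ExteriorAlgebra.ι (ZMod 2) (v a 3) = ∑ l, e l (v a 3) •
          ExteriorAlgebra.ι (ZMod 2) (bas l) := by
        conv_lhs => rw [hspan (v a 3) (Or.inl (hvS a 3))]
        rw [map_sum]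
        simp only [map_smul]
      rw [h5, Finset.sum_mul, Finset.smul_sum]
      refine Finset.sum_congr rfl fun l _ => ?_
      rw [mul_smul_comm, smul_mul_assoc, smul_smul])
  set 𝓓 : MvPolynomial ι (ZMod 2) →ₗ[ZMod 2] ExteriorAlgebra (ZMod 2) (V 2 K) :=
    inc ∘ₗ 𝓜 - (LinearMap.toSpanSingleton (ZMod 2) _ α) ∘ₗ (lcoeff (ZMod 2) E) with h𝓓
  have h𝓓v : ∀ f, 𝓓 f = inc (𝓜 f) - coeff E f • α := fun f => rfl
  have hD0 : ∀ f, ∑ l, ExteriorAlgebra.ι (ZMod 2) (bas l) * 𝓓 (X l * f) = 0 := by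
    intro f
    have := hrel f
    simp only [h𝓓v, mul_sub, Finset.sum_sub_distrib]
    rw [sub_eq_zero]
    exact this
  set T : ι → ι → MvPolynomial ι (ZMod 2) := fun i j =>
    ∑ q, C (nn q (bas i) * mm q (bas j) + nn q (bas j) * mm q (bas i)) * ψ q with hT
  have hpair := koszul_pairing T
    (fun i j => by
      simp only [hT]
      refine Finset.sum_congr rfl fun q _ => ?_
      rw [add_comm])
    (fun i => by
      simp only [hT]
      refine Finset.sum_eq_zero fun q _ => ?_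
      rw [CharTwo.add_self_eq_zero, map_zero, zero_mul])
    hid (fun i j => lam (e i) (e j) ∘ₗ 𝓓)
    (fun i j => by rw [lam_comm]) (fun i => by rw [lam_self, LinearMap.zero_comp])
    (fun i j k f => by
      have h6 := lam_triple bas (fun l => 𝓓 (X l * f)) (hD0 f) (e i) (e j) (e k)
      rw [Finset.sum_add_distrib, Finset.sum_add_distrib] at h6
      have h7 : ∀ (i : ι) (g : ι → ZMod 2), ∑ l, e i (bas l) * g l = g i := by
        intro i g
        rw [Finset.sum_eq_single i]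
        · rw [he1, one_mul]
        · intro l _ hl
          rw [he0 i l (Ne.symm hl), zero_mul]
        · intro hi
          exact absurd (Finset.mem_univ i) hi
      rw [h7, h7, h7] at h6
      exact h6)
  -- the functionals `R q`
  have hR : ∀ q, ∃ R : ExteriorAlgebra (ZMod 2) (V 2 K) →ₗ[ZMod 2] ZMod 2,
      (∀ u v, R (ExteriorAlgebra.ι (ZMod 2) u * ExteriorAlgebra.ι (ZMod 2) v)
        = nn q u * mm q v + nn q v * mm q u) ∧ ∀ m ∈ J h, R m = 0 := by
    intro q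
    set r : V 2 K →ₗ[ZMod 2] V 2 K →ₗ[ZMod 2] ZMod 2 :=
      LinearMap.mk₂ (ZMod 2) (fun u v => nn q u * mm q v + nn q v * mm q u)
        (fun a b c => by rw [map_add, map_add]; ring)
        (fun c a b => by rw [map_smul, map_smul, smul_eq_mul, smul_eq_mul, smul_eq_mul]; ring)
        (fun a b c => by rw [map_add, map_add]; ring)
        (fun c a b => by rw [map_smul, map_smul, smul_eq_mul, smul_eq_mul, smul_eq_mul]; ring)
      with hr
    obtain ⟨R, hR1, hR2⟩ := exists_functional h r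
      (fun v => by rw [hr]; simp only [LinearMap.mk₂_apply]; exact CharTwo.add_self_eq_zero _)
      (fun a b hab => by rw [hr]; simp only [LinearMap.mk₂_apply]; exact hst q a b hab)
    exact ⟨R, fun u v => by rw [hR1, hr]; rfl, hR2⟩
  choose R hR1 hR2 using hR
  have hspanD : ∀ f, 𝓓 f ∈ span2 ((S : Set (V 2 K)) ∪ {cl 2 x', cl 2 y'}) := by
    intro f
    rw [h𝓓v]
    refine Submodule.sub_mem _ ?_ (Submodule.smul_mem _ _ ?_)
    · have h9 : Submodule.span (ZMod 2) {w | ∃ i j k l, w =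
          ∑ a, (e i (v a 0) * e j (v a 1) * e k (v a 2) * e l (v a 3)) • m a} ≤
          (span2 ((S : Set (V 2 K)) ∪ {cl 2 x', cl 2 y'})).comap inc := by
        rw [Submodule.span_le]
        rintro w ⟨i, j, k, l, rfl⟩
        refine Submodule.sum_mem _ fun a _ => Submodule.smul_mem _ _ ?_
        have h10 : span2 (S : Set (V 2 K)) ≤ span2 ((S : Set (V 2 K)) ∪ {cl 2 x', cl 2 y'}) := by
          refine Submodule.span_mono ?_
          rintro w ⟨u, hu, v, hv, rfl⟩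
          exact ⟨u, Or.inl hu, v, Or.inl hv, rfl⟩
        exact h10 (hmS a)
      exact h9 (h𝓜r f)
    · refine Submodule.subset_span ⟨cl 2 x', Or.inr (by simp), cl 2 y', Or.inr (by simp), rfl⟩
  have hRe : ∀ q, R q (𝓓 (ψ q)) = ∑ i, ∑ j, (if i < j then
      (nn q (bas i) * mm q (bas j) + nn q (bas j) * mm q (bas i)) * lam (e i) (e j) (𝓓 (ψ q))
      else 0) := by
    intro q
    set r : V 2 K →ₗ[ZMod 2] V 2 K →ₗ[ZMod 2] ZMod 2 :=
      LinearMap.mk₂ (ZMod 2) (fun u v => nn q u * mm q v + nn q v * mm q u)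
        (fun a b c => by rw [map_add, map_add]; ring)
        (fun c a b => by rw [map_smul, map_smul, smul_eq_mul, smul_eq_mul, smul_eq_mul]; ring)
        (fun a b c => by rw [map_add, map_add]; ring)
        (fun c a b => by rw [map_smul, map_smul, smul_eq_mul, smul_eq_mul, smul_eq_mul]; ring)
      with hr
    have := R_eq bas e ((S : Set (V 2 K)) ∪ {cl 2 x', cl 2 y'}) hspan r
      (fun v => by rw [hr]; simp only [LinearMap.mk₂_apply]; exact CharTwo.add_self_eq_zero _)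
      (R q) (fun u v => by rw [hR1, hr]; rfl) (𝓓 (ψ q)) (hspanD _)
    rw [this]
    rfl
  have hsum : ∑ q, R q (𝓓 (ψ q)) = 0 := by
    rw [← hpair]
    simp only [hRe, hT, LinearMap.comp_apply, map_sum, C_mul', map_smul, smul_eq_mul]
    rw [Finset.sum_comm]
    refine Finset.sum_congr rfl fun i _ => ?_
    rw [Finset.sum_comm]
    refine Finset.sum_congr rfl fun j _ => ?_
    split_ifs
    · rfl
    · simp
  have hsum2 : ∑ q, R q (𝓓 (ψ q)) = 1 := by
    rw [← hnz]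
    refine Finset.sum_congr rfl fun q _ => ?_
    rw [h𝓓v, map_sub, hincv, hR2 q _ (𝓜 (ψ q)).2, zero_sub, map_smul, hα, hR1, smul_eq_mul,
      mul_comm, ← neg_mul, CharTwo.neg_eq]
  rw [hsum] at hsum2
  exact zero_ne_one hsum2

end H39.KZ
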