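import Pool.Agent.H39.KZ.Cert

/-!
# Part B: definitions

`k` is algebraically closed of characteristic zero, `F = RatFunc k = k(x)`, `L = LaurentSeries k`,
`K = RatFunc F = k(x, y)`.
-/

set_option autoImplicit false

namespace H39.KZ

open Polynomial

universe u

section Local

variable {P : Type*} [CommRing P]

/-- `b(s, t) = s t⁴ + s³ t²`. -/
def bb (s t : P) : P := s * t ^ 4 + s ^ 3 * t ^ 2

/-- `f(s, t) = s t³ + s³ t`. -/
def ff (s t : P) : P := s * t ^ 3 + s ^ 3 * t

variable {α : Type*} [Algebra (ZMod 2) P]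

/-- `λ_t = ∑ N_z v_z`. -/
def lamT (R : Finset α) (N : α → ZMod 2) (v : α → P) : P := ∑ z ∈ R, N z • v z

/-- `λ_ρ = N_ρ v_t + ∑ I(ρ, z) v_z`. -/
def lamR (R : Finset α) (I : α → α → ZMod 2) (N : α → ZMod 2) (vt : P) (v : α → P) (ρ : α) : P :=
  N ρ • vt + ∑ z ∈ R, I ρ z • v z

/-- The system of equations on the graph with vertices `R ∪ {t}`; the unknown `ψ_t` is eliminated,
`ψ_t = f(λ_t, v_t)`. -/
structure LocSol (R : Finset α) (I : α → α → ZMod 2) (N : α → ZMod 2) (vt : P) (v ψ : α → P) :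
    Prop where
  loc : ∀ ρ ∈ R, N ρ • (vt * (ψ ρ + ff (lamT R N v) vt)) + ∑ z ∈ R, I ρ z • (v z * (ψ ρ + ψ z))
    = bb (v ρ) (lamR R I N vt v ρ)
  tgt : ∑ z ∈ R, N z • (v z * ψ z) = 0

end Local

/-- The class in `V` of an element of the field (`0` for the element `0`). -/
noncomputable def ucl {K : Type u} [Field K] (g : K) : V 2 K :=
  open Classical in if h : g = 0 then 0 else cl 2 (Units.mk0 g h)

/-- The intersection number of two polynomials over `k((t))`, modulo two. -/
noncomputable def Imod {k : Type u} [Field k] (x y : (LaurentSeries k)[X]) : ZMod 2 :=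
  ((resultant x y).order : ZMod 2)

/-- The degree modulo two. -/
noncomputable def Nmod {k : Type u} [Field k] (x : (LaurentSeries k)[X]) : ZMod 2 :=
  (x.natDegree : ZMod 2)

/-- The class of `x - a` in `V 2 (k(x, y))`. -/
noncomputable def xa {k : Type u} [Field k] (a : k) : V 2 (RatFunc (RatFunc k)) :=
  ucl (algebraMap (RatFunc k)[X] (RatFunc (RatFunc k)) (C (RatFunc.X - RatFunc.C a)))

/-- The class of a polynomial `π ∈ k(x)[y]` in `V 2 (k(x, y))`. -/
noncomputable def pc {k : Type u} [Field k] (π : (RatFunc k)[X]) : V 2 (RatFunc (RatFunc k)) :=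
  ucl (algebraMap (RatFunc k)[X] (RatFunc (RatFunc k)) π)

/-- The index set of the basis. -/
abbrev Idx {k : Type u} [Field k] (Bs : Finset k) (Pi : Finset (RatFunc k)[X]) : Type u :=
  {a : k // a ∈ Bs} ⊕ {π : (RatFunc k)[X] // π ∈ Pi}

/-- The basis elements `[x - a]`, `[π]`. -/
noncomputable def bas {k : Type u} [Field k] (Bs : Finset k) (Pi : Finset (RatFunc k)[X]) :
    Idx Bs Pi → V 2 (RatFunc (RatFunc k)) :=
  Sum.elim (fun a => xa a.1) (fun π => pc π.1)

/-- The order at a place of the resultant of two different polynomials (`0` if equal), mod 2. -/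
noncomputable def rord {k : Type u} [Field k] (σ : RatFunc k →+* LaurentSeries k)
    (π π' : (RatFunc k)[X]) : ZMod 2 :=
  open Classical in if π = π' then 0 else ((σ (resultant π π')).order : ZMod 2)

/-- The order of `x - a` at a place, mod 2. -/
noncomputable def aord {k : Type u} [Field k] (σ : RatFunc k →+* LaurentSeries k) (a : k) : ZMod 2 :=
  ((σ (RatFunc.X - RatFunc.C a)).order : ZMod 2)

/-- The contribution of one place. -/
noncomputable def glob {k : Type u} [Field k] (Bs : Finset k) (Pi : Finset (RatFunc k)[X])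
    (σ : RatFunc k →+* LaurentSeries k) : Idx Bs Pi → MvPolynomial (Idx Bs Pi) (ZMod 2) :=
  Sum.elim (fun _ => 0) (fun π =>
    bb (MvPolynomial.X (Sum.inr π))
      (∑ a : {a : k // a ∈ Bs}, MvPolynomial.C ((π.1.natDegree : ZMod 2) * aord σ a.1) *
          MvPolynomial.X (Sum.inl a)
        + ∑ π' : {π : (RatFunc k)[X] // π ∈ Pi}, MvPolynomial.C (rord σ π.1 π'.1) *
          MvPolynomial.X (Sum.inr π'))
    + MvPolynomial.C (π.1.natDegree : ZMod 2) *
      bb (∑ π' : {π : (RatFunc k)[X] // π ∈ Pi}, MvPolynomial.C (π'.1.natDegree : ZMod 2) *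
          MvPolynomial.X (Sum.inr π'))
        (∑ a : {a : k // a ∈ Bs}, MvPolynomial.C (aord σ a.1) * MvPolynomial.X (Sum.inl a)))

end H39.KZ
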