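import Mathlib

/-!
# Job KZ-B1: the places of `k(x)` and the product formula

PROOF.  For `θ : LaurentSeries k` with `θ ≠ C b` for all `b : k` there is a ring homomorphism
`RatFunc k → LaurentSeries k` with `X ↦ θ`, `C a ↦ C a`: the homomorphism
`Polynomial.aeval θ : k[X] → LaurentSeries k` (or `eval₂RingHom HahnSeries.C θ`) is injective, since
a polynomial `P ≠ 0` is `lc * ∏ (X - bᵢ)` (`IsAlgClosed.splits`) and its value
`C lc * ∏ (θ - C bᵢ)` is nonzero; extend by `IsFractionRing.lift` (or `RatFunc.liftRingHom`).
 * `sg (some b)`: `θ = C b + single 1 1` (`T = HahnSeries.single 1 1`);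
 * `sg none`: `θ = single (-1) 1`.
(1) `sg c (C a) = HahnSeries.C a` has order `0`.
(2) `sg (some b) (X - C a) = C (b - a) + T`: order `1` if `a = b`; if `a ≠ b` the coefficient at `0`
    is `b - a ≠ 0` and the negative coefficients vanish: order `0`
    (`HahnSeries.order_add_eq...`/`HahnSeries.order_eq_orderTop_of_ne`, or: `f.coeff 0 ≠ 0` gives
    `order ≤ 0` (`HahnSeries.order_le_of_coeff_ne_zero`), and `0 ≤ order` since the coefficient at
    `order` is nonzero (`HahnSeries.coeff_order_ne_zero`), and all negative coefficients are `0`).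
(3) `sg none (X - C a) = single (-1) 1 - C a` has order `-1` in the same way.
(4) Product formula.  The function `f ↦ (sg c f).order` is additive on nonzero elements
    (`HahnSeries.order_mul`; the homomorphisms are injective).  Call `f ≠ 0` good if the conclusion
    holds for `f`.  Products and inverses of good elements are good (union of the `B₀`).
    Constants `C a` are good (`B₀ = ∅`), `X - C a` is good with `B₀ = {some a, none}`:
    for `B ⊇ B₀` the sum over `B` is `1 + (-1) + 0`.  Every `f ≠ 0` is a quotient of two nonzero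
    polynomials (`RatFunc.num_div_denom`), and every nonzero polynomial is
    `C lc * ∏ (X - bᵢ)` (`Polynomial.Splits`, `IsAlgClosed.splits`); multiset induction.
-/

set_option autoImplicit false

namespace H39.KZ

universe u

variable {k : Type u} [Field k]

private lemma b1_inj [IsAlgClosed k] (θ : LaurentSeries k) (h : ∀ b : k, θ ≠ HahnSeries.C b) :
    Function.Injective (Polynomial.eval₂RingHom (HahnSeries.C : k →+* LaurentSeries k) θ) := by
  rw [injective_iff_map_eq_zero]
  intro P hP
  by_contra hne
  have hs := (IsAlgClosed.splits P).eq_prod_roots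
  rw [hs, map_mul, map_multiset_prod] at hP
  rcases mul_eq_zero.1 hP with h1 | h1
  · rw [Polynomial.coe_eval₂RingHom, Polynomial.eval₂_C] at h1
    have h2 : P.leadingCoeff = 0 := HahnSeries.C_injective (by rw [h1, map_zero])
    exact hne (Polynomial.leadingCoeff_eq_zero.1 h2)
  · rw [Multiset.prod_eq_zero_iff, Multiset.map_map, Multiset.mem_map] at h1
    obtain ⟨b, _, hb⟩ := h1
    simp only [Function.comp, map_sub, Polynomial.coe_eval₂RingHom, Polynomial.eval₂_X,
      Polynomial.eval₂_C] at hb
    exact h b (sub_eq_zero.1 hb)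

private lemma b1_hom [IsAlgClosed k] (θ : LaurentSeries k) (h : ∀ b : k, θ ≠ HahnSeries.C b) :
    ∃ φ : RatFunc k →+* LaurentSeries k, φ RatFunc.X = θ ∧
      ∀ a : k, φ (RatFunc.C a) = HahnSeries.C a := by
  refine ⟨IsFractionRing.lift (b1_inj θ h), ?_, fun a => ?_⟩
  · rw [← RatFunc.algebraMap_X, IsFractionRing.lift_algebraMap, Polynomial.coe_eval₂RingHom,
      Polynomial.eval₂_X]
  · rw [← RatFunc.algebraMap_C, IsFractionRing.lift_algebraMap, Polynomial.coe_eval₂RingHom,
      Polynomial.eval₂_C]

private lemma b1_coeffC (a : k) (n : ℤ) (hn : n ≠ 0) :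
    (HahnSeries.C a : LaurentSeries k).coeff n = 0 := by
  rw [HahnSeries.C_apply]
  exact HahnSeries.coeff_single_of_ne hn

private lemma b1_coeffC0 (a : k) : (HahnSeries.C a : LaurentSeries k).coeff 0 = a := by
  rw [HahnSeries.C_apply]
  exact HahnSeries.coeff_single_same _ _

private lemma b1_ordS (n : ℤ) : (HahnSeries.single n (1 : k) : LaurentSeries k).order = n :=
  HahnSeries.order_single one_ne_zero

/-- order of `C a + T` for `a ≠ 0` -/
private lemma b1_ord0 (a : k) (ha : a ≠ 0) :
    (HahnSeries.C a + HahnSeries.single 1 1 : LaurentSeries k).order = 0 := by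
  have hc : (HahnSeries.C a + HahnSeries.single 1 1 : LaurentSeries k).coeff 0 ≠ 0 := by
    rw [HahnSeries.coeff_add, b1_coeffC0, HahnSeries.coeff_single_of_ne (by norm_num), add_zero]
    exact ha
  have hne : (HahnSeries.C a + HahnSeries.single 1 1 : LaurentSeries k) ≠ 0 := by
    intro h
    rw [h] at hc
    exact hc rfl
  refine le_antisymm (HahnSeries.order_le_of_coeff_ne_zero hc) ?_
  refine le_trans ?_ (HahnSeries.min_order_le_order_add hne)
  rw [HahnSeries.order_C, b1_ordS]
  norm_num

/-- order of `T⁻¹ - C a` -/
private lemma b1_ordm (a : k) :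
    (HahnSeries.single (-1) 1 - HahnSeries.C a : LaurentSeries k).order = -1 := by
  have hc : (HahnSeries.single (-1) 1 + HahnSeries.C (-a) : LaurentSeries k).coeff (-1) ≠ 0 := by
    rw [HahnSeries.coeff_add, b1_coeffC _ _ (by norm_num), HahnSeries.coeff_single_same, add_zero]
    exact one_ne_zero
  have hne : (HahnSeries.single (-1) 1 + HahnSeries.C (-a) : LaurentSeries k) ≠ 0 := by
    intro h
    rw [h] at hc
    exact hc rfl
  rw [sub_eq_add_neg, ← map_neg]
  refine le_antisymm (HahnSeries.order_le_of_coeff_ne_zero hc) ?_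
  refine le_trans ?_ (HahnSeries.min_order_le_order_add hne)
  rw [HahnSeries.order_C, b1_ordS]
  norm_num

private lemma b1_inv (x : LaurentSeries k) : (x⁻¹).order = -x.order := by
  by_cases hx : x = 0
  · rw [hx, inv_zero, HahnSeries.order_zero, neg_zero]
  · have h := HahnSeries.order_mul hx (inv_ne_zero hx)
    rw [mul_inv_cancel₀ hx, HahnSeries.order_one] at h
    linarith

theorem places (k : Type u) [Field k] [IsAlgClosed k] :
    ∃ sg : Option k → (RatFunc k →+* LaurentSeries k),
      (∀ c (a : k), a ≠ 0 → (sg c (RatFunc.C a)).order = 0) ∧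
      (∀ a : k, (sg (some a) (RatFunc.X - RatFunc.C a)).order = 1) ∧
      (∀ a b : k, a ≠ b → (sg (some b) (RatFunc.X - RatFunc.C a)).order = 0) ∧
      (∀ a : k, (sg none (RatFunc.X - RatFunc.C a)).order = -1) ∧
      (∀ f : RatFunc k, f ≠ 0 → ∃ B₀ : Finset (Option k), ∀ B : Finset (Option k), B₀ ⊆ B →
        ∑ c ∈ B, (sg c f).order = 0) := by
  classical
  have hsome : ∀ b : k, ∃ φ : RatFunc k →+* LaurentSeries k,
      φ RatFunc.X = HahnSeries.C b + HahnSeries.single 1 1 ∧
      ∀ a : k, φ (RatFunc.C a) = HahnSeries.C a := by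
    intro b
    refine b1_hom _ fun a h => ?_
    have h1 := congrArg (fun x : LaurentSeries k => x.coeff 1) h
    simp only [HahnSeries.coeff_add] at h1
    rw [b1_coeffC _ _ one_ne_zero, b1_coeffC _ _ one_ne_zero, HahnSeries.coeff_single_same,
      zero_add] at h1
    exact one_ne_zero h1
  have hnone : ∃ φ : RatFunc k →+* LaurentSeries k,
      φ RatFunc.X = HahnSeries.single (-1) 1 ∧ ∀ a : k, φ (RatFunc.C a) = HahnSeries.C a := by
    refine b1_hom _ fun a h => ?_
    have h1 : (HahnSeries.single (-1) 1 : LaurentSeries k).coeff (-1) =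
        (HahnSeries.C a : LaurentSeries k).coeff (-1) := by rw [h]
    rw [b1_coeffC _ _ (by norm_num), HahnSeries.coeff_single_same] at h1
    exact one_ne_zero h1
  choose φ hφ1 hφ2 using hsome
  obtain ⟨ψ, hψ1, hψ2⟩ := hnone
  refine ⟨fun c => Option.elim c ψ φ, ?_, ?_, ?_, ?_, ?_⟩
  · intro c a _
    cases c with
    | none =>
      show (ψ (RatFunc.C a)).order = 0
      rw [hψ2, HahnSeries.order_C]
    | some b =>
      show (φ b (RatFunc.C a)).order = 0
      rw [hφ2, HahnSeries.order_C]
  · intro a
    show (φ a (RatFunc.X - RatFunc.C a)).order = 1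
    rw [map_sub, hφ1, hφ2, add_sub_cancel_left, b1_ordS]
  · intro a b hab
    show (φ b (RatFunc.X - RatFunc.C a)).order = 0
    have e : φ b (RatFunc.X - RatFunc.C a) = HahnSeries.C (b - a) + HahnSeries.single 1 1 := by
      rw [map_sub, hφ1, hφ2, map_sub]
      ring
    rw [e]
    exact b1_ord0 _ (sub_ne_zero.2 (Ne.symm hab))
  · intro a
    show (ψ (RatFunc.X - RatFunc.C a)).order = -1
    rw [map_sub, hψ1, hψ2]
    exact b1_ordm a
  · -- the product formula
    set sg : Option k → (RatFunc k →+* LaurentSeries k) := fun c => Option.elim c ψ φ with hsg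
    have hC : ∀ a : k, ∀ c, (sg c (RatFunc.C a)).order = 0 := by
      intro a c
      cases c with
      | none =>
        show (ψ (RatFunc.C a)).order = 0
        rw [hψ2, HahnSeries.order_C]
      | some b =>
        show (φ b (RatFunc.C a)).order = 0
        rw [hφ2, HahnSeries.order_C]
    let Good : RatFunc k → Prop := fun f => ∃ B₀ : Finset (Option k), ∀ B : Finset (Option k),
      B₀ ⊆ B → ∑ c ∈ B, (sg c f).order = 0
    have hmul : ∀ f g : RatFunc k, f ≠ 0 → g ≠ 0 → Good f → Good g → Good (f * g) := by
      rintro f g hf hg ⟨B1, h1⟩ ⟨B2, h2⟩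
      refine ⟨B1 ∪ B2, fun B hB => ?_⟩
      have e : ∀ c, (sg c (f * g)).order = (sg c f).order + (sg c g).order := by
        intro c
        rw [map_mul]
        exact HahnSeries.order_mul ((map_ne_zero _).2 hf) ((map_ne_zero _).2 hg)
      simp only [e]
      rw [Finset.sum_add_distrib, h1 B (Finset.union_subset_left hB),
        h2 B (Finset.union_subset_right hB), add_zero]
    have hinv : ∀ f : RatFunc k, Good f → Good f⁻¹ := by
      rintro f ⟨B1, h1⟩
      refine ⟨B1, fun B hB => ?_⟩
      have e : ∀ c, (sg c f⁻¹).order = -(sg c f).order := by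
        intro c
        rw [map_inv₀]
        exact b1_inv _
      simp only [e]
      rw [Finset.sum_neg_distrib, h1 B hB, neg_zero]
    have hconst : ∀ a : k, Good (RatFunc.C a) := fun a =>
      ⟨∅, fun B _ => Finset.sum_eq_zero fun c _ => hC a c⟩
    have hlin : ∀ a : k, Good (RatFunc.X - RatFunc.C a) := by
      intro a
      refine ⟨{some a, none}, fun B hB => ?_⟩
      rw [← Finset.sum_subset hB, Finset.sum_pair (by simp)]
      · have h1 : (sg (some a) (RatFunc.X - RatFunc.C a)).order = 1 := by
          show (φ a (RatFunc.X - RatFunc.C a)).order = 1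
          rw [map_sub, hφ1, hφ2, add_sub_cancel_left, b1_ordS]
        have h2 : (sg none (RatFunc.X - RatFunc.C a)).order = -1 := by
          show (ψ (RatFunc.X - RatFunc.C a)).order = -1
          rw [map_sub, hψ1, hψ2]
          exact b1_ordm a
        rw [h1, h2]
        norm_num
      · intro c _ hc
        cases c with
        | none => simp at hc
        | some b =>
          have hab : a ≠ b := by
            intro h
            apply hc
            rw [h]
            simp
          show (φ b (RatFunc.X - RatFunc.C a)).order = 0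
          have e : φ b (RatFunc.X - RatFunc.C a) =
              HahnSeries.C (b - a) + HahnSeries.single 1 1 := by
            rw [map_sub, hφ1, hφ2, map_sub]
            ring
          rw [e]
          exact b1_ord0 _ (sub_ne_zero.2 (Ne.symm hab))
    have hXC : ∀ a : k, (RatFunc.X - RatFunc.C a : RatFunc k) ≠ 0 := by
      intro a h
      have h2 : (ψ (RatFunc.X - RatFunc.C a)).order = -1 := by
        rw [map_sub, hψ1, hψ2]
        exact b1_ordm a
      rw [h, map_zero, HahnSeries.order_zero] at h2
      norm_num at h2
    have hprod : ∀ s : Multiset k, Good ((s.map fun a => (RatFunc.X - RatFunc.C a : RatFunc k)).prod) ∧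
        (s.map fun a => (RatFunc.X - RatFunc.C a : RatFunc k)).prod ≠ 0 := by
      intro s
      induction s using Multiset.induction with
      | empty =>
        refine ⟨?_, ?_⟩
        · have := hconst 1
          rw [map_one] at this
          simpa using this
        · simp
      | cons a s ih =>
        rw [Multiset.map_cons, Multiset.prod_cons]
        exact ⟨hmul _ _ (hXC a) ih.2 (hlin a) ih.1, mul_ne_zero (hXC a) ih.2⟩
    have hpoly : ∀ P : Polynomial k, P ≠ 0 → Good (algebraMap (Polynomial k) (RatFunc k) P) := by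
      intro P hP
      have hs := (IsAlgClosed.splits P).eq_prod_roots
      rw [hs, map_mul, RatFunc.algebraMap_C, map_multiset_prod, Multiset.map_map]
      have e : (P.roots.map (⇑(algebraMap (Polynomial k) (RatFunc k)) ∘
          fun x => Polynomial.X - Polynomial.C x)) =
          P.roots.map fun a => (RatFunc.X - RatFunc.C a : RatFunc k) := by
        refine Multiset.map_congr rfl fun a _ => ?_
        simp only [Function.comp, map_sub, RatFunc.algebraMap_X, RatFunc.algebraMap_C]
      rw [e]
      refine hmul _ _ ?_ (hprod _).2 (hconst _) (hprod _).1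
      rw [Ne, map_eq_zero]
      exact fun h => hP (Polynomial.leadingCoeff_eq_zero.1 h)
    intro f hf
    rw [← RatFunc.num_div_denom f, div_eq_mul_inv]
    have h1 : algebraMap (Polynomial k) (RatFunc k) f.num ≠ 0 := by
      intro h
      apply hf
      rw [← RatFunc.num_div_denom f, h, zero_div]
    have h2 : algebraMap (Polynomial k) (RatFunc k) f.denom ≠ 0 := by
      intro h
      apply hf
      rw [← RatFunc.num_div_denom f, h, div_zero]
    have h3 : f.num ≠ 0 := fun h => h1 (by rw [h, map_zero])
    have h4 : f.denom ≠ 0 := fun h => h2 (by rw [h, map_zero])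
    exact hmul _ _ h1 (inv_ne_zero h2) (hpoly _ h3) (hinv _ (hpoly _ h4))

end H39.KZ
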