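import Pool.Agent.H39.KZ.B0

/-!
# Job KZ-B10: extension of the pair to the field of rational functions, and functionals on `V`

(1) `extend_pair`: put `n' g = n (g.num.map σ) - n (g.denom.map σ)` and the same for `m'`
    (`RatFunc.num`, `RatFunc.denom`; `σ` is injective, so that `map σ` of a nonzero polynomial is
    nonzero).  Key fact: if `g = algebraMap P / algebraMap Q` with `P, Q ≠ 0` then
    `n' g = n (P.map σ) - n (Q.map σ)`: indeed `g.num * Q = P * g.denom`
    (`RatFunc.num_div_denom`, injectivity of `algebraMap`), apply `Polynomial.map_mul` and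
    additivity.  From the key fact: multiplicativity, and the value on `algebraMap P`
    (`Q = 1`: `n 1 = n 1 + n 1`, so `n 1 = 0`).
    Steinberg: `g + h = 1`, `g, h ≠ 0`: let `R = g.denom * h.denom`, `P = g.num * h.denom`,
    `Q = h.num * g.denom`: `P + Q = R` (all nonzero), `g = P / R`, `h = Q / R`, so
    `n' g = n P - n R` etc. (with `map σ`), and the claim is the third property of `(n, m)`:
    `(n P - n R) * (m Q - m R) = (n Q - n R) * (m P - m R)`.
(2) `exists_functional_of_hom`: `n` defines an additive homomorphism `Additive Kˣ →+ ZMod 2`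
    (`a ↦ (n a : ZMod 2)`), which kills the multiples of `2`, so it factors through
    `V 2 K = ModN (Additive Kˣ) 2` (`ModN.liftEquiv'`, cf. `symV` in `Defs.lean`); `ucl g` is the
    class of `Units.mk0 g _` (unfold `ucl`, `dif_neg`).
(3) `ucl_mul`, `ucl_pow_two`, `ucl_surj`: from the definitions (`ModN.mkQ` is additive, `2 • v = 0`,
    see `cl_neg` in A9 for a similar computation; surjectivity as in `symV_sq`).
-/

set_option autoImplicit false

namespace H39.KZ

open Polynomial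

universe u

section Ext

variable {F L : Type*} [Field F] [Field L]

/-- The extension of an additive function on polynomials to rational functions. -/
noncomputable def extN (σ : F →+* L) (n : L[X] → ℤ) (g : RatFunc F) : ℤ :=
  n (g.num.map σ) - n (g.denom.map σ)

theorem map_ne_zero' (σ : F →+* L) {P : F[X]} (hP : P ≠ 0) : P.map σ ≠ 0 :=
  (Polynomial.map_ne_zero_iff σ.injective).2 hP

theorem extN_div (σ : F →+* L) (n : L[X] → ℤ)
    (hn : ∀ P Q, P ≠ 0 → Q ≠ 0 → n (P * Q) = n P + n Q) (P Q : F[X]) (hP : P ≠ 0) (hQ : Q ≠ 0) :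
    extN σ n (algebraMap F[X] (RatFunc F) P / algebraMap F[X] (RatFunc F) Q)
      = n (P.map σ) - n (Q.map σ) := by
  set g : RatFunc F := algebraMap F[X] (RatFunc F) P / algebraMap F[X] (RatFunc F) Q with hg
  have hPa : algebraMap F[X] (RatFunc F) P ≠ 0 := RatFunc.algebraMap_ne_zero hP
  have hQa : algebraMap F[X] (RatFunc F) Q ≠ 0 := RatFunc.algebraMap_ne_zero hQ
  have hda : algebraMap F[X] (RatFunc F) g.denom ≠ 0 :=
    RatFunc.algebraMap_ne_zero (RatFunc.denom_ne_zero g)
  have hg0 : g ≠ 0 := div_ne_zero hPa hQa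
  have hnum : g.num ≠ 0 := RatFunc.num_ne_zero hg0
  have h1 : algebraMap F[X] (RatFunc F) g.num / algebraMap F[X] (RatFunc F) g.denom
      = algebraMap F[X] (RatFunc F) P / algebraMap F[X] (RatFunc F) Q := by
    rw [RatFunc.num_div_denom]
  rw [div_eq_div_iff hda hQa, ← map_mul, ← map_mul] at h1
  have h2 : g.num * Q = P * g.denom := RatFunc.algebraMap_injective F h1
  have h3 : n (g.num.map σ * Q.map σ) = n (P.map σ * g.denom.map σ) := by
    rw [← Polynomial.map_mul, ← Polynomial.map_mul, h2]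
  rw [hn _ _ (map_ne_zero' σ hnum) (map_ne_zero' σ hQ),
    hn _ _ (map_ne_zero' σ hP) (map_ne_zero' σ (RatFunc.denom_ne_zero g))] at h3
  unfold extN
  linarith

theorem extN_mul (σ : F →+* L) (n : L[X] → ℤ)
    (hn : ∀ P Q, P ≠ 0 → Q ≠ 0 → n (P * Q) = n P + n Q) (g h : RatFunc F) (hg : g ≠ 0)
    (hh : h ≠ 0) : extN σ n (g * h) = extN σ n g + extN σ n h := by
  have h1 : g * h = algebraMap F[X] (RatFunc F) (g.num * h.num) /
      algebraMap F[X] (RatFunc F) (g.denom * h.denom) := by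
    conv_lhs => rw [← RatFunc.num_div_denom g, ← RatFunc.num_div_denom h]
    rw [map_mul, map_mul, div_mul_div_comm]
  have hgn := RatFunc.num_ne_zero hg
  have hhn := RatFunc.num_ne_zero hh
  have hgd := RatFunc.denom_ne_zero g
  have hhd := RatFunc.denom_ne_zero h
  rw [h1, extN_div σ n hn _ _ (mul_ne_zero hgn hhn) (mul_ne_zero hgd hhd),
    Polynomial.map_mul, Polynomial.map_mul, hn _ _ (map_ne_zero' σ hgn) (map_ne_zero' σ hhn),
    hn _ _ (map_ne_zero' σ hgd) (map_ne_zero' σ hhd)]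
  unfold extN
  ring

theorem extN_algebraMap (σ : F →+* L) (n : L[X] → ℤ)
    (hn : ∀ P Q, P ≠ 0 → Q ≠ 0 → n (P * Q) = n P + n Q) (P : F[X]) (hP : P ≠ 0) :
    extN σ n (algebraMap F[X] (RatFunc F) P) = n (P.map σ) := by
  have h1 := extN_div σ n hn P 1 hP one_ne_zero
  rw [map_one, div_one, Polynomial.map_one] at h1
  have h2 := hn 1 1 one_ne_zero one_ne_zero
  rw [mul_one] at h2
  have h3 : n 1 = 0 := by linarith
  rw [h1, h3, sub_zero]

end Ext

theorem extend_pair {F L : Type*} [Field F] [Field L] (σ : F →+* L) (n m : L[X] → ℤ)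
    (hn : ∀ P Q, P ≠ 0 → Q ≠ 0 → n (P * Q) = n P + n Q)
    (hm : ∀ P Q, P ≠ 0 → Q ≠ 0 → m (P * Q) = m P + m Q)
    (h3 : ∀ P Q, P ≠ 0 → Q ≠ 0 → P + Q ≠ 0 →
      (n P - n (P + Q)) * (m Q - m (P + Q)) = (n Q - n (P + Q)) * (m P - m (P + Q))) :
    ∃ n' m' : RatFunc F → ℤ,
      (∀ g h, g ≠ 0 → h ≠ 0 → n' (g * h) = n' g + n' h) ∧
      (∀ g h, g ≠ 0 → h ≠ 0 → m' (g * h) = m' g + m' h) ∧
      (∀ g h, g ≠ 0 → h ≠ 0 → g + h = 1 → n' g * m' h = n' h * m' g) ∧
      (∀ P : F[X], P ≠ 0 → n' (algebraMap F[X] (RatFunc F) P) = n (P.map σ) ∧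
        m' (algebraMap F[X] (RatFunc F) P) = m (P.map σ)) := by
  refine ⟨extN σ n, extN σ m, extN_mul σ n hn, extN_mul σ m hm, ?_,
    fun P hP => ⟨extN_algebraMap σ n hn P hP, extN_algebraMap σ m hm P hP⟩⟩
  intro g h hg hh hgh
  have hgn := RatFunc.num_ne_zero hg
  have hhn := RatFunc.num_ne_zero hh
  have hgd := RatFunc.denom_ne_zero g
  have hhd := RatFunc.denom_ne_zero h
  have hgda : algebraMap F[X] (RatFunc F) g.denom ≠ 0 := RatFunc.algebraMap_ne_zero hgd
  have hhda : algebraMap F[X] (RatFunc F) h.denom ≠ 0 := RatFunc.algebraMap_ne_zero hhd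
  set R := g.denom * h.denom with hR
  set P := g.num * h.denom with hP
  set Q := h.num * g.denom with hQ
  have hR0 : R ≠ 0 := mul_ne_zero hgd hhd
  have hP0 : P ≠ 0 := mul_ne_zero hgn hhd
  have hQ0 : Q ≠ 0 := mul_ne_zero hhn hgd
  have hgP : g = algebraMap F[X] (RatFunc F) P / algebraMap F[X] (RatFunc F) R := by
    conv_lhs => rw [← RatFunc.num_div_denom g]
    rw [hP, hR, map_mul, map_mul, mul_div_mul_right _ _ hhda]
  have hhQ : h = algebraMap F[X] (RatFunc F) Q / algebraMap F[X] (RatFunc F) R := by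
    conv_lhs => rw [← RatFunc.num_div_denom h]
    rw [hQ, hR, map_mul, map_mul, mul_comm (algebraMap F[X] (RatFunc F) g.denom),
      mul_div_mul_right _ _ hgda]
  have hRa : algebraMap F[X] (RatFunc F) R ≠ 0 := RatFunc.algebraMap_ne_zero hR0
  have hPQ : P + Q = R := by
    apply RatFunc.algebraMap_injective F
    rw [map_add]
    have h1 : algebraMap F[X] (RatFunc F) P / algebraMap F[X] (RatFunc F) R
        + algebraMap F[X] (RatFunc F) Q / algebraMap F[X] (RatFunc F) R = 1 := by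
      rw [← hgP, ← hhQ, hgh]
    rw [← add_div, div_eq_iff hRa, one_mul] at h1
    exact h1
  have hmap : P.map σ + Q.map σ = R.map σ := by rw [← Polynomial.map_add, hPQ]
  have key := h3 (P.map σ) (Q.map σ) (map_ne_zero' σ hP0) (map_ne_zero' σ hQ0)
    (by rw [hmap]; exact map_ne_zero' σ hR0)
  rw [hmap] at key
  have e1 : extN σ n g = n (P.map σ) - n (R.map σ) := by
    conv_lhs => rw [hgP]
    exact extN_div σ n hn P R hP0 hR0
  have e2 : extN σ m h = m (Q.map σ) - m (R.map σ) := by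
    conv_lhs => rw [hhQ]
    exact extN_div σ m hm Q R hQ0 hR0
  have e3 : extN σ n h = n (Q.map σ) - n (R.map σ) := by
    conv_lhs => rw [hhQ]
    exact extN_div σ n hn Q R hQ0 hR0
  have e4 : extN σ m g = m (P.map σ) - m (R.map σ) := by
    conv_lhs => rw [hgP]
    exact extN_div σ m hm P R hP0 hR0
  rw [e1, e2, e3, e4]
  exact key

theorem two_smul_zero {K : Type u} [Field K] (w : V 2 K) : 2 • w = 0 := by
  rw [← Nat.cast_smul_eq_nsmul (ZMod 2)]
  have : ((2 : ℕ) : ZMod 2) = 0 := by decide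
  rw [this, zero_smul]

/-- The additive homomorphism defined by a multiplicative-to-additive function. -/
noncomputable def homOf {K : Type u} [Field K] (n : K → ℤ)
    (hn : ∀ g h, g ≠ 0 → h ≠ 0 → n (g * h) = n g + n h) : Additive Kˣ →+ ZMod 2 where
  toFun a := ((n (a.toMul : K) : ℤ) : ZMod 2)
  map_zero' := by
    have h := hn 1 1 one_ne_zero one_ne_zero
    rw [mul_one] at h
    have h3 : n 1 = 0 := by linarith
    simp [h3]
  map_add' a b := by
    have h := hn (a.toMul : K) (b.toMul : K) (Units.ne_zero _) (Units.ne_zero _)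
    rw [toMul_add, Units.val_mul, h]
    push_cast
    rfl

theorem exists_functional_of_hom {K : Type u} [Field K] (n : K → ℤ)
    (hn : ∀ g h, g ≠ 0 → h ≠ 0 → n (g * h) = n g + n h) :
    ∃ φ : V 2 K →ₗ[ZMod 2] ZMod 2, ∀ g, g ≠ 0 → φ (ucl g) = (n g : ZMod 2) := by
  refine ⟨ModN.liftEquiv'.symm ⟨homOf n hn, fun g => ?_⟩, fun g hg => ?_⟩
  · change 2 • (homOf n hn g) = 0
    rw [nsmul_eq_mul]
    have : ((2 : ℕ) : ZMod 2) = 0 := by decide
    rw [this, zero_mul]
  · unfold ucl
    rw [dif_neg hg]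
    rfl

theorem ucl_mul {K : Type u} [Field K] (g h : K) (hg : g ≠ 0) (hh : h ≠ 0) :
    ucl (g * h) = ucl g + ucl h := by
  unfold ucl
  rw [dif_neg hg, dif_neg hh, dif_neg (mul_ne_zero hg hh)]
  have h1 : Units.mk0 (g * h) (mul_ne_zero hg hh) = Units.mk0 g hg * Units.mk0 h hh :=
    Units.ext rfl
  rw [h1]
  unfold cl
  rw [ofMul_mul, map_add]

theorem ucl_pow_two {K : Type u} [Field K] (g : K) : ucl (g ^ 2) = 0 := by
  by_cases hg : g = 0
  · subst hg
    unfold ucl
    rw [dif_pos (by simp)]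
  · rw [pow_two, ucl_mul g g hg hg, ← two_nsmul, two_smul_zero]

theorem ucl_surj {K : Type u} [Field K] (v : V 2 K) : ∃ g : K, g ≠ 0 ∧ ucl g = v := by
  obtain ⟨x, hx⟩ := Submodule.mkQ_surjective _ v
  refine ⟨(x.toMul : K), Units.ne_zero _, ?_⟩
  unfold ucl
  rw [dif_neg (Units.ne_zero _)]
  have h1 : Units.mk0 (x.toMul : K) (Units.ne_zero _) = x.toMul := Units.ext rfl
  rw [h1]
  exact hx

end H39.KZ
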