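import Pool.Agent.H39.KZ.B10

/-!
# Job KZ-B11: functionals dual to the classes `[x - a]` and `[π]`

`K = RatFunc F`, `F = RatFunc k`.

PROOF.  `eP π`: for a monic irreducible `π ∈ F[y]` the multiplicity `P ↦ multiplicity π P` is
additive on nonzero polynomials; extend it to `K` (`n' g = mult (num g) - mult (denom g)`; or apply
`extend_pair` with `σ = RingHom.id F`, `n = multiplicity π`, `m = 0`) and take the functional of
`exists_functional_of_hom`.  For `π` not monic irreducible put `eP π = 0`.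
Values: `multiplicity π π = 1`; for another monic irreducible `π'`: `0` (`π ∤ π'`, since associated
monic polynomials are equal); for `C (x - a)` (a unit of `F[y]`): `0`.
`eA a`: the map `P ↦ (P.leadingCoeff) ∈ F` is multiplicative on `F[y]`; let
`q a : F → ℤ`, `q a f = rootMultiplicity a f.num - rootMultiplicity a f.denom`, additive on nonzero
elements (`f.num * g.num * (f g).denom = (f g).num * f.denom * g.denom`, `rootMultiplicity_mul`;
or again `extend_pair` with `σ = RingHom.id k`), and take `P ↦ q a P.leadingCoeff`, extended to `K`.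
Values: on `C (x - a')`: `q a (x - a') = 1` if `a = a'`, else `0`; on a monic `π`:
`q a 1 = 0`.
-/

set_option autoImplicit false

namespace H39.KZ

open Polynomial

universe u

lemma b11_ext {F : Type u} [Field F] (n : F[X] → ℤ)
    (hn : ∀ P Q, P ≠ 0 → Q ≠ 0 → n (P * Q) = n P + n Q) :
    ∃ n' : RatFunc F → ℤ, (∀ g h, g ≠ 0 → h ≠ 0 → n' (g * h) = n' g + n' h) ∧
      ∀ P : F[X], P ≠ 0 → n' (algebraMap F[X] (RatFunc F) P) = n P := by
  obtain ⟨n', m', h1, _, _, h4⟩ := extend_pair (RingHom.id F) n (fun _ => 0) hn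
    (fun _ _ _ _ => by simp) (fun _ _ _ _ _ => by simp)
  refine ⟨n', h1, fun P hP => ?_⟩
  rw [(h4 P hP).1, Polynomial.map_id]

lemma b11_fun {k : Type u} [Field k] (n : (RatFunc k)[X] → ℤ)
    (hn : ∀ P Q, P ≠ 0 → Q ≠ 0 → n (P * Q) = n P + n Q) :
    ∃ φ : V 2 (RatFunc (RatFunc k)) →ₗ[ZMod 2] ZMod 2, ∀ P : (RatFunc k)[X], P ≠ 0 →
      φ (ucl (algebraMap (RatFunc k)[X] (RatFunc (RatFunc k)) P)) = ((n P : ℤ) : ZMod 2) := by
  obtain ⟨n', h1, h2⟩ := b11_ext n hn
  obtain ⟨φ, hφ⟩ := exists_functional_of_hom n' h1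
  refine ⟨φ, fun P hP => ?_⟩
  rw [hφ _ ((map_ne_zero_iff _ (RatFunc.algebraMap_injective (RatFunc k))).2 hP), h2 P hP]

theorem exists_dual (k : Type u) [Field k] :
    ∃ (eP : (RatFunc k)[X] → V 2 (RatFunc (RatFunc k)) →ₗ[ZMod 2] ZMod 2)
      (eA : k → V 2 (RatFunc (RatFunc k)) →ₗ[ZMod 2] ZMod 2),
      (∀ π, π.Monic → Irreducible π → eP π (pc π) = 1) ∧
      (∀ π π', π.Monic → Irreducible π → π'.Monic → Irreducible π' → π ≠ π' →
        eP π (pc π') = 0) ∧
      (∀ π a, eP π (xa a) = 0) ∧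
      (∀ a, eA a (xa a) = 1) ∧
      (∀ a a', a ≠ a' → eA a (xa a') = 0) ∧
      (∀ a π, π.Monic → eA a (pc π) = 0) := by
  classical
  have hP : ∀ π : (RatFunc k)[X], ∃ φ : V 2 (RatFunc (RatFunc k)) →ₗ[ZMod 2] ZMod 2,
      ((π.Monic ∧ Irreducible π) → ∀ P : (RatFunc k)[X], P ≠ 0 →
        φ (ucl (algebraMap (RatFunc k)[X] (RatFunc (RatFunc k)) P)) =
          ((multiplicity π P : ℤ) : ZMod 2)) ∧
      (¬ (π.Monic ∧ Irreducible π) → φ = 0) := by
    intro π
    by_cases hπ : π.Monic ∧ Irreducible π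
    · obtain ⟨φ, hφ⟩ := b11_fun (k := k) (fun P => (multiplicity π P : ℤ)) (by
        intro P Q hP hQ
        have hfin : FiniteMultiplicity π (P * Q) :=
          FiniteMultiplicity.of_not_isUnit hπ.2.not_isUnit (mul_ne_zero hP hQ)
        rw [multiplicity_mul hπ.2.prime hfin, Nat.cast_add])
      exact ⟨φ, fun _ => hφ, fun h => absurd hπ h⟩
    · exact ⟨0, fun h => absurd h hπ, fun _ => rfl⟩
  have hA : ∀ a : k, ∃ φ : V 2 (RatFunc (RatFunc k)) →ₗ[ZMod 2] ZMod 2,
      (∀ c : k[X], c ≠ 0 → ∀ P : (RatFunc k)[X],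
        P.leadingCoeff = algebraMap k[X] (RatFunc k) c →
        φ (ucl (algebraMap (RatFunc k)[X] (RatFunc (RatFunc k)) P)) =
          ((c.rootMultiplicity a : ℤ) : ZMod 2)) := by
    intro a
    obtain ⟨q, hq1, hq2⟩ := b11_ext (F := k) (fun c => (c.rootMultiplicity a : ℤ)) (by
      intro P Q hP hQ
      rw [Polynomial.rootMultiplicity_mul (mul_ne_zero hP hQ), Nat.cast_add])
    obtain ⟨φ, hφ⟩ := b11_fun (k := k) (fun P => q P.leadingCoeff) (by
      intro P Q hP hQ
      show q (P * Q).leadingCoeff = _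
      rw [Polynomial.leadingCoeff_mul]
      exact hq1 _ _ (Polynomial.leadingCoeff_ne_zero.2 hP) (Polynomial.leadingCoeff_ne_zero.2 hQ))
    refine ⟨φ, fun c hc P hPc => ?_⟩
    have hP0 : P ≠ 0 := by
      intro h
      rw [h, Polynomial.leadingCoeff_zero] at hPc
      exact hc ((map_eq_zero_iff _ (RatFunc.algebraMap_injective k)).1 hPc.symm)
    rw [hφ P hP0]
    show ((q P.leadingCoeff : ℤ) : ZMod 2) = _
    rw [hPc, hq2 c hc]
  choose eP heP1 heP2 using hP
  choose eA heA using hA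
  have hx : ∀ a : k, (RatFunc.X - RatFunc.C a : RatFunc k) =
      algebraMap k[X] (RatFunc k) (X - C a) := by
    intro a
    rw [map_sub, RatFunc.algebraMap_X, RatFunc.algebraMap_C]
  have hx0 : ∀ a : k, (RatFunc.X - RatFunc.C a : RatFunc k) ≠ 0 := by
    intro a h
    rw [hx a] at h
    exact Polynomial.X_sub_C_ne_zero a ((map_eq_zero_iff _ (RatFunc.algebraMap_injective k)).1 h)
  refine ⟨eP, eA, ?_, ?_, ?_, ?_, ?_, ?_⟩
  · intro π h1 h2
    unfold pc
    rw [heP1 π ⟨h1, h2⟩ π h1.ne_zero, multiplicity_self]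
    rfl
  · intro π π' h1 h2 h3 h4 hne
    unfold pc
    rw [heP1 π ⟨h1, h2⟩ π' h3.ne_zero]
    have h5 : ¬ π ∣ π' := by
      intro hd
      exact hne (Polynomial.eq_of_monic_of_associated h1 h3 (h2.associated_of_dvd h4 hd))
    rw [multiplicity_eq_zero.2 h5]
    rfl
  · intro π a
    by_cases hπ : π.Monic ∧ Irreducible π
    · unfold xa
      have hC : (C (RatFunc.X - RatFunc.C a) : (RatFunc k)[X]) ≠ 0 :=
        Polynomial.C_ne_zero.2 (hx0 a)
      rw [heP1 π hπ _ hC]
      have h5 : ¬ π ∣ C (RatFunc.X - RatFunc.C a) := by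
        intro hd
        exact hπ.2.not_isUnit (isUnit_of_dvd_unit hd
          (Polynomial.isUnit_C.2 (isUnit_iff_ne_zero.2 (hx0 a))))
      rw [multiplicity_eq_zero.2 h5]
      rfl
    · rw [heP2 π hπ]
      rfl
  · intro a
    unfold xa
    rw [heA a (X - C a) (Polynomial.X_sub_C_ne_zero a) _
      (by rw [Polynomial.leadingCoeff_C]; exact hx a), Polynomial.rootMultiplicity_X_sub_C_self]
    rfl
  · intro a a' hne
    unfold xa
    rw [heA a (X - C a') (Polynomial.X_sub_C_ne_zero a') _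
      (by rw [Polynomial.leadingCoeff_C]; exact hx a'), Polynomial.rootMultiplicity_X_sub_C,
      if_neg hne]
    rfl
  · intro a π h1
    unfold pc
    rw [heA a 1 one_ne_zero π (by rw [map_one]; exact h1)]
    have h6 : (1 : k[X]).rootMultiplicity a = 0 := by
      rw [← Polynomial.C_1]; exact Polynomial.rootMultiplicity_C 1 a
    rw [h6]
    rfl

end H39.KZ
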