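import Pool.Agent.H39.KZ.B10

/-!
# Job KZ-B12: the classes `[x - a]` and `[π]` span `V 2 (k(x, y))`

PROOF.  `k` is algebraically closed.  Let `M` be the span.  By `ucl_surj`, `ucl_mul` and
`ucl (g⁻¹) = ucl g` (or `g = P / Q = P * Q / Q ^ 2`, `ucl_pow_two`) it suffices to show that
`pc P = ucl (algebraMap P) ∈ M` for every nonzero `P ∈ F[y]`, `F = RatFunc k`: every `g ≠ 0` in
`RatFunc F` is `algebraMap P / algebraMap Q` (`RatFunc.num_div_denom`).
`F[y]` is a UFD: `P = C lc * ∏ πᵢ` with monic irreducible `πᵢ`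
(`Polynomial.eq_prod_...`/`UniqueFactorizationMonoid.induction_on_prime`/`WfDvdMonoid`; or strong
induction on the degree: a nonconstant `P` has a monic irreducible factor).
Remains `ucl (algebraMap (C f)) ∈ M` for `f ∈ F`, `f ≠ 0`.  `f = p / q = p q / q²` with nonzero
`p, q ∈ k[x]`; `p q = C c * ∏ (X - aᵢ)` (`IsAlgClosed.splits`), `c = d ^ 2`
(`IsAlgClosed.exists_pow_nat_eq` or `IsAlgClosed.exists_eq_mul_self`), and
`ucl (algebraMap (C (X - C aᵢ))) = xa aᵢ`
(the image of `X - C a ∈ k[X]` in `RatFunc k` is `RatFunc.X - RatFunc.C a`).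
-/

set_option autoImplicit false

namespace H39.KZ

open Polynomial

universe u

section B12

variable {k : Type u} [Field k]

/-- the image of a polynomial in `x` in `k(x, y)` -/
noncomputable def B12e : k[X] →+* RatFunc (RatFunc k) :=
  ((algebraMap (RatFunc k)[X] (RatFunc (RatFunc k))).comp C).comp (algebraMap k[X] (RatFunc k))

lemma B12e_apply (p : k[X]) : B12e p =
    algebraMap (RatFunc k)[X] (RatFunc (RatFunc k)) (C (algebraMap k[X] (RatFunc k) p)) := rfl

lemma B12e_ne {p : k[X]} (hp : p ≠ 0) : (B12e p : RatFunc (RatFunc k)) ≠ 0 := by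
  rw [B12e_apply]
  exact (map_ne_zero_iff _ (IsFractionRing.injective (RatFunc k)[X] (RatFunc (RatFunc k)))).2
    (C_ne_zero.2 ((map_ne_zero_iff _ (IsFractionRing.injective k[X] (RatFunc k))).2 hp))

lemma B12e_linear (a : k) : ucl (B12e (X - C a : k[X])) = xa a := by
  have h : algebraMap k[X] (RatFunc k) (X - C a) = RatFunc.X - RatFunc.C a := by
    rw [map_sub, RatFunc.algebraMap_X, RatFunc.algebraMap_C]
  rw [B12e_apply, xa, h]

lemma B12e_const [IsAlgClosed k] (c : k) : ucl (B12e (C c)) = 0 := by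
  obtain ⟨d, hd⟩ := IsAlgClosed.exists_pow_nat_eq c two_pos
  rw [← hd, map_pow, map_pow]
  exact ucl_pow_two _

/-- multiplication by a square does not change the class -/
lemma B12_sq {K : Type u} [Field K] {g q : K} (hg : g ≠ 0) (hq : q ≠ 0) :
    ucl (g * q ^ 2) = ucl g := by
  rw [ucl_mul g (q ^ 2) hg (pow_ne_zero 2 hq), ucl_pow_two, add_zero]

variable [IsAlgClosed k] (M : Submodule (ZMod 2) (V 2 (RatFunc (RatFunc k))))
  (hM : ∀ a : k, xa a ∈ M) (hM' : ∀ π : (RatFunc k)[X], π.Monic → Irreducible π → pc π ∈ M)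

include hM

lemma B12_x (p : k[X]) : p ≠ 0 → ucl (B12e p) ∈ M := by
  refine UniqueFactorizationMonoid.induction_on_prime p (fun h => absurd rfl h) ?_ ?_
  · intro x hx _
    obtain ⟨c, -, rfl⟩ := Polynomial.isUnit_iff.1 hx
    rw [B12e_const]
    exact M.zero_mem
  · intro a q ha hq ih hqa
    have hq0 : q ≠ 0 := hq.ne_zero
    rw [map_mul, ucl_mul _ _ (B12e_ne hq0) (B12e_ne ha)]
    refine M.add_mem ?_ (ih ha)
    have hd := IsAlgClosed.degree_eq_one_of_irreducible k hq.irreducible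
    have hq1 : q = C (q.coeff 1) * X + C (q.coeff 0) := Polynomial.eq_X_add_C_of_degree_le_one hd.le
    have hc : q.coeff 1 ≠ 0 := by
      intro h
      have h1 : q.natDegree = 1 := Polynomial.natDegree_eq_of_degree_eq_some hd
      exact hq0 (Polynomial.leadingCoeff_eq_zero.1 (by rw [Polynomial.leadingCoeff, h1, h]))
    have hq2 : q = C (q.coeff 1) * (X - C (-(q.coeff 0) / q.coeff 1)) := by
      conv_lhs => rw [hq1]
      rw [mul_sub, ← C_mul, mul_div_cancel₀ _ hc, C_neg, sub_neg_eq_add]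
    rw [hq2, map_mul, ucl_mul _ _ (B12e_ne (C_ne_zero.2 hc)) (B12e_ne (X_sub_C_ne_zero _)),
      B12e_const, zero_add, B12e_linear]
    exact hM _

lemma B12_C (f : RatFunc k) (hf : f ≠ 0) :
    ucl (algebraMap (RatFunc k)[X] (RatFunc (RatFunc k)) (C f)) ∈ M := by
  have hd : f.denom ≠ 0 := RatFunc.denom_ne_zero f
  have hn : f.num ≠ 0 := RatFunc.num_ne_zero hf
  have hd' : algebraMap k[X] (RatFunc k) f.denom ≠ 0 :=
    (map_ne_zero_iff _ (IsFractionRing.injective k[X] (RatFunc k))).2 hd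
  have hf' : algebraMap (RatFunc k)[X] (RatFunc (RatFunc k)) (C f) ≠ 0 :=
    (map_ne_zero_iff _ (IsFractionRing.injective (RatFunc k)[X] (RatFunc (RatFunc k)))).2
      (C_ne_zero.2 hf)
  rw [← B12_sq hf' (B12e_ne hd)]
  have h1 : algebraMap (RatFunc k)[X] (RatFunc (RatFunc k)) (C f) * B12e f.denom ^ 2 =
      B12e (f.num * f.denom) := by
    rw [B12e_apply, B12e_apply, ← map_pow, ← map_mul, ← C_pow, ← C_mul]
    congr 2
    have h2 := (div_eq_iff hd').1 (RatFunc.num_div_denom f)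
    rw [map_mul, h2]
    ring
  rw [h1]
  exact B12_x M hM _ (mul_ne_zero hn hd)

include hM'

lemma B12_y (P : (RatFunc k)[X]) : P ≠ 0 → pc P ∈ M := by
  have hinj := IsFractionRing.injective (RatFunc k)[X] (RatFunc (RatFunc k))
  refine UniqueFactorizationMonoid.induction_on_prime P (fun h => absurd rfl h) ?_ ?_
  · intro x hx _
    obtain ⟨c, hc, rfl⟩ := Polynomial.isUnit_iff.1 hx
    exact B12_C M hM c hc.ne_zero
  · intro a q ha hq ih hqa
    have hq0 : q ≠ 0 := hq.ne_zero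
    have hne : ∀ r : (RatFunc k)[X], r ≠ 0 →
        algebraMap (RatFunc k)[X] (RatFunc (RatFunc k)) r ≠ 0 := fun r hr =>
      (map_ne_zero_iff _ hinj).2 hr
    have hlc : q.leadingCoeff ≠ 0 := leadingCoeff_ne_zero.2 hq0
    have e1 : pc (q * a) = pc q + pc a := by
      rw [pc, map_mul, ucl_mul _ _ (hne q hq0) (hne a ha)]
      rfl
    rw [e1]
    refine M.add_mem ?_ (ih ha)
    have hmon : (q * C q.leadingCoeff⁻¹).Monic := monic_mul_leadingCoeff_inv hq0
    have hirr : Irreducible (q * C q.leadingCoeff⁻¹) :=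
      irreducible_mul_leadingCoeff_inv.2 hq.irreducible
    have e2 : q = (q * C q.leadingCoeff⁻¹) * C q.leadingCoeff := by
      rw [mul_assoc, ← C_mul, inv_mul_cancel₀ hlc, C_1, mul_one]
    have e3 : pc q = pc (q * C q.leadingCoeff⁻¹) + pc (C q.leadingCoeff) := by
      conv_lhs => rw [e2]
      rw [pc, map_mul, ucl_mul _ _ (hne _ hirr.ne_zero) (hne _ (C_ne_zero.2 hlc))]
      rfl
    rw [e3]
    exact M.add_mem (hM' _ hmon hirr) (B12_C M hM _ hlc)

lemma B12_all (v : V 2 (RatFunc (RatFunc k))) : v ∈ M := by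
  obtain ⟨g, hg, rfl⟩ := ucl_surj v
  have hd : g.denom ≠ 0 := RatFunc.denom_ne_zero g
  have hn : g.num ≠ 0 := RatFunc.num_ne_zero hg
  have hd' : algebraMap (RatFunc k)[X] (RatFunc (RatFunc k)) g.denom ≠ 0 :=
    (map_ne_zero_iff _ (IsFractionRing.injective (RatFunc k)[X] (RatFunc (RatFunc k)))).2 hd
  rw [← B12_sq hg hd']
  have h1 : g * algebraMap (RatFunc k)[X] (RatFunc (RatFunc k)) g.denom ^ 2 =
      algebraMap (RatFunc k)[X] (RatFunc (RatFunc k)) (g.num * g.denom) := by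
    have hd1 : algebraMap (RatFunc k)[X] (RatFunc (RatFunc k)) g.denom ≠ 0 := hd'
    have h2 := (div_eq_iff hd1).1 (RatFunc.num_div_denom g)
    rw [map_mul, h2]
    ring
  rw [h1]
  exact B12_y M hM hM' _ (mul_ne_zero hn hd)

end B12

theorem span_basis (k : Type u) [Field k] [IsAlgClosed k] (v : V 2 (RatFunc (RatFunc k))) :
    v ∈ Submodule.span (ZMod 2) (Set.range (xa (k := k)) ∪
      {w | ∃ π : (RatFunc k)[X], π.Monic ∧ Irreducible π ∧ w = pc π}) := by
  refine B12_all _ (fun a => Submodule.subset_span (Or.inl ⟨a, rfl⟩)) (fun π h1 h2 =>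
    Submodule.subset_span (Or.inr ⟨π, h1, h2, rfl⟩)) v

end H39.KZ
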