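import Pool.Agent.H39.KZ.B11
import Pool.Agent.H39.KZ.B12

/-!
# Job KZ-B13: coverage of a finite set

PROOF.  Let `eP, eA` be given with the duality relations.  By `span_basis` each `s ∈ S` is a finite
linear combination of `xa a`, `a ∈ A(s)`, and `pc π`, `π ∈ P(s)` (`Finsupp.mem_span_...`,
`Submodule.span_induction`: prove by induction the statement
`∃ A P finite (P consisting of monic irreducible polynomials), ∀ A' ⊇ A, P' ⊇ P (P' monic
irreducible), s = ∑_{a ∈ A'} eA a s • xa a + ∑_{π ∈ P'} eP π s • pc π`: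
for `s = xa a₀`: `A = {a₀}`, `P = ∅`: the sum has only the term `a = a₀` by duality; for `s = pc π₀`
the same; sums: unions; scalar multiples; zero).
Then take the unions over `s ∈ S` (finite).
-/

set_option autoImplicit false

namespace H39.KZ

open Polynomial

universe u

theorem coverage (k : Type u) [Field k] [IsAlgClosed k]
    (eP : (RatFunc k)[X] → V 2 (RatFunc (RatFunc k)) →ₗ[ZMod 2] ZMod 2)
    (eA : k → V 2 (RatFunc (RatFunc k)) →ₗ[ZMod 2] ZMod 2)
    (h1 : ∀ π, π.Monic → Irreducible π → eP π (pc π) = 1)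
    (h2 : ∀ π π', π.Monic → Irreducible π → π'.Monic → Irreducible π' → π ≠ π' →
        eP π (pc π') = 0)
    (h3 : ∀ π a, eP π (xa a) = 0)
    (h4 : ∀ a, eA a (xa a) = 1)
    (h5 : ∀ a a', a ≠ a' → eA a (xa a') = 0)
    (h6 : ∀ a π, π.Monic → eA a (pc π) = 0)
    (S : Set (V 2 (RatFunc (RatFunc k)))) (hS : S.Finite) :
    ∃ (Bs₀ : Finset k) (P₀ : Finset (RatFunc k)[X]), (∀ π ∈ P₀, π.Monic ∧ Irreducible π) ∧
      ∀ (Bs : Finset k) (Pi : Finset (RatFunc k)[X]), Bs₀ ⊆ Bs → P₀ ⊆ Pi →
        (∀ π ∈ Pi, π.Monic ∧ Irreducible π) →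
        ∀ s ∈ S, s = ∑ a ∈ Bs, eA a s • xa a + ∑ π ∈ Pi, eP π s • pc π := by
  classical
  have key : ∀ s : V 2 (RatFunc (RatFunc k)),
      ∃ (Bs₀ : Finset k) (P₀ : Finset (RatFunc k)[X]), (∀ π ∈ P₀, π.Monic ∧ Irreducible π) ∧
      ∀ (Bs : Finset k) (Pi : Finset (RatFunc k)[X]), Bs₀ ⊆ Bs → P₀ ⊆ Pi →
        (∀ π ∈ Pi, π.Monic ∧ Irreducible π) →
        s = ∑ a ∈ Bs, eA a s • xa a + ∑ π ∈ Pi, eP π s • pc π := by
    intro s
    induction span_basis k s using Submodule.span_induction with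
    | mem x hx =>
      rcases hx with ⟨a₀, rfl⟩ | ⟨π₀, hm, hi, rfl⟩
      · refine ⟨{a₀}, ∅, by simp, ?_⟩
        intro Bs Pi hB _ _
        have e1 : ∑ a ∈ Bs, eA a (xa a₀) • xa a = xa a₀ := by
          rw [Finset.sum_eq_single a₀]
          · rw [h4, one_smul]
          · intro b _ hb
            rw [h5 b a₀ hb, zero_smul]
          · intro h
            exact absurd (hB (Finset.mem_singleton_self _)) h
        have e2 : ∑ π ∈ Pi, eP π (xa a₀) • pc π = 0 :=
          Finset.sum_eq_zero fun π _ => by rw [h3, zero_smul]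
        rw [e1, e2, add_zero]
      · refine ⟨∅, {π₀}, by simpa using ⟨hm, hi⟩, ?_⟩
        intro Bs Pi _ hP hPi
        have e1 : ∑ a ∈ Bs, eA a (pc π₀) • xa a = 0 :=
          Finset.sum_eq_zero fun a _ => by rw [h6 a π₀ hm, zero_smul]
        have e2 : ∑ π ∈ Pi, eP π (pc π₀) • pc π = pc π₀ := by
          rw [Finset.sum_eq_single π₀]
          · rw [h1 π₀ hm hi, one_smul]
          · intro b hb hne
            rw [h2 b π₀ (hPi b hb).1 (hPi b hb).2 hm hi hne, zero_smul]
          · intro h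
            exact absurd (hP (Finset.mem_singleton_self _)) h
        rw [e1, e2, zero_add]
    | zero =>
      refine ⟨∅, ∅, by simp, ?_⟩
      intro Bs Pi _ _ _
      simp
    | add x y _ _ hx hy =>
      obtain ⟨A, P, hP, h⟩ := hx
      obtain ⟨A', P', hP', h'⟩ := hy
      refine ⟨A ∪ A', P ∪ P', ?_, ?_⟩
      · intro π hπ
        rcases Finset.mem_union.1 hπ with h0 | h0
        · exact hP π h0
        · exact hP' π h0
      · intro Bs Pi hB hPi hmi
        have e1 := h Bs Pi (Finset.union_subset_left hB) (Finset.union_subset_left hPi) hmi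
        have e2 := h' Bs Pi (Finset.union_subset_right hB) (Finset.union_subset_right hPi) hmi
        simp only [map_add, add_smul, Finset.sum_add_distrib]
        conv_lhs => rw [e1, e2]
        abel
    | smul c x _ hx =>
      obtain ⟨A, P, hP, h⟩ := hx
      refine ⟨A, P, hP, ?_⟩
      intro Bs Pi hB hPi hmi
      have e1 := h Bs Pi hB hPi hmi
      simp only [map_smul, smul_eq_mul, mul_smul]
      rw [← Finset.smul_sum, ← Finset.smul_sum, ← smul_add]
      exact congrArg (c • ·) e1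
  choose A P hP hA using key
  refine ⟨hS.toFinset.biUnion A, hS.toFinset.biUnion P, ?_, ?_⟩
  · intro π hπ
    obtain ⟨s, _, hs⟩ := Finset.mem_biUnion.1 hπ
    exact hP s π hs
  · intro Bs Pi hB hPi hmi s hs
    have hs' : s ∈ hS.toFinset := by simpa using hs
    exact hA s Bs Pi ((Finset.subset_biUnion_of_mem A hs').trans hB)
      ((Finset.subset_biUnion_of_mem P hs').trans hPi) hmi

end H39.KZ
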