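import Pool.Agent.H39.KZ.B0

/-!
# Job KZ-B14: the irreducible factors over the completion

`σ : F →+* L` is a homomorphism of fields, `F` of characteristic zero.

PROOF.  (`F` has characteristic zero, so irreducible polynomials are separable:
`Irreducible.separable`.)  Let `G = ∏_{π ∈ Pi} π`: a product of distinct monic irreducible
polynomials; it is separable (`Polynomial.separable_prod'`/`Separable.mul`, pairwise coprime).
So `G.map σ` is separable (`Polynomial.Separable.map`), hence squarefree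
(`Polynomial.Separable.squarefree`).
Let `R = (UniqueFactorizationMonoid.normalizedFactors (G.map σ)).toFinset`; its elements are
normalized, i.e. monic (`Polynomial.Monic.normalize_eq_self`, `monic_normalize`...), and
irreducible.
 (1) ok.  (2) `ρ ∣ G.map σ = ∏ π.map σ` and `ρ` is prime.
 (3) if `π ≠ π'` then `π, π'` are coprime, and so are `π.map σ`, `π'.map σ` (`IsCoprime.map`): no
     common irreducible divisor.
 (4) `π.map σ` is monic, squarefree: it is the product of its normalized factors (`normalize` of a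
     monic polynomial is itself, `UniqueFactorizationMonoid.prod_normalizedFactors_eq`),
     which is a multiset without repetitions, whose elements are exactly the `ρ ∈ R` with
     `ρ ∣ π.map σ` (`mem_normalizedFactors_iff'`; every monic irreducible divisor of `π.map σ`
     divides `G.map σ`, thus belongs to `R`).
 (5) a monic irreducible divisor of `π.map σ` divides `G.map σ`, so it is in `R`.
-/

set_option autoImplicit false

namespace H39.KZ

open Polynomial

open Classical in
theorem exists_factors {F L : Type*} [Field F] [CharZero F] [Field L] (σ : F →+* L)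
    (Pi : Finset F[X]) (hPi : ∀ π ∈ Pi, π.Monic ∧ Irreducible π) :
    ∃ R : Finset L[X], (∀ ρ ∈ R, ρ.Monic ∧ Irreducible ρ) ∧
      (∀ ρ ∈ R, ∃ π ∈ Pi, ρ ∣ π.map σ) ∧
      (∀ ρ ∈ R, ∀ π ∈ Pi, ∀ π' ∈ Pi, ρ ∣ π.map σ → ρ ∣ π'.map σ → π = π') ∧
      (∀ π ∈ Pi, π.map σ = ∏ ρ ∈ R.filter (fun ρ => ρ ∣ π.map σ), ρ) ∧
      (∀ π ∈ Pi, ∀ ρ : L[X], ρ.Monic → Irreducible ρ → ρ ∣ π.map σ → ρ ∈ R) := by
  have hmon : ∀ π ∈ Pi, (π.map σ).Monic := fun π hπ => (hPi π hπ).1.map σ
  have hne : ∀ π ∈ Pi, π.map σ ≠ 0 := fun π hπ => (hmon π hπ).ne_zero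
  have hmem : ∀ π ∈ Pi, ∀ ρ : L[X], ρ ∈ UniqueFactorizationMonoid.normalizedFactors (π.map σ) ↔
      ρ.Monic ∧ Irreducible ρ ∧ ρ ∣ π.map σ := by
    intro π hπ ρ
    rw [UniqueFactorizationMonoid.mem_normalizedFactors_iff' (hne π hπ)]
    constructor
    · rintro ⟨h1, h2, h3⟩
      refine ⟨?_, h1, h3⟩
      rw [← h2]
      exact Polynomial.monic_normalize h1.ne_zero
    · rintro ⟨h1, h2, h3⟩
      exact ⟨h2, h1.normalize_eq_self, h3⟩
  let R : Finset L[X] := Pi.biUnion fun π =>
    (UniqueFactorizationMonoid.normalizedFactors (π.map σ)).toFinset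
  have hR : ∀ ρ : L[X], ρ ∈ R ↔ ∃ π ∈ Pi, ρ.Monic ∧ Irreducible ρ ∧ ρ ∣ π.map σ := by
    intro ρ
    simp only [R, Finset.mem_biUnion, Multiset.mem_toFinset]
    constructor
    · rintro ⟨π, hπ, h⟩
      exact ⟨π, hπ, (hmem π hπ ρ).1 h⟩
    · rintro ⟨π, hπ, h⟩
      exact ⟨π, hπ, (hmem π hπ ρ).2 h⟩
  refine ⟨R, ?_, ?_, ?_, ?_, ?_⟩
  · intro ρ hρ
    obtain ⟨π, hπ, h1, h2, h3⟩ := (hR ρ).1 hρ
    exact ⟨h1, h2⟩
  · intro ρ hρ
    obtain ⟨π, hπ, h1, h2, h3⟩ := (hR ρ).1 hρ
    exact ⟨π, hπ, h3⟩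
  · intro ρ hρ π hπ π' hπ' h h'
    obtain ⟨_, _, _, hirr, _⟩ := (hR ρ).1 hρ
    by_contra hne'
    have hcop : IsCoprime π π' := by
      rcases (hPi π hπ).2.isCoprime_or_dvd π' with h1 | h1
      · exact h1
      · exfalso
        apply hne'
        have h2 := (hPi π hπ).2.dvd_irreducible_iff_associated (hPi π' hπ').2 |>.1 h1
        exact Polynomial.eq_of_monic_of_associated (hPi π hπ).1 (hPi π' hπ').1 h2
    have hcop' : IsCoprime (π.map σ) (π'.map σ) := by
      have := hcop.map (Polynomial.mapRingHom σ)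
      simpa using this
    exact hirr.not_isUnit (hcop'.isUnit_of_dvd' h h')
  · intro π hπ
    have hsq : Squarefree (π.map σ) :=
      ((hPi π hπ).2.separable.map (f := σ)).squarefree
    have hnd := (UniqueFactorizationMonoid.squarefree_iff_nodup_normalizedFactors (hne π hπ)).1 hsq
    have hfil : R.filter (fun ρ => ρ ∣ π.map σ) =
        (UniqueFactorizationMonoid.normalizedFactors (π.map σ)).toFinset := by
      ext ρ
      rw [Finset.mem_filter, Multiset.mem_toFinset, hmem π hπ ρ, hR]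
      constructor
      · rintro ⟨⟨π', hπ', h1, h2, h3⟩, h4⟩
        exact ⟨h1, h2, h4⟩
      · rintro ⟨h1, h2, h3⟩
        exact ⟨⟨π, hπ, h1, h2, h3⟩, h3⟩
    rw [hfil]
    have h1 : (∏ ρ ∈ (UniqueFactorizationMonoid.normalizedFactors (π.map σ)).toFinset, ρ) =
        (UniqueFactorizationMonoid.normalizedFactors (π.map σ)).prod := by
      rw [Finset.prod_eq_multiset_prod, Multiset.toFinset_val, Multiset.dedup_eq_self.2 hnd,
        Multiset.map_id']
    rw [h1, UniqueFactorizationMonoid.prod_normalizedFactors_eq (hne π hπ),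
      (hmon π hπ).normalize_eq_self]
  · intro π hπ ρ h1 h2 h3
    exact (hR ρ).2 ⟨π, hπ, h1, h2, h3⟩

end H39.KZ
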