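import Pool.Agent.H39.KZ.B5

/-!
# Job KZ-B15: degrees and resultants in terms of the factors

Data as in `exists_factors` (file B14) with `L = LaurentSeries k`.  `Dm σ ρ π = 1` if `ρ ∣ π.map σ`
and `0` otherwise.  Throughout, `∑_{ρ ∈ R} Dm σ ρ π * c ρ = ∑_{ρ ∈ R, ρ ∣ π^σ} c ρ`
(`Finset.sum_filter`, `ite_mul`).

(1) `deg_eq`: `natDegree π = natDegree (π.map σ) = ∑_{ρ ∈ R, ρ ∣ π^σ} natDegree ρ`
    (`Polynomial.natDegree_prod_of_monic`), reduce mod `2`.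
(2) `rord_eq`, `π ≠ π'`: `σ (resultant π π') = resultant (π.map σ) (π'.map σ)`
    (`Polynomial.resultant_map_map`, `natDegree_map`)
    `= ∏_{ρ ∣ π^σ} resultant ρ (π'^σ) = ∏_{ρ ∣ π^σ} ∏_{z ∣ π'^σ} resultant ρ z`
    (`Polynomial.resultant_prod_left`, `resultant_prod_right`; everything is monic).  All factors are
    nonzero: `ρ ≠ z` by `h3`, both monic irreducible, so coprime (`Polynomial.resultant_ne_zero`).
    The order of a product of nonzero elements is the sum of the orders (`HahnSeries.order_mul`,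
    `Finset.prod_induction` or induction).  `π = π'`: the left side is `0` by definition, the right
    side is `0` by symmetry; this is `rr_self` (file B8), here given as hypothesis `hrr`.
(3) `res_of_not_dvd`: `ρ ∈ R`, `¬ ρ ∣ π^σ`: `resultant ρ (π^σ) = ∏_{z ∣ π^σ} resultant ρ z`, take
    orders.
(4) `res_of_dvd`: `ρ ∈ R`, `ρ ∣ π^σ`: `π^σ = ρ ^ 1 * Q`, `Q = ∏_{z ∈ R, z ∣ π^σ, z ≠ ρ} z`,
    `¬ ρ ∣ Q` (`ρ` prime, `ρ ∣ z` implies `ρ = z`), and
    `order (resultant ρ Q) = ∑_{z ≠ ρ} order (resultant ρ z)`; mod `2` this is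
    `∑_{z ∈ R} Imod ρ z * Dm σ z π` since `Imod ρ ρ = 0` (`Imod_self`).
(5) `res_C`: `resultant ρ (C c) = c ^ natDegree ρ` for `ρ` monic
    (`Polynomial.resultant_C_zero_right`, `natDegree_C`), order `= natDegree ρ * order c`
    (`c ≠ 0`, `HahnSeries.order_pow`).
-/

set_option autoImplicit false

namespace H39.KZ

open Polynomial

universe u

open Classical in
/-- `1` if `ρ` divides `π` over the completion, `0` otherwise. -/
noncomputable def Dm {k : Type u} [Field k] (σ : RatFunc k →+* LaurentSeries k)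
    (ρ : (LaurentSeries k)[X]) (π : (RatFunc k)[X]) : ZMod 2 :=
  if ρ ∣ π.map σ then 1 else 0

section aux15

variable {k : Type u} [Field k]

/-- order of a product of nonzero Laurent series -/
lemma b15_order_prod {ι : Type*} (s : Finset ι) (f : ι → LaurentSeries k)
    (h : ∀ i ∈ s, f i ≠ 0) : (∏ i ∈ s, f i).order = ∑ i ∈ s, (f i).order := by
  classical
  induction s using Finset.induction with
  | empty => simp
  | insert a s ha ih =>
    have h2 : ∀ i ∈ s, f i ≠ 0 := fun i hi => h i (Finset.mem_insert_of_mem hi)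
    rw [Finset.prod_insert ha, Finset.sum_insert ha,
      HahnSeries.order_mul (h a (Finset.mem_insert_self a s))
        (Finset.prod_ne_zero_iff.mpr h2), ih h2]

lemma b15_coprime {x y : (LaurentSeries k)[X]} (hx : x.Monic ∧ Irreducible x)
    (hy : y.Monic ∧ Irreducible y) (hne : x ≠ y) : IsCoprime x y := by
  refine (hx.2.coprime_iff_not_dvd).mpr fun hd => hne ?_
  exact eq_of_monic_of_associated hx.1 hy.1 (hx.2.associated_of_dvd hy.2 hd)

lemma b15_monic (s : Finset (LaurentSeries k)[X]) (hs : ∀ z ∈ s, z.Monic ∧ Irreducible z) :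
    ∏ z ∈ s, z.leadingCoeff ≠ 0 :=
  Finset.prod_ne_zero_iff.mpr fun z hz => by rw [(hs z hz).1.leadingCoeff]; exact one_ne_zero

lemma b15_res_right (s : Finset (LaurentSeries k)[X]) (hs : ∀ z ∈ s, z.Monic ∧ Irreducible z)
    (ρ : (LaurentSeries k)[X]) (hρ : ρ.Monic ∧ Irreducible ρ) (hn : ρ ∉ s) :
    resultant ρ (∏ z ∈ s, z) ≠ 0 ∧
      (resultant ρ (∏ z ∈ s, z)).order = ∑ z ∈ s, (resultant ρ z).order := by
  have h0 : ∀ z ∈ s, resultant ρ z ≠ 0 := fun z hz =>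
    resultant_ne_zero _ _ (b15_coprime hρ (hs z hz) (fun h => hn (h ▸ hz)))
  rw [resultant_prod_right s ρ (fun z => z) _ le_rfl (b15_monic s hs)]
  exact ⟨Finset.prod_ne_zero_iff.mpr h0, b15_order_prod s _ h0⟩

lemma b15_res_left (s : Finset (LaurentSeries k)[X]) (hs : ∀ z ∈ s, z.Monic ∧ Irreducible z)
    (g : (LaurentSeries k)[X]) (h0 : ∀ ρ ∈ s, resultant ρ g ≠ 0) :
    (resultant (∏ ρ ∈ s, ρ) g).order = ∑ ρ ∈ s, (resultant ρ g).order := by
  rw [resultant_prod_left s (fun z => z) g _ (b15_monic s hs) le_rfl]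
  exact b15_order_prod s _ h0

end aux15

section

variable {k : Type u} [Field k] (σ : RatFunc k →+* LaurentSeries k)
    (Pi : Finset (RatFunc k)[X]) (hPi : ∀ π ∈ Pi, π.Monic ∧ Irreducible π)
    (R : Finset (LaurentSeries k)[X]) (h1 : ∀ ρ ∈ R, ρ.Monic ∧ Irreducible ρ)
    (h3 : ∀ ρ ∈ R, ∀ π ∈ Pi, ∀ π' ∈ Pi, ρ ∣ π.map σ → ρ ∣ π'.map σ → π = π')

include hPi h1

open Classical in
theorem deg_eq (h4 : ∀ π ∈ Pi, π.map σ = ∏ ρ ∈ R.filter (fun ρ => ρ ∣ π.map σ), ρ)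
    (π : (RatFunc k)[X]) (hπ : π ∈ Pi) :
    (π.natDegree : ZMod 2) = ∑ ρ ∈ R, Nmod ρ * Dm σ ρ π := by
  have hd : π.natDegree = ∑ ρ ∈ R.filter (fun ρ => ρ ∣ π.map σ), ρ.natDegree := by
    rw [← natDegree_map (f := σ) (p := π)]
    conv_lhs => rw [h4 π hπ]
    exact natDegree_prod_of_monic _ _ fun ρ hρ => (h1 ρ (Finset.mem_filter.mp hρ).1).1
  rw [hd, Nat.cast_sum, Finset.sum_filter]
  refine Finset.sum_congr rfl fun ρ _ => ?_
  unfold Dm Nmod
  split_ifs <;> simp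

include h3 in
open Classical in
theorem rord_eq (h4 : ∀ π ∈ Pi, π.map σ = ∏ ρ ∈ R.filter (fun ρ => ρ ∣ π.map σ), ρ)
    (hrr : ∀ w : (LaurentSeries k)[X] → ZMod 2, ∑ ρ ∈ R, ∑ z ∈ R, w ρ * w z * Imod ρ z = 0)
    (π π' : (RatFunc k)[X]) (hπ : π ∈ Pi) (hπ' : π' ∈ Pi) :
    rord σ π π' = ∑ ρ ∈ R, ∑ z ∈ R, Dm σ ρ π * Dm σ z π' * Imod ρ z := by
  unfold rord
  split_ifs with hne
  · subst hne
    exact (hrr (fun ρ => Dm σ ρ π)).symm
  have hS : ∀ (τ : (RatFunc k)[X]), ∀ z ∈ R.filter (fun ρ => ρ ∣ τ.map σ),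
      z.Monic ∧ Irreducible z := fun τ z hz => h1 z (Finset.mem_filter.mp hz).1
  have hnot : ∀ ρ ∈ R.filter (fun ρ => ρ ∣ π.map σ), ρ ∉ R.filter (fun ρ => ρ ∣ π'.map σ) := by
    intro ρ hρ hρ'
    rw [Finset.mem_filter] at hρ hρ'
    exact hne (h3 ρ hρ.1 π hπ π' hπ' hρ.2 hρ'.2)
  have e1 : σ (resultant π π') = resultant (∏ ρ ∈ R.filter (fun ρ => ρ ∣ π.map σ), ρ)
      (∏ ρ ∈ R.filter (fun ρ => ρ ∣ π'.map σ), ρ) := by
    rw [← h4 π hπ, ← h4 π' hπ', natDegree_map, natDegree_map, resultant_map_map]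
  have e2 : (σ (resultant π π')).order = ∑ ρ ∈ R.filter (fun ρ => ρ ∣ π.map σ),
      ∑ z ∈ R.filter (fun ρ => ρ ∣ π'.map σ), (resultant ρ z).order := by
    rw [e1, b15_res_left _ (hS π) _ fun ρ hρ =>
      (b15_res_right _ (hS π') ρ (hS π ρ hρ) (hnot ρ hρ)).1]
    exact Finset.sum_congr rfl fun ρ hρ =>
      (b15_res_right _ (hS π') ρ (hS π ρ hρ) (hnot ρ hρ)).2
  rw [e2]
  push_cast
  rw [Finset.sum_filter]
  refine Finset.sum_congr rfl fun ρ _ => ?_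
  by_cases hd : ρ ∣ π.map σ
  · rw [if_pos hd, Finset.sum_filter]
    refine Finset.sum_congr rfl fun z _ => ?_
    unfold Dm Imod
    rw [if_pos hd]
    split_ifs <;> simp
  · rw [if_neg hd]
    symm
    refine Finset.sum_eq_zero fun z _ => ?_
    unfold Dm
    rw [if_neg hd]
    simp

open Classical in
theorem res_of_not_dvd (h4 : ∀ π ∈ Pi, π.map σ = ∏ ρ ∈ R.filter (fun ρ => ρ ∣ π.map σ), ρ)
    (ρ : (LaurentSeries k)[X]) (hρ : ρ ∈ R) (π : (RatFunc k)[X]) (hπ : π ∈ Pi)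
    (hd : ¬ ρ ∣ π.map σ) :
    ((resultant ρ (π.map σ)).order : ZMod 2) = ∑ z ∈ R, Imod ρ z * Dm σ z π := by
  have hS : ∀ z ∈ R.filter (fun ρ => ρ ∣ π.map σ), z.Monic ∧ Irreducible z :=
    fun z hz => h1 z (Finset.mem_filter.mp hz).1
  have e : (resultant ρ (π.map σ)).order =
      ∑ z ∈ R.filter (fun ρ => ρ ∣ π.map σ), (resultant ρ z).order := by
    have h5 := (b15_res_right _ hS ρ (h1 ρ hρ) fun h => hd (Finset.mem_filter.mp h).2).2
    rwa [← h4 π hπ] at h5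
  rw [e]
  push_cast
  rw [Finset.sum_filter]
  refine Finset.sum_congr rfl fun z _ => ?_
  unfold Dm Imod
  split_ifs <;> simp

open Classical in
theorem res_of_dvd (h4 : ∀ π ∈ Pi, π.map σ = ∏ ρ ∈ R.filter (fun ρ => ρ ∣ π.map σ), ρ)
    (ρ : (LaurentSeries k)[X]) (hρ : ρ ∈ R) (π : (RatFunc k)[X]) (hπ : π ∈ Pi)
    (hd : ρ ∣ π.map σ) :
    ∃ Q : (LaurentSeries k)[X], π.map σ = ρ ^ 1 * Q ∧ ¬ ρ ∣ Q ∧
      ((resultant ρ Q).order : ZMod 2) = ∑ z ∈ R, Imod ρ z * Dm σ z π := by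
  have hmem : ρ ∈ R.filter (fun ρ => ρ ∣ π.map σ) := Finset.mem_filter.mpr ⟨hρ, hd⟩
  have hS : ∀ z ∈ (R.filter (fun ρ => ρ ∣ π.map σ)).erase ρ, z.Monic ∧ Irreducible z :=
    fun z hz => h1 z (Finset.mem_filter.mp (Finset.mem_of_mem_erase hz)).1
  refine ⟨∏ z ∈ (R.filter (fun ρ => ρ ∣ π.map σ)).erase ρ, z, ?_, ?_, ?_⟩
  · rw [pow_one, Finset.mul_prod_erase _ (fun z => z) hmem]
    exact h4 π hπ
  · intro hdv
    obtain ⟨z, hz, hz2⟩ := ((h1 ρ hρ).2.prime.dvd_finset_prod_iff _).mp hdv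
    have h6 : ρ = z := eq_of_monic_of_associated (h1 ρ hρ).1 (hS z hz).1
      ((h1 ρ hρ).2.associated_of_dvd (hS z hz).2 hz2)
    exact Finset.ne_of_mem_erase hz h6.symm
  · rw [(b15_res_right _ hS ρ (h1 ρ hρ) (Finset.notMem_erase ρ _)).2]
    push_cast
    have e1 : ∑ z ∈ (R.filter (fun ρ => ρ ∣ π.map σ)).erase ρ,
        (((resultant ρ z).order : ℤ) : ZMod 2)
        = ∑ z ∈ R.filter (fun ρ => ρ ∣ π.map σ), (((resultant ρ z).order : ℤ) : ZMod 2) := by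
      rw [← Finset.add_sum_erase _ _ hmem]
      have h0 : (((resultant ρ ρ).order : ℤ) : ZMod 2) = 0 := Imod_self ρ
      rw [h0, zero_add]
    rw [e1, Finset.sum_filter]
    refine Finset.sum_congr rfl fun z _ => ?_
    unfold Dm Imod
    split_ifs <;> simp

end

theorem res_C {k : Type u} [Field k] (ρ : (LaurentSeries k)[X]) (hm : ρ.Monic)
    (c : LaurentSeries k) (hc : c ≠ 0) :
    (resultant ρ (C c)).order = ρ.natDegree * c.order := by
  rw [natDegree_C, resultant_C_zero_right, HahnSeries.order_pow, nsmul_eq_mul]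

end H39.KZ
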