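import Pool.Agent.H39.KZ.B0

/-!
# Job KZ-B8: the local identity

Data: a finite set `R`, symmetric `I` with zero diagonal, `N`, `D : α → Pi → ZMod 2` such that
every `ρ ∈ R` has exactly one `π` with `D ρ π ≠ 0` (and this value is `1`), `o : A → ZMod 2`.
`vt = ∑ₐ o a X_a`, `v ρ = ∑_π D ρ π X_π` (so `v ρ = X_π` if `D ρ π = 1`),
`nval ρ (inl a) = 0`, `nval ρ (inr π) = D ρ π`,
`mval ρ (inl a) = N ρ * o a`, `mval ρ (inr π) = ∑_{z ∈ R} I ρ z * D z π`.

PROOF (characteristic two).  `∑ⱼ Xⱼ mval ρ j = N ρ • vt + ∑_z I ρ z • v z = λ_ρ`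
(`Fintype.sum_sum_type`), `∑ⱼ Xⱼ nval ρ j = v ρ`.  So the left hand side is
`LHS = ∑_ρ (nval ρ i • λ_ρ + mval ρ i • v ρ) * ψ ρ`.
 * `i = inl a`: `LHS = o a • ∑_ρ N ρ • (v ρ * ψ ρ) = 0` (`h.tgt`).
 * `i = inr π`: let `w ρ = D ρ π`.  Multiply `h.loc ρ` by `w ρ` and sum over `ρ ∈ R`; with
   `ψ_t = f(λ_t, vt)`:
   `∑_ρ w ρ (λ_ρ ψ_ρ) + (∑_ρ N ρ w ρ) vt ψ_t + ∑_ρ ∑_z w ρ I ρ z v_z ψ_z = ∑_ρ w ρ b(v ρ, λ_ρ)`.
   By symmetry of `I` the double sum is `∑_z (∑_ρ I z ρ w ρ) v_z ψ_z = ∑_z mval z (inr π) v_z ψ_z`.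
   `vt ψ_t = vt f(λ_t, vt) = b(λ_t, vt)`.  So
   `LHS = ∑_ρ w ρ b(v ρ, λ_ρ) + dg π • b(λ_t, vt)`, `dg π = ∑_ρ N ρ * D ρ π`.
   If `w ρ ≠ 0` then `v ρ = X_π`, and `b(s, ·)` is additive (and `b(s, 0) = 0`, `w ρ ∈ {0, 1}`):
   `∑_ρ w ρ b(v ρ, λ_ρ) = b(X_π, ∑_ρ w ρ λ_ρ)` and
   `∑_ρ w ρ λ_ρ = dg π • vt + ∑_ρ ∑_z w ρ I ρ z v_z = ∑_a dg π o a X_a + ∑_π' rr π π' X_π'`.
   `λ_t = ∑_ρ N ρ • v ρ = ∑_π' dg π' X_π'`.
`rr_self`: `∑_ρ ∑_z D ρ π * D z π * I ρ z = 0`: the sum is symmetric in `(ρ, z)` with zero diagonal,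
in characteristic two (`Finset.sum_involution`, or: split `R × R` by an injection into `ℕ`, or
induction on `R`: adding `x` adds `2 ∑_z … + D x π ² I x x = 0`).
-/

set_option autoImplicit false

namespace H39.KZ

open MvPolynomial

section

variable {α A Pi : Type*} [Fintype A] [Fintype Pi]

/-- The values of `n_ρ` on the basis. -/
def nval (D : α → Pi → ZMod 2) (ρ : α) : A ⊕ Pi → ZMod 2 := Sum.elim (fun _ => 0) (D ρ)

/-- The values of `m_ρ` on the basis. -/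
def mval (R : Finset α) (I : α → α → ZMod 2) (N : α → ZMod 2) (D : α → Pi → ZMod 2)
    (o : A → ZMod 2) (ρ : α) : A ⊕ Pi → ZMod 2 :=
  Sum.elim (fun a => N ρ * o a) (fun π => ∑ z ∈ R, I ρ z * D z π)

theorem rr_self (R : Finset α) (I : α → α → ZMod 2) (hI0 : ∀ x, I x x = 0)
    (hIs : ∀ x y, I x y = I y x) (w : α → ZMod 2) :
    ∑ ρ ∈ R, ∑ z ∈ R, w ρ * w z * I ρ z = 0 := by
  classical
  induction R using Finset.induction_on with
  | empty => simp
  | insert x s hx ih =>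
    rw [Finset.sum_insert hx, Finset.sum_insert hx]
    have h1 : ∑ ρ ∈ s, ∑ z ∈ insert x s, w ρ * w z * I ρ z
        = ∑ ρ ∈ s, w x * w ρ * I x ρ + ∑ ρ ∈ s, ∑ z ∈ s, w ρ * w z * I ρ z := by
      rw [← Finset.sum_add_distrib]
      refine Finset.sum_congr rfl fun ρ _ => ?_
      rw [Finset.sum_insert hx, hIs ρ x]
      ring
    rw [h1, ih, hI0 x, add_zero, mul_zero, zero_add]
    exact CharTwo.add_self_eq_zero _

theorem bb_zero_right {P : Type*} [CommRing P] (s : P) : bb s 0 = 0 := by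
  simp [bb]

theorem bb_add_right {P : Type*} [CommRing P] [CharP P 2] (s t t' : P) :
    bb s (t + t') = bb s t + bb s t' := by
  have h4 : (t + t') ^ 4 = t ^ 4 + t' ^ 4 := by
    have : (t + t') ^ 4 = ((t + t') ^ 2) ^ 2 := by ring
    rw [this, CharTwo.add_sq, CharTwo.add_sq]
    ring
  simp only [bb]
  rw [h4, CharTwo.add_sq]
  ring

theorem bb_sum_right {P ι : Type*} [CommRing P] [CharP P 2] (s : P) (R : Finset ι) (t : ι → P) :
    bb s (∑ i ∈ R, t i) = ∑ i ∈ R, bb s (t i) := by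
  classical
  induction R using Finset.induction_on with
  | empty => simp [bb]
  | insert x r hx ih => rw [Finset.sum_insert hx, Finset.sum_insert hx, bb_add_right, ih]

theorem C_mul_bb {σ : Type*} (w : ZMod 2) (s t : MvPolynomial σ (ZMod 2)) :
    C w * bb s t = bb s (C w * t) := by
  have hw : w = 0 ∨ w = 1 := by
    revert w; decide
  rcases hw with rfl | rfl <;> simp [bb]

theorem local_identity (R : Finset α) (I : α → α → ZMod 2) (N : α → ZMod 2)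
    (hI0 : ∀ x, I x x = 0) (hIs : ∀ x y, I x y = I y x) (D : α → Pi → ZMod 2)
    (hD : ∀ ρ ∈ R, ∃ π₀, D ρ π₀ = 1 ∧ ∀ π, π ≠ π₀ → D ρ π = 0) (o : A → ZMod 2)
    (ψ : α → MvPolynomial (A ⊕ Pi) (ZMod 2))
    (h : LocSol R I N (∑ a, C (o a) * X (Sum.inl a) : MvPolynomial (A ⊕ Pi) (ZMod 2))
      (fun ρ => ∑ π, C (D ρ π) * X (Sum.inr π)) ψ) (i : A ⊕ Pi) :
    ∑ ρ ∈ R, (∑ j, X j * C (nval D ρ i * mval R I N D o ρ j + nval D ρ j * mval R I N D o ρ i)) *
        ψ ρ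
      = Sum.elim (fun _ => (0 : MvPolynomial (A ⊕ Pi) (ZMod 2))) (fun π =>
          bb (X (Sum.inr π))
            (∑ a, C ((∑ ρ ∈ R, N ρ * D ρ π) * o a) * X (Sum.inl a)
              + ∑ π', C (∑ ρ ∈ R, ∑ z ∈ R, D ρ π * D z π' * I ρ z) * X (Sum.inr π'))
          + C (∑ ρ ∈ R, N ρ * D ρ π) *
            bb (∑ π', C (∑ ρ ∈ R, N ρ * D ρ π') * X (Sum.inr π'))
              (∑ a, C (o a) * X (Sum.inl a))) i := by
  classical
  set vt : MvPolynomial (A ⊕ Pi) (ZMod 2) := ∑ a, C (o a) * X (Sum.inl a) with hvt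
  set v : α → MvPolynomial (A ⊕ Pi) (ZMod 2) := fun ρ => ∑ π, C (D ρ π) * X (Sum.inr π) with hv
  clear_value v vt
  -- the vector `λ_ρ`
  set lam : α → MvPolynomial (A ⊕ Pi) (ZMod 2) := fun ρ => C (N ρ) * vt + ∑ z ∈ R, C (I ρ z) * v z
    with hlam
  have hm : ∀ ρ, ∑ j, X j * C (mval R I N D o ρ j) = lam ρ := by
    intro ρ
    simp only [hlam, Fintype.sum_sum_type, mval, Sum.elim_inl, Sum.elim_inr]
    congr 1
    · rw [hvt, Finset.mul_sum]
      refine Finset.sum_congr rfl fun a _ => ?_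
      rw [C_mul]; ring
    · simp only [hv, Finset.mul_sum]
      rw [Finset.sum_comm]
      refine Finset.sum_congr rfl fun π _ => ?_
      rw [map_sum, Finset.mul_sum]
      refine Finset.sum_congr rfl fun z _ => ?_
      rw [C_mul]; ring
  have hn : ∀ ρ, ∑ j : A ⊕ Pi, X j * C (nval D ρ j) = v ρ := by
    intro ρ
    simp only [hv, Fintype.sum_sum_type, nval, Sum.elim_inl, Sum.elim_inr, map_zero, mul_zero,
      Finset.sum_const_zero, zero_add]
    refine Finset.sum_congr rfl fun π _ => by ring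
  have hsum : ∀ ρ, (∑ j, X j * C (nval D ρ i * mval R I N D o ρ j
        + nval D ρ j * mval R I N D o ρ i) : MvPolynomial (A ⊕ Pi) (ZMod 2))
      = C (nval D ρ i) * lam ρ + C (mval R I N D o ρ i) * v ρ := by
    intro ρ
    rw [← hm ρ, ← hn ρ, Finset.mul_sum, Finset.mul_sum, ← Finset.sum_add_distrib]
    refine Finset.sum_congr rfl fun j _ => ?_
    rw [C_add, C_mul, C_mul]; ring
  simp only [hsum]
  have htgt : ∑ z ∈ R, C (N z) * (v z * ψ z) = 0 := by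
    have := h.tgt
    simpa only [smul_eq_C_mul] using this
  cases i with
  | inl a =>
    simp only [Sum.elim_inl, nval, mval, map_zero, zero_mul, zero_add]
    have : ∑ ρ ∈ R, C (N ρ * o a) * v ρ * ψ ρ = C (o a) * ∑ z ∈ R, C (N z) * (v z * ψ z) := by
      rw [Finset.mul_sum]
      refine Finset.sum_congr rfl fun ρ _ => ?_
      rw [C_mul]; ring
    rw [this, htgt, mul_zero]
  | inr π =>
    simp only [Sum.elim_inr, nval, mval]
    set lt : MvPolynomial (A ⊕ Pi) (ZMod 2) := ∑ z ∈ R, C (N z) * v z with hlt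
    have hloc : ∀ ρ ∈ R, lam ρ * ψ ρ + C (N ρ) * (vt * ff lt vt)
        + ∑ z ∈ R, C (I ρ z) * (v z * ψ z) = bb (v ρ) (lam ρ) := by
      intro ρ hρ
      have := h.loc ρ hρ
      simp only [lamT, lamR, smul_eq_C_mul] at this
      have e : ∑ z ∈ R, C (I ρ z) * (v z * (ψ ρ + ψ z))
          = (∑ z ∈ R, C (I ρ z) * v z) * ψ ρ + ∑ z ∈ R, C (I ρ z) * (v z * ψ z) := by
        rw [Finset.sum_mul, ← Finset.sum_add_distrib]
        exact Finset.sum_congr rfl fun z _ => by ring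
      change _ = bb (v ρ) (C (N ρ) * vt + ∑ z ∈ R, C (I ρ z) * v z)
      rw [← this]
      change _ = C (N ρ) * (vt * (ψ ρ + ff lt vt)) + ∑ z ∈ R, C (I ρ z) * (v z * (ψ ρ + ψ z))
      rw [e]
      simp only [hlam]
      ring
    have hbt : vt * ff lt vt = bb lt vt := by
      simp only [ff, bb]; ring
    -- the double sum
    have hdbl : ∑ ρ ∈ R, (C (D ρ π) : MvPolynomial (A ⊕ Pi) (ZMod 2)) * ∑ z ∈ R, C (I ρ z) * (v z * ψ z)
        = ∑ ρ ∈ R, C (∑ z ∈ R, I ρ z * D z π) * v ρ * ψ ρ := by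
      rw [Finset.sum_congr rfl fun ρ _ => Finset.mul_sum R _ _, Finset.sum_comm]
      refine Finset.sum_congr rfl fun z _ => ?_
      rw [map_sum, Finset.sum_mul, Finset.sum_mul]
      refine Finset.sum_congr rfl fun ρ _ => ?_
      rw [C_mul, hIs ρ z]; ring
    have hA : ∑ ρ ∈ R, (C (D ρ π) : MvPolynomial (A ⊕ Pi) (ZMod 2)) * bb (v ρ) (lam ρ)
        = ∑ ρ ∈ R, (C (D ρ π) * lam ρ + C (∑ z ∈ R, I ρ z * D z π) * v ρ) * ψ ρ
          + C (∑ ρ ∈ R, N ρ * D ρ π) * bb lt vt := by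
      have : ∑ ρ ∈ R, (C (D ρ π) : MvPolynomial (A ⊕ Pi) (ZMod 2)) * bb (v ρ) (lam ρ)
          = ∑ ρ ∈ R, (C (D ρ π) : MvPolynomial (A ⊕ Pi) (ZMod 2)) * lam ρ * ψ ρ
            + ∑ ρ ∈ R, (C (D ρ π) : MvPolynomial (A ⊕ Pi) (ZMod 2)) * ∑ z ∈ R, C (I ρ z) * (v z * ψ z)
            + C (∑ ρ ∈ R, N ρ * D ρ π) * bb lt vt := by
        rw [map_sum, Finset.sum_mul, ← Finset.sum_add_distrib, ← Finset.sum_add_distrib]
        refine Finset.sum_congr rfl fun ρ hρ => ?_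
        rw [← hloc ρ hρ, hbt, C_mul]
        ring
      rw [this, hdbl, ← Finset.sum_add_distrib]
      congr 1
      exact Finset.sum_congr rfl fun ρ _ => by ring
    have hB : ∑ ρ ∈ R, (C (D ρ π) : MvPolynomial (A ⊕ Pi) (ZMod 2)) * bb (v ρ) (lam ρ)
        = bb (X (Sum.inr π)) (∑ ρ ∈ R, (C (D ρ π) : MvPolynomial (A ⊕ Pi) (ZMod 2)) * lam ρ) := by
      rw [bb_sum_right]
      refine Finset.sum_congr rfl fun ρ hρ => ?_
      rw [← C_mul_bb]
      obtain ⟨π₀, h1, h0⟩ := hD ρ hρ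
      by_cases hπ : π = π₀
      · have hvρ : v ρ = X (Sum.inr π) := by
          simp only [hv]
          rw [Finset.sum_eq_single π]
          · rw [hπ, h1]; simp
          · intro π' _ hne
            rw [h0 π' (by rw [← hπ]; exact hne)]; simp
          · intro hh; exact absurd (Finset.mem_univ _) hh
        rw [hvρ]
      · rw [h0 π hπ]; simp
    have hC : ∑ ρ ∈ R, (C (D ρ π) : MvPolynomial (A ⊕ Pi) (ZMod 2)) * lam ρ
        = ∑ a, (C ((∑ ρ ∈ R, N ρ * D ρ π) * o a) : MvPolynomial (A ⊕ Pi) (ZMod 2)) * X (Sum.inl a)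
              + ∑ π', C (∑ ρ ∈ R, ∑ z ∈ R, D ρ π * D z π' * I ρ z) * X (Sum.inr π') := by
      have h1 : ∑ a, (C ((∑ ρ ∈ R, N ρ * D ρ π) * o a) : MvPolynomial (A ⊕ Pi) (ZMod 2)) * X (Sum.inl a)
          = (∑ ρ ∈ R, (C (D ρ π) : MvPolynomial (A ⊕ Pi) (ZMod 2)) * C (N ρ)) * vt := by
        rw [hvt, Finset.mul_sum]
        refine Finset.sum_congr rfl fun a _ => ?_
        rw [C_mul, map_sum]
        rw [mul_assoc]
        congr 1
        exact Finset.sum_congr rfl fun ρ _ => by rw [C_mul]; ring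
      have h2 : ∑ π', (C (∑ ρ ∈ R, ∑ z ∈ R, D ρ π * D z π' * I ρ z) : MvPolynomial (A ⊕ Pi) (ZMod 2)) * X (Sum.inr π')
          = ∑ ρ ∈ R, (C (D ρ π) : MvPolynomial (A ⊕ Pi) (ZMod 2)) * ∑ z ∈ R, C (I ρ z) * v z := by
        simp only [map_sum, Finset.sum_mul, Finset.mul_sum, hv]
        rw [Finset.sum_comm]
        refine Finset.sum_congr rfl fun ρ _ => ?_
        rw [Finset.sum_comm]
        refine Finset.sum_congr rfl fun z _ => ?_
        refine Finset.sum_congr rfl fun π' _ => ?_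
        rw [C_mul, C_mul]; ring
      rw [h1, h2, Finset.sum_mul, ← Finset.sum_add_distrib]
      refine Finset.sum_congr rfl fun ρ _ => ?_
      simp only [hlam]; ring
    have hD' : ∑ π', (C (∑ ρ ∈ R, N ρ * D ρ π') : MvPolynomial (A ⊕ Pi) (ZMod 2)) * X (Sum.inr π') = lt := by
      simp only [hlt, hv, map_sum, Finset.sum_mul, Finset.mul_sum]
      rw [Finset.sum_comm]
      refine Finset.sum_congr rfl fun ρ _ => ?_
      refine Finset.sum_congr rfl fun π' _ => ?_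
      rw [C_mul]; ring
    rw [← hC, ← hB, hA, hD', add_assoc, CharTwo.add_self_eq_zero, add_zero]

end

end H39.KZ
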