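import Pool.Agent.H39.KZ.B0

/-!
# Job KZ-B9: the pair `(n, m)` of valuations attached to an irreducible polynomial

`L = LaurentSeries k`, `ρ ∈ L[y]` monic irreducible.

PROOF.  For `P ≠ 0` let `n P = multiplicity ρ P` (finite since `ρ` is not a unit:
`Polynomial.finiteMultiplicity_of_degree_pos_of_monic` or `FiniteMultiplicity.of_not_isUnit`),
write `P = ρ ^ (n P) * P'` with `¬ ρ ∣ P'` and put `m P = (resultant ρ P').order`
(`n 0 = m 0 = 0`).  If `P = ρ ^ e * Q` with `¬ ρ ∣ Q` then `n P = e` and `P' = Q`: last claim.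
`res ρ Q := resultant ρ Q` has the properties
 (a) `resultant ρ (Q * Q') = resultant ρ Q * resultant ρ Q'` (`Polynomial.resultant_mul_right`, and
     `natDegree_mul` for nonzero polynomials);
 (b) it only depends on `Q` modulo `ρ`: if `ρ ∣ Q - Q'` then `resultant ρ Q = resultant ρ Q'`
     (nonzero or not).  E.g.: map to the algebraic closure,
     `Polynomial.resultant_map_map` + `Polynomial.resultant_eq_prod_eval`: it is the product of the
     values of `Q` at the roots of `ρ` (`ρ` monic, splits).  Or with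
     `resultant_add_right_deg` (`ρ` monic: the degree argument of `Q` can be enlarged) and
     `resultant_add_mul_right`;
 (c) it is nonzero if `¬ ρ ∣ Q` (`Polynomial.resultant_ne_zero`,
     `(irreducible).coprime_iff_not_dvd`);
 (d) `resultant ρ (-Q) = (-1)^(deg ρ) * resultant ρ Q` (`resultant_C_mul_right`), same order.
Multiplicativity: `P = ρ^a P'`, `Q = ρ^b Q'`, `P Q = ρ^(a+b) P' Q'`, `¬ ρ ∣ P' Q'` (`ρ` prime),
`HahnSeries.order_mul`.
Third claim, `R = P + Q`: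
 * `n P < n Q`: `R = ρ^(n P) (P' + ρ^c Q')`, `c > 0`, so `n R = n P` and `m R = m P` by (b): both
   sides are `0`.   * `n Q < n P`: symmetric.
 * `n P = n Q = e`, `n R = e`: `n P - n R = 0 = n Q - n R`.
 * `n P = n Q = e`, `n R ≠ e` (then `R = ρ^e (P' + Q')` and `ρ ∣ P' + Q'`): `m P = m Q` by (b), (d).
-/

set_option autoImplicit false

namespace H39.KZ

open Polynomial

universe u

section Aux

variable {F : Type u} [Field F] {ρ : F[X]}

/-- enlarging the degree argument does not change the resultant with a monic polynomial -/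
theorem res_deg (hm : ρ.Monic) (Q : F[X]) {N : ℕ} (hN : Q.natDegree ≤ N) :
    resultant ρ Q ρ.natDegree N = resultant ρ Q := by
  obtain ⟨c, rfl⟩ := Nat.exists_eq_add_of_le hN
  rw [resultant_add_right_deg _ _ _ _ _ le_rfl]
  have : ρ.coeff ρ.natDegree = 1 := hm
  rw [this, one_pow, one_mul]

/-- the resultant only depends on the class modulo `ρ` -/
theorem res_congr (hm : ρ.Monic) {Q Q' : F[X]} (h : ρ ∣ Q - Q') : resultant ρ Q = resultant ρ Q' := by
  obtain ⟨p, hp⟩ := h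
  have hQ : Q = Q' + ρ * p := by rw [← hp]; ring
  have hN1 : Q.natDegree ≤ Q.natDegree + Q'.natDegree + (p.natDegree + ρ.natDegree) := by omega
  have hN2 : Q'.natDegree ≤ Q.natDegree + Q'.natDegree + (p.natDegree + ρ.natDegree) := by omega
  have hN3 : p.natDegree + ρ.natDegree ≤
      Q.natDegree + Q'.natDegree + (p.natDegree + ρ.natDegree) := by omega
  rw [← res_deg hm Q hN1, ← res_deg hm Q' hN2]
  generalize Q.natDegree + Q'.natDegree + (p.natDegree + ρ.natDegree) = N at hN1 hN2 hN3 ⊢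
  rw [hQ]
  exact resultant_add_mul_right _ _ _ _ _ hN3 le_rfl

theorem res_mul {Q Q' : F[X]} (hQ : Q ≠ 0) (hQ' : Q' ≠ 0) :
    resultant ρ (Q * Q') = resultant ρ Q * resultant ρ Q' := by
  have h := resultant_mul_right ρ Q Q' ρ.natDegree le_rfl
  rw [← natDegree_mul hQ hQ'] at h
  exact h

theorem res_ne_zero (hi : Irreducible ρ) {Q : F[X]} (hQ : ¬ ρ ∣ Q) : resultant ρ Q ≠ 0 :=
  resultant_ne_zero _ _ ((hi.coprime_iff_not_dvd).2 hQ)

theorem res_neg (Q : F[X]) : resultant ρ (-Q) = (-1) ^ ρ.natDegree * resultant ρ Q := by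
  have h := resultant_C_mul_right ρ Q ρ.natDegree Q.natDegree (-1)
  have h2 : (C (-1) : F[X]) * Q = -Q := by simp
  rw [h2] at h
  rw [natDegree_neg]
  exact h

end Aux

theorem order_neg_one_pow_mul {k : Type u} [Field k] (d : ℕ) (x : LaurentSeries k) :
    ((-1) ^ d * x).order = x.order := by
  rcases neg_one_pow_eq_or (LaurentSeries k) d with h | h
  · rw [h, one_mul]
  · rw [h, neg_one_mul, HahnSeries.order_neg]

theorem exists_pair_poly {k : Type u} [Field k] (ρ : (LaurentSeries k)[X]) (hm : ρ.Monic)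
    (hi : Irreducible ρ) :
    ∃ n m : (LaurentSeries k)[X] → ℤ,
      (∀ P Q, P ≠ 0 → Q ≠ 0 → n (P * Q) = n P + n Q) ∧
      (∀ P Q, P ≠ 0 → Q ≠ 0 → m (P * Q) = m P + m Q) ∧
      (∀ P Q, P ≠ 0 → Q ≠ 0 → P + Q ≠ 0 →
        (n P - n (P + Q)) * (m Q - m (P + Q)) = (n Q - n (P + Q)) * (m P - m (P + Q))) ∧
      (∀ (e : ℕ) Q, ¬ ρ ∣ Q → n (ρ ^ e * Q) = e ∧ m (ρ ^ e * Q) = (resultant ρ Q).order) := by
  classical
  have hp : Prime ρ := hi.prime
  have hρ0 : ρ ≠ 0 := hi.ne_zero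
  have hdec : ∀ P : (LaurentSeries k)[X], P ≠ 0 → ∃ (e : ℕ) (Q : (LaurentSeries k)[X]),
      ¬ ρ ∣ Q ∧ P = ρ ^ e * Q := by
    intro P hP
    have hfin : FiniteMultiplicity ρ P := FiniteMultiplicity.of_not_isUnit hi.not_isUnit hP
    obtain ⟨c, hc, hc'⟩ := hfin.exists_eq_pow_mul_and_not_dvd
    exact ⟨_, c, hc', hc⟩
  have hinj : ∀ (e e' : ℕ) (Q Q' : (LaurentSeries k)[X]), ¬ ρ ∣ Q → ¬ ρ ∣ Q' →
      ρ ^ e * Q = ρ ^ e' * Q' → e = e' ∧ Q = Q' := by
    have key : ∀ (e e' : ℕ) (Q Q' : (LaurentSeries k)[X]), ¬ ρ ∣ Q → ¬ ρ ∣ Q' → e ≤ e' →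
        ρ ^ e * Q = ρ ^ e' * Q' → e = e' ∧ Q = Q' := by
      intro e e' Q Q' hQ hQ' hle h
      obtain ⟨c, rfl⟩ := Nat.exists_eq_add_of_le hle
      rw [pow_add, mul_assoc] at h
      have h2 := mul_left_cancel₀ (pow_ne_zero e hρ0) h
      rcases Nat.eq_zero_or_pos c with rfl | hc
      · refine ⟨rfl, ?_⟩
        rw [h2, pow_zero, one_mul]
      · exfalso
        apply hQ
        rw [h2]
        exact Dvd.dvd.mul_right (dvd_pow_self ρ (by omega)) _
    intro e e' Q Q' hQ hQ' h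
    rcases le_total e e' with hle | hle
    · exact key e e' Q Q' hQ hQ' hle h
    · obtain ⟨h1, h2⟩ := key e' e Q' Q hQ' hQ hle h.symm
      exact ⟨h1.symm, h2.symm⟩
  let ex : (LaurentSeries k)[X] → ℕ := fun P => if h : P ≠ 0 then (hdec P h).choose else 0
  let co : (LaurentSeries k)[X] → (LaurentSeries k)[X] := fun P =>
    if h : P ≠ 0 then (hdec P h).choose_spec.choose else 0
  have hval : ∀ (e : ℕ) (Q : (LaurentSeries k)[X]), ¬ ρ ∣ Q → ex (ρ ^ e * Q) = e ∧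
      co (ρ ^ e * Q) = Q := by
    intro e Q hQ
    have hQ0 : Q ≠ 0 := by
      rintro rfl
      exact hQ (dvd_zero _)
    have hne : ρ ^ e * Q ≠ 0 := mul_ne_zero (pow_ne_zero _ hρ0) hQ0
    have h1 := (hdec (ρ ^ e * Q) hne).choose_spec.choose_spec
    have h2 : ex (ρ ^ e * Q) = (hdec (ρ ^ e * Q) hne).choose := dif_pos hne
    have h3 : co (ρ ^ e * Q) = (hdec (ρ ^ e * Q) hne).choose_spec.choose := dif_pos hne
    rw [h2, h3]
    obtain ⟨h4, h5⟩ := hinj _ _ _ _ hQ h1.1 h1.2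
    exact ⟨h4.symm, h5.symm⟩
  let n : (LaurentSeries k)[X] → ℤ := fun P => (ex P : ℤ)
  let m : (LaurentSeries k)[X] → ℤ := fun P => (resultant ρ (co P)).order
  have hn : ∀ (e : ℕ) (Q : (LaurentSeries k)[X]), ¬ ρ ∣ Q → n (ρ ^ e * Q) = e := fun e Q hQ => by
    show ((ex (ρ ^ e * Q) : ℕ) : ℤ) = e
    rw [(hval e Q hQ).1]
  have hmm : ∀ (e : ℕ) (Q : (LaurentSeries k)[X]), ¬ ρ ∣ Q →
      m (ρ ^ e * Q) = (resultant ρ Q).order := fun e Q hQ => by
    show (resultant ρ (co (ρ ^ e * Q))).order = _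
    rw [(hval e Q hQ).2]
  -- a sum whose first term has smaller exponent
  have hlt : ∀ (a c : ℕ) (P Q : (LaurentSeries k)[X]), ¬ ρ ∣ P → 0 < c →
      n (ρ ^ a * P + ρ ^ (a + c) * Q) = n (ρ ^ a * P) ∧
      m (ρ ^ a * P + ρ ^ (a + c) * Q) = m (ρ ^ a * P) := by
    intro a c P Q hP hc
    have hdvd : ρ ∣ ρ ^ c * Q := Dvd.dvd.mul_right (dvd_pow_self ρ (by omega)) _
    have hnd : ¬ ρ ∣ P + ρ ^ c * Q := fun h => hP ((dvd_add_left hdvd).1 h)
    have he : ρ ^ a * P + ρ ^ (a + c) * Q = ρ ^ a * (P + ρ ^ c * Q) := by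
      rw [pow_add]; ring
    rw [he, hn a _ hnd, hn a _ hP, hmm a _ hnd, hmm a _ hP]
    refine ⟨rfl, ?_⟩
    rw [res_congr hm (Q := P + ρ ^ c * Q) (Q' := P) (by simpa using hdvd)]
  refine ⟨n, m, ?_, ?_, ?_, fun e Q hQ => ⟨hn e Q hQ, hmm e Q hQ⟩⟩
  · intro P Q hP hQ
    obtain ⟨a, P', hP', rfl⟩ := hdec P hP
    obtain ⟨b, Q', hQ', rfl⟩ := hdec Q hQ
    have hnd : ¬ ρ ∣ P' * Q' := fun h => (hp.dvd_or_dvd h).elim hP' hQ'
    have he : ρ ^ a * P' * (ρ ^ b * Q') = ρ ^ (a + b) * (P' * Q') := by rw [pow_add]; ring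
    rw [he, hn _ _ hnd, hn _ _ hP', hn _ _ hQ']
    push_cast
    rfl
  · intro P Q hP hQ
    obtain ⟨a, P', hP', rfl⟩ := hdec P hP
    obtain ⟨b, Q', hQ', rfl⟩ := hdec Q hQ
    have hnd : ¬ ρ ∣ P' * Q' := fun h => (hp.dvd_or_dvd h).elim hP' hQ'
    have he : ρ ^ a * P' * (ρ ^ b * Q') = ρ ^ (a + b) * (P' * Q') := by rw [pow_add]; ring
    have hP0 : P' ≠ 0 := by rintro rfl; exact hP' (dvd_zero _)
    have hQ0 : Q' ≠ 0 := by rintro rfl; exact hQ' (dvd_zero _)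
    rw [he, hmm _ _ hnd, hmm _ _ hP', hmm _ _ hQ', res_mul hP0 hQ0,
      HahnSeries.order_mul (res_ne_zero hi hP') (res_ne_zero hi hQ')]
  · intro P Q hP hQ hPQ
    obtain ⟨a, P', hP', rfl⟩ := hdec P hP
    obtain ⟨b, Q', hQ', rfl⟩ := hdec Q hQ
    rcases lt_trichotomy a b with hab | hab | hab
    · obtain ⟨c, rfl⟩ := Nat.exists_eq_add_of_le hab.le
      obtain ⟨h1, h2⟩ := hlt a c P' Q' hP' (by omega)
      rw [h1, h2]
      ring
    · subst hab
      have he : ρ ^ a * P' + ρ ^ a * Q' = ρ ^ a * (P' + Q') := by ring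
      by_cases hd : ρ ∣ P' + Q'
      · have h1 : m (ρ ^ a * P') = m (ρ ^ a * Q') := by
          rw [hmm _ _ hP', hmm _ _ hQ',
            res_congr hm (Q := P') (Q' := -Q') (by rwa [sub_neg_eq_add]), res_neg,
            order_neg_one_pow_mul]
        rw [hn _ _ hP', hn _ _ hQ', h1]
      · rw [he, hn _ _ hP', hn _ _ hQ', hn _ _ hd]
        ring
    · obtain ⟨c, rfl⟩ := Nat.exists_eq_add_of_le hab.le
      obtain ⟨h1, h2⟩ := hlt b c Q' P' hQ' (by omega)
      rw [add_comm (ρ ^ (b + c) * P'), h1, h2]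
      ring

end H39.KZ
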