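import Pool.Agent.H39.KZ.B7
import Pool.Agent.H39.KZ.B8
import Pool.Agent.H39.KZ.B9
import Pool.Agent.H39.KZ.B10
import Pool.Agent.H39.KZ.B14
import Pool.Agent.H39.KZ.B15

/-!
# KZ-B16: the local theorem at one place
-/

set_option autoImplicit false

namespace H39.KZ

open Polynomial

universe u

theorem ucl_coe {K : Type u} [Field K] (a : Kˣ) : ucl (a : K) = cl 2 a := by
  unfold ucl
  rw [dif_neg a.ne_zero]
  simp

/-- The pair of functionals attached to an irreducible polynomial over the completion. -/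
structure IsPair {k : Type u} [Field k] (σ : RatFunc k →+* LaurentSeries k)
    (ρ : (LaurentSeries k)[X]) (nn mm : V 2 (RatFunc (RatFunc k)) →ₗ[ZMod 2] ZMod 2) : Prop where
  st : ∀ a b : (RatFunc (RatFunc k))ˣ, (a : RatFunc (RatFunc k)) + b = 1 →
    nn (cl 2 a) * mm (cl 2 b) + nn (cl 2 b) * mm (cl 2 a) = 0
  val : ∀ (P : (RatFunc k)[X]) (e : ℕ) (Q : (LaurentSeries k)[X]), P ≠ 0 →
    P.map σ = ρ ^ e * Q → ¬ ρ ∣ Q →
      nn (pc P) = (e : ZMod 2) ∧ mm (pc P) = ((resultant ρ Q).order : ZMod 2)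

theorem exists_isPair {k : Type u} [Field k] (σ : RatFunc k →+* LaurentSeries k)
    (ρ : (LaurentSeries k)[X]) (hm : ρ.Monic) (hi : Irreducible ρ) :
    ∃ nn mm : V 2 (RatFunc (RatFunc k)) →ₗ[ZMod 2] ZMod 2, IsPair σ ρ nn mm := by
  obtain ⟨n, m, hn, hm', h3, hv⟩ := exists_pair_poly ρ hm hi
  obtain ⟨n', m', hn', hm'', hst, hval⟩ := extend_pair σ n m hn hm' h3
  obtain ⟨nn, hnn⟩ := exists_functional_of_hom n' hn'
  obtain ⟨mm, hmm⟩ := exists_functional_of_hom m' hm''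
  refine ⟨nn, mm, ?_, ?_⟩
  · intro a b hab
    rw [← ucl_coe, ← ucl_coe, hnn _ a.ne_zero, hnn _ b.ne_zero, hmm _ a.ne_zero, hmm _ b.ne_zero]
    have := hst a b a.ne_zero b.ne_zero hab
    have h2 : ((n' a * m' b : ℤ) : ZMod 2) = ((n' b * m' a : ℤ) : ZMod 2) := by rw [this]
    push_cast at h2
    rw [h2]
    exact CharTwo.add_self_eq_zero _
  · intro P e Q hP hPe hd
    have hP' : algebraMap (RatFunc k)[X] (RatFunc (RatFunc k)) P ≠ 0 := by
      simpa using hP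
    obtain ⟨h1, h2⟩ := hval P hP
    obtain ⟨h4, h5⟩ := hv e Q hd
    unfold pc
    rw [hnn _ hP', hmm _ hP', h1, h2, hPe, h4, h5]
    simp

theorem xa_eq_pc {k : Type u} [Field k] (a : k) :
    xa a = pc (C (RatFunc.X - RatFunc.C a) : (RatFunc k)[X]) := rfl

theorem X_sub_C_ne_zero' {k : Type u} [Field k] (a : k) :
    (RatFunc.X - RatFunc.C a : RatFunc k) ≠ 0 := by
  have h : (RatFunc.X - RatFunc.C a : RatFunc k) = algebraMap k[X] (RatFunc k) (X - C a) := by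
    simp [RatFunc.algebraMap_X, RatFunc.algebraMap_C]
  rw [h]
  exact RatFunc.algebraMap_ne_zero (Polynomial.X_sub_C_ne_zero a)

theorem isPair_xa {k : Type u} [Field k] {σ : RatFunc k →+* LaurentSeries k}
    {ρ : (LaurentSeries k)[X]} (hm : ρ.Monic) (hi : Irreducible ρ)
    {nn mm : V 2 (RatFunc (RatFunc k)) →ₗ[ZMod 2] ZMod 2} (h : IsPair σ ρ nn mm) (a : k) :
    nn (xa a) = 0 ∧ mm (xa a) = Nmod ρ * aord σ a := by
  have hne := X_sub_C_ne_zero' a
  have hσ : σ (RatFunc.X - RatFunc.C a) ≠ 0 := by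
    rw [Ne, map_eq_zero]; exact hne
  have hd : ¬ ρ ∣ C (σ (RatFunc.X - RatFunc.C a)) := by
    intro hd
    exact hi.not_isUnit (isUnit_of_dvd_unit hd (Polynomial.isUnit_C.mpr hσ.isUnit))
  obtain ⟨h1, h2⟩ := h.val (C (RatFunc.X - RatFunc.C a)) 0 (C (σ (RatFunc.X - RatFunc.C a)))
    (by rw [Ne, C_eq_zero]; exact hne) (by rw [map_C, pow_zero, one_mul]) hd
  rw [← xa_eq_pc] at h1 h2
  refine ⟨by rw [h1]; simp, ?_⟩
  rw [h2, res_C ρ hm _ hσ]
  unfold Nmod aord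
  push_cast
  rfl

open Classical in
theorem isPair_pc {k : Type u} [Field k] {σ : RatFunc k →+* LaurentSeries k}
    (Pi : Finset (RatFunc k)[X]) (hPi : ∀ π ∈ Pi, π.Monic ∧ Irreducible π)
    (R : Finset (LaurentSeries k)[X]) (h1 : ∀ ρ ∈ R, ρ.Monic ∧ Irreducible ρ)
    (h4 : ∀ π ∈ Pi, π.map σ = ∏ ρ ∈ R.filter (fun ρ => ρ ∣ π.map σ), ρ)
    (ρ : (LaurentSeries k)[X]) (hρ : ρ ∈ R)
    {nn mm : V 2 (RatFunc (RatFunc k)) →ₗ[ZMod 2] ZMod 2} (h : IsPair σ ρ nn mm)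
    (π : (RatFunc k)[X]) (hπ : π ∈ Pi) :
    nn (pc π) = Dm σ ρ π ∧ mm (pc π) = ∑ z ∈ R, Imod ρ z * Dm σ z π := by
  by_cases hd : ρ ∣ π.map σ
  · obtain ⟨Q, hQ1, hQ2, hQ3⟩ := res_of_dvd σ Pi hPi R h1 h4 ρ hρ π hπ hd
    obtain ⟨h5, h6⟩ := h.val π 1 Q (hPi π hπ).1.ne_zero hQ1 hQ2
    refine ⟨?_, by rw [h6, hQ3]⟩
    rw [h5]
    unfold Dm
    rw [if_pos hd]
    simp
  · obtain ⟨h5, h6⟩ := h.val π 0 (π.map σ) (hPi π hπ).1.ne_zero (by rw [pow_zero, one_mul]) hd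
    refine ⟨?_, by rw [h6, res_of_not_dvd σ Pi hPi R h1 h4 ρ hρ π hπ hd]⟩
    rw [h5]
    unfold Dm
    rw [if_neg hd]
    simp

theorem Imod_X_add_one {k : Type u} [Field k] :
    Imod (X + 1 : (LaurentSeries k)[X]) X = 0 := by
  unfold Imod
  have h1 : (X + 1 : (LaurentSeries k)[X]).natDegree = 1 := by
    simpa using natDegree_X_add_C (1 : LaurentSeries k)
  have h2 : resultant (X + 1 : (LaurentSeries k)[X]) X = -1 := by
    have h3 := resultant_X_sub_C_right (X + 1 : (LaurentSeries k)[X]) 1 0 (le_of_eq h1)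
    rw [C_0, sub_zero] at h3
    rw [h1, natDegree_X, h3]
    simp
  rw [h2]
  simp

/-- The local theorem at one place. -/
theorem local_thm {k : Type u} [Field k] [CharZero k] (σ : RatFunc k →+* LaurentSeries k)
    (Bs : Finset k) (Pi : Finset (RatFunc k)[X]) (hPi : ∀ π ∈ Pi, π.Monic ∧ Irreducible π)
    (h0 : (0 : k) ∈ Bs) (hX : (X : (RatFunc k)[X]) ∈ Pi) (hX1 : (X + 1 : (RatFunc k)[X]) ∈ Pi) :
    ∃ (Q : Type u) (_ : Fintype Q) (nn mm : Q → V 2 (RatFunc (RatFunc k)) →ₗ[ZMod 2] ZMod 2)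
      (ψ : Q → MvPolynomial (Idx Bs Pi) (ZMod 2)),
      (∀ q, ∀ a b : (RatFunc (RatFunc k))ˣ, (a : RatFunc (RatFunc k)) + b = 1 →
        nn q (cl 2 a) * mm q (cl 2 b) + nn q (cl 2 b) * mm q (cl 2 a) = 0) ∧
      (∀ i, ∑ j, MvPolynomial.X j * ∑ q, MvPolynomial.C (nn q (bas Bs Pi i) * mm q (bas Bs Pi j)
        + nn q (bas Bs Pi j) * mm q (bas Bs Pi i)) * ψ q = glob Bs Pi σ i) ∧
      ∑ q, (nn q (xa (-1)) * mm q (pc (X + 1)) + nn q (pc (X + 1)) * mm q (xa (-1))) *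
        MvPolynomial.coeff (Finsupp.single (Sum.inl ⟨0, h0⟩) 3 +
          Finsupp.single (Sum.inr ⟨X, hX⟩) 1) (ψ q) = aord σ (-1) * aord σ 0 := by
  classical
  obtain ⟨R, hR1, hR2, hR3, hR4, hR5⟩ := exists_factors σ Pi hPi
  have hpair : ∀ ρ : (LaurentSeries k)[X], ∃ nn mm : V 2 (RatFunc (RatFunc k)) →ₗ[ZMod 2] ZMod 2,
      ρ ∈ R → IsPair σ ρ nn mm := by
    intro ρ
    by_cases hρ : ρ ∈ R
    · obtain ⟨nn, mm, h⟩ := exists_isPair σ ρ (hR1 ρ hρ).1 (hR1 ρ hρ).2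
      exact ⟨nn, mm, fun _ => h⟩
    · exact ⟨0, 0, fun h => absurd h hρ⟩
  choose nn mm hnm using hpair
  -- the data of the graph
  set D : (LaurentSeries k)[X] → {π : (RatFunc k)[X] // π ∈ Pi} → ZMod 2 :=
    fun ρ π => Dm σ ρ π.1 with hDdef
  set o : {a : k // a ∈ Bs} → ZMod 2 := fun a => aord σ a.1 with hodef
  set vt : MvPolynomial (Idx Bs Pi) (ZMod 2) :=
    ∑ a, MvPolynomial.C (o a) * MvPolynomial.X (Sum.inl a) with hvt
  set v : (LaurentSeries k)[X] → MvPolynomial (Idx Bs Pi) (ZMod 2) :=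
    fun ρ => ∑ π, MvPolynomial.C (D ρ π) * MvPolynomial.X (Sum.inr π) with hv
  have hmapX : (X : (RatFunc k)[X]).map σ = X := map_X σ
  have hmapX1 : (X + 1 : (RatFunc k)[X]).map σ = X + 1 := by simp
  have hX1' : (X + 1 : (LaurentSeries k)[X]) = X - C (-1) := by simp
  have hρ₀ : (X : (LaurentSeries k)[X]) ∈ R :=
    hR5 X hX X monic_X irreducible_X (by rw [hmapX])
  have hρ₁ : (X + 1 : (LaurentSeries k)[X]) ∈ R :=
    hR5 (X + 1) hX1 (X + 1) (by rw [hX1']; exact monic_X_sub_C _)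
      (by rw [hX1']; exact irreducible_X_sub_C _) (by rw [hmapX1])
  have hne : (X + 1 : (LaurentSeries k)[X]) ≠ X := by simp
  have hDX : ∀ ρ ∈ R, ρ ≠ X → Dm σ ρ X = 0 := by
    intro ρ hρ hρX
    unfold Dm
    rw [if_neg]
    intro hd
    rw [hmapX] at hd
    exact hρX (eq_of_monic_of_associated (hR1 ρ hρ).1 monic_X
      ((hR1 ρ hρ).2.associated_of_dvd irreducible_X hd))
  have hDX0 : Dm σ X X = 1 := by
    unfold Dm
    rw [if_pos (by rw [hmapX])]
  obtain ⟨ψ, hψ, hψc⟩ := exists_locSol_coeff (ι := Idx Bs Pi) Imod Nmod Imod_self Imod_comm R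
    (fun R' hR' h2 => local_graph R hR1 R' hR' h2) vt v (Sum.inl ⟨0, h0⟩) (Sum.inr ⟨X, hX⟩)
    (by simp) X (X + 1) hρ₀ hρ₁ hne (by unfold Nmod; rw [natDegree_X]; simp)
    (by
      unfold Nmod
      have h1 : (X + 1 : (LaurentSeries k)[X]).natDegree = 1 := by
        simpa using natDegree_X_add_C (1 : LaurentSeries k)
      rw [h1]; simp) Imod_X_add_one (aord σ 0)
    (fun ho => by
      refine ⟨?_, fun ρ _ => ?_⟩
      · rw [hvt, map_sum]
        refine Finset.sum_congr rfl fun a _ => ?_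
        rw [map_mul, MvPolynomial.algHom_C, evKill, MvPolynomial.aeval_X]
        by_cases ha : a = ⟨0, h0⟩
        · subst ha
          have : o ⟨0, h0⟩ = 0 := ho
          rw [this]
          simp
        · rw [if_neg (fun h => ha (Sum.inl_injective h))]
          rfl
      · simp only [hv]
        rw [map_sum]
        refine Finset.sum_congr rfl fun π _ => ?_
        rw [map_mul, MvPolynomial.algHom_C, evKill, MvPolynomial.aeval_X, if_neg (by simp)]
        rfl)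
    (fun ho => by
      refine ⟨?_, ?_, fun ρ hρ hρX => ?_⟩
      · rw [hvt, map_sum, Finset.sum_eq_single ⟨0, h0⟩]
        · rw [map_mul, MvPolynomial.algHom_C, evKeep, MvPolynomial.aeval_X, if_pos (Or.inl rfl)]
          have : o ⟨0, h0⟩ = 1 := ho
          rw [this]
          simp
        · intro a _ ha
          rw [map_mul, evKeep, MvPolynomial.aeval_X, if_neg, mul_zero]
          rintro (h | h)
          · exact ha (Sum.inl_injective h)
          · exact absurd h (by simp)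
        · intro h
          exact absurd (Finset.mem_univ _) h
      · simp only [hv]
        rw [map_sum, Finset.sum_eq_single ⟨X, hX⟩]
        · rw [map_mul, MvPolynomial.algHom_C, evKeep, MvPolynomial.aeval_X, if_pos (Or.inr rfl)]
          simp only [hDdef]
          rw [hDX0]
          simp
        · intro π _ hπ
          rw [map_mul, evKeep, MvPolynomial.aeval_X, if_neg, mul_zero]
          rintro (h | h)
          · exact absurd h (by simp)
          · exact hπ (Sum.inr_injective h)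
        · intro h
          exact absurd (Finset.mem_univ _) h
      · simp only [hv]
        rw [map_sum]
        refine Finset.sum_eq_zero fun π _ => ?_
        by_cases hπ : π = ⟨X, hX⟩
        · subst hπ
          simp only [hDdef]
          rw [hDX ρ hρ hρX]
          simp
        · rw [map_mul, evKeep, MvPolynomial.aeval_X, if_neg, mul_zero]
          rintro (h | h)
          · exact absurd h (by simp)
          · exact hπ (Sum.inr_injective h))
  have hvaln : ∀ ρ ∈ R, ∀ j : Idx Bs Pi, nn ρ (bas Bs Pi j) = nval D ρ j := by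
    intro ρ hρ j
    rcases j with a | π
    · exact (isPair_xa (hR1 ρ hρ).1 (hR1 ρ hρ).2 (hnm ρ hρ) a.1).1
    · exact (isPair_pc Pi hPi R hR1 hR4 ρ hρ (hnm ρ hρ) π.1 π.2).1
  have hvalm : ∀ ρ ∈ R, ∀ j : Idx Bs Pi, mm ρ (bas Bs Pi j) = mval R Imod Nmod D o ρ j := by
    intro ρ hρ j
    rcases j with a | π
    · exact (isPair_xa (hR1 ρ hρ).1 (hR1 ρ hρ).2 (hnm ρ hρ) a.1).2
    · exact (isPair_pc Pi hPi R hR1 hR4 ρ hρ (hnm ρ hρ) π.1 π.2).2
  have hDu : ∀ ρ ∈ R, ∃ π₀, D ρ π₀ = 1 ∧ ∀ π, π ≠ π₀ → D ρ π = 0 := by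
    intro ρ hρ
    obtain ⟨π, hπ, hd⟩ := hR2 ρ hρ
    refine ⟨⟨π, hπ⟩, ?_, ?_⟩
    · simp only [hDdef, Dm]
      rw [if_pos hd]
    · intro π' hπ'
      simp only [hDdef, Dm]
      rw [if_neg]
      intro hd'
      exact hπ' (Subtype.ext (hR3 ρ hρ π'.1 π'.2 π hπ hd' hd))
  refine ⟨{ρ : (LaurentSeries k)[X] // ρ ∈ R}, inferInstance, fun ρ => nn ρ.1, fun ρ => mm ρ.1,
    fun ρ => ψ ρ.1, fun ρ => (hnm ρ.1 ρ.2).st, fun i => ?_, ?_⟩
  · have h1 := local_identity R Imod Nmod Imod_self Imod_comm D hDu o ψ hψ i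
    have h2 : ∑ j, MvPolynomial.X j * ∑ q : {ρ : (LaurentSeries k)[X] // ρ ∈ R},
        MvPolynomial.C (nn q.1 (bas Bs Pi i) * mm q.1 (bas Bs Pi j)
        + nn q.1 (bas Bs Pi j) * mm q.1 (bas Bs Pi i)) * ψ q.1
        = ∑ ρ ∈ R, (∑ j, MvPolynomial.X j * MvPolynomial.C
          (nval D ρ i * mval R Imod Nmod D o ρ j + nval D ρ j * mval R Imod Nmod D o ρ i)) *
          ψ ρ := by
      have h3 : ∀ j : Idx Bs Pi, ∑ q : {ρ : (LaurentSeries k)[X] // ρ ∈ R},
          MvPolynomial.C (nn q.1 (bas Bs Pi i) * mm q.1 (bas Bs Pi j)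
          + nn q.1 (bas Bs Pi j) * mm q.1 (bas Bs Pi i)) * ψ q.1
          = ∑ ρ ∈ R, MvPolynomial.C
          (nval D ρ i * mval R Imod Nmod D o ρ j + nval D ρ j * mval R Imod Nmod D o ρ i) *
          ψ ρ := by
        intro j
        rw [← Finset.sum_coe_sort R]
        refine Finset.sum_congr rfl fun q _ => ?_
        rw [hvaln q.1 q.2, hvaln q.1 q.2, hvalm q.1 q.2, hvalm q.1 q.2]
      simp only [h3, Finset.mul_sum, Finset.sum_mul]
      rw [Finset.sum_comm]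
      refine Finset.sum_congr rfl fun ρ _ => Finset.sum_congr rfl fun j _ => ?_
      rw [mul_assoc]
    rw [h2, h1]
    rcases i with a | π
    · simp only [Sum.elim_inl, glob]
    · simp only [Sum.elim_inr, glob]
      have hdeg : ∀ π' : {π : (RatFunc k)[X] // π ∈ Pi}, ∑ ρ ∈ R, Nmod ρ * D ρ π'
          = (π'.1.natDegree : ZMod 2) := fun π' => (deg_eq σ Pi hPi R hR1 hR4 π'.1 π'.2).symm
      have hrord : ∀ π' : {π : (RatFunc k)[X] // π ∈ Pi},
          ∑ ρ ∈ R, ∑ z ∈ R, D ρ π * D z π' * Imod ρ z = rord σ π.1 π'.1 := fun π' =>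
        (rord_eq σ Pi hPi R hR1 hR3 hR4 (fun w => rr_self R Imod Imod_self Imod_comm w)
          π.1 π'.1 π.2 π'.2).symm
      simp only [hdeg, hrord, hodef]
  · have hE : ∀ ρ ∈ R, nn ρ (xa (-1)) = 0 ∧ mm ρ (xa (-1)) = Nmod ρ * aord σ (-1) := fun ρ hρ =>
      isPair_xa (hR1 ρ hρ).1 (hR1 ρ hρ).2 (hnm ρ hρ) (-1)
    rw [Finset.sum_eq_single ⟨X + 1, hρ₁⟩]
    · simp only
      rw [(hE _ hρ₁).1, (hE _ hρ₁).2, zero_mul, zero_add,
        (isPair_pc Pi hPi R hR1 hR4 _ hρ₁ (hnm _ hρ₁) (X + 1) hX1).1, hψc]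
      have h1 : Dm σ (X + 1) (X + 1) = 1 := by
        unfold Dm
        rw [if_pos (by rw [hmapX1])]
      have h2 : Nmod (X + 1 : (LaurentSeries k)[X]) = 1 := by
        unfold Nmod
        have h1 : (X + 1 : (LaurentSeries k)[X]).natDegree = 1 := by
          simpa using natDegree_X_add_C (1 : LaurentSeries k)
        rw [h1]; simp
      rw [h1, h2, one_mul, one_mul]
    · intro ρ _ hρ
      have h1 : Dm σ ρ.1 (X + 1) = 0 := by
        unfold Dm
        rw [if_neg]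
        intro hd
        rw [hmapX1] at hd
        have h4 : (X + 1 : (LaurentSeries k)[X]).Monic := by rw [hX1']; exact monic_X_sub_C _
        have h5 : Irreducible (X + 1 : (LaurentSeries k)[X]) := by
          rw [hX1']; exact irreducible_X_sub_C _
        exact hρ (Subtype.ext (eq_of_monic_of_associated (hR1 ρ.1 ρ.2).1 h4
          ((hR1 ρ.1 ρ.2).2.associated_of_dvd h5 hd)))
      rw [(hE _ ρ.2).1, zero_mul, zero_add,
        (isPair_pc Pi hPi R hR1 hR4 _ ρ.2 (hnm _ ρ.2) (X + 1) hX1).1, h1, zero_mul, zero_mul]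
    · intro h
      exact absurd (Finset.mem_univ _) h

end H39.KZ
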