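import Pool.Agent.H39.KZ.B0

/-!
# Job KZ-B17: the contributions of all places sum to zero

PROOF (characteristic two).  `bb s (∑ t_c) = ∑ bb s t_c` (`bb s 0 = 0`,
`bb s (t + t') = bb s t + bb s t'`: `(t + t')^4 = t^4 + t'^4`, `(t + t')^2 = t^2 + t'^2`
in characteristic two; `CharTwo`, `add_pow_char_pow`, or `ring_nf` with `2 = 0`).
For `i = inl a` all terms are `0`.  For `i = inr π` the sum over `c` is
`bb X_π (∑_c …) + C (deg π) * bb Λ (∑_c …)` with `Λ = ∑ C (deg π') X_π'` independent of `c`; exchange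
the sums: `∑_c ∑_a C (deg π * aord (s c) a) X_a = ∑_a C (deg π * ∑_c aord (s c) a) X_a = 0` by `ha`,
`∑_c ∑_π' C (rord (s c) π π') X_π' = 0` by `hr`, `∑_c ∑_a C (aord (s c) a) X_a = 0` by `ha`.
-/

set_option autoImplicit false

namespace H39.KZ

open Polynomial

universe u

theorem B17_bb_add {σ : Type*} (s t u : MvPolynomial σ (ZMod 2)) :
    bb s (t + u) = bb s t + bb s u := by
  have h2 : (2 : MvPolynomial σ (ZMod 2)) = 0 := by
    have h : ((2 : ℕ) : MvPolynomial σ (ZMod 2)) = 0 := CharP.cast_eq_zero _ 2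
    exact_mod_cast h
  simp only [bb]
  linear_combination (s * (2 * t ^ 3 * u + 3 * t ^ 2 * u ^ 2 + 2 * t * u ^ 3) + s ^ 3 * t * u) * h2

theorem B17_bb_sum {σ ι : Type*} (s : MvPolynomial σ (ZMod 2)) (B : Finset ι)
    (t : ι → MvPolynomial σ (ZMod 2)) : ∑ c ∈ B, bb s (t c) = bb s (∑ c ∈ B, t c) := by
  classical
  induction B using Finset.induction_on with
  | empty => simp [bb]
  | insert a B ha ih => rw [Finset.sum_insert ha, Finset.sum_insert ha, B17_bb_add, ih]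

theorem glob_sum_zero {k : Type u} [Field k] (Bs : Finset k) (Pi : Finset (RatFunc k)[X])
    {ι : Type*} (B : Finset ι) (s : ι → (RatFunc k →+* LaurentSeries k))
    (ha : ∀ a ∈ Bs, ∑ c ∈ B, aord (s c) a = 0)
    (hr : ∀ π ∈ Pi, ∀ π' ∈ Pi, ∑ c ∈ B, rord (s c) π π' = 0) (i : Idx Bs Pi) :
    ∑ c ∈ B, glob Bs Pi (s c) i = 0 := by
  have ha' : ∑ c ∈ B, ∑ a : {a : k // a ∈ Bs}, MvPolynomial.C (aord (s c) a.1) *
      (MvPolynomial.X (Sum.inl a) : MvPolynomial (Idx Bs Pi) (ZMod 2)) = 0 := by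
    rw [Finset.sum_comm]
    refine Finset.sum_eq_zero fun a _ => ?_
    rw [← Finset.sum_mul, ← map_sum, ha a.1 a.2, map_zero, zero_mul]
  rcases i with a | π
  · simp [glob]
  · simp only [glob, Sum.elim_inr]
    rw [Finset.sum_add_distrib, ← Finset.mul_sum, B17_bb_sum, B17_bb_sum, ha']
    have h0 : ∑ c ∈ B, (∑ a : {a : k // a ∈ Bs}, MvPolynomial.C ((π.1.natDegree : ZMod 2) *
        aord (s c) a.1) * (MvPolynomial.X (Sum.inl a) : MvPolynomial (Idx Bs Pi) (ZMod 2))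
        + ∑ π' : {π : (RatFunc k)[X] // π ∈ Pi}, MvPolynomial.C (rord (s c) π.1 π'.1) *
          MvPolynomial.X (Sum.inr π')) = 0 := by
      rw [Finset.sum_add_distrib]
      have e1 : ∑ c ∈ B, ∑ a : {a : k // a ∈ Bs}, MvPolynomial.C ((π.1.natDegree : ZMod 2) *
          aord (s c) a.1) * (MvPolynomial.X (Sum.inl a) : MvPolynomial (Idx Bs Pi) (ZMod 2)) = 0 := by
        rw [Finset.sum_comm]
        refine Finset.sum_eq_zero fun a _ => ?_
        rw [← Finset.sum_mul, ← map_sum, ← Finset.mul_sum, ha a.1 a.2, mul_zero, map_zero, zero_mul]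
      have e2 : ∑ c ∈ B, ∑ π' : {π : (RatFunc k)[X] // π ∈ Pi},
          MvPolynomial.C (rord (s c) π.1 π'.1) *
          (MvPolynomial.X (Sum.inr π') : MvPolynomial (Idx Bs Pi) (ZMod 2)) = 0 := by
        rw [Finset.sum_comm]
        refine Finset.sum_eq_zero fun π' _ => ?_
        rw [← Finset.sum_mul, ← map_sum, hr π.1 π.2 π'.1 π'.2, map_zero, zero_mul]
      rw [e1, e2, add_zero]
    rw [h0]
    simp [bb]

end H39.KZ
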