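import Pool.Agent.H39.KZ.B1
import Pool.Agent.H39.KZ.B11
import Pool.Agent.H39.KZ.B13
import Pool.Agent.H39.KZ.B16
import Pool.Agent.H39.KZ.B17

/-!
# KZ-B18: the certificates over `k(x, y)`
-/

set_option autoImplicit false

namespace H39.KZ

open Polynomial

universe u

theorem cert_exists (k : Type u) [Field k] [IsAlgClosed k] [CharZero k]
    (S : Set (V 2 (RatFunc (RatFunc k)))) (hS : S.Finite) :
    Cert (xa (0 : k)) (pc X) (xa (-1 : k)) (pc (X + 1)) S := by
  classical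
  obtain ⟨sg, -, hs1, hs0, hsn, hprod⟩ := places k
  obtain ⟨eP, eA, h1, h2, h3, h4, h5, h6⟩ := exists_dual k
  obtain ⟨Bs₀, P₀, hP₀, hcov⟩ := coverage k eP eA h1 h2 h3 h4 h5 h6 S hS
  obtain ⟨Bs, hBs⟩ : ∃ Bs : Finset k, Bs = Bs₀ ∪ {0} := ⟨_, rfl⟩
  obtain ⟨Pi, hPi'⟩ : ∃ Pi : Finset (RatFunc k)[X], Pi = P₀ ∪ {X, X + 1} := ⟨_, rfl⟩
  have hX1' : (X + 1 : (RatFunc k)[X]) = X - C (-1) := by simp
  have hPi : ∀ π ∈ Pi, π.Monic ∧ Irreducible π := by
    intro π hπ
    rw [hPi', Finset.mem_union] at hπ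
    rcases hπ with hπ | hπ
    · exact hP₀ π hπ
    · rw [Finset.mem_insert, Finset.mem_singleton] at hπ
      rcases hπ with rfl | rfl
      · exact ⟨monic_X, irreducible_X⟩
      · rw [hX1']
        exact ⟨monic_X_sub_C _, irreducible_X_sub_C _⟩
  have h0 : (0 : k) ∈ Bs := by rw [hBs]; simp
  have hX : (X : (RatFunc k)[X]) ∈ Pi := by rw [hPi']; simp
  have hX1 : (X + 1 : (RatFunc k)[X]) ∈ Pi := by rw [hPi']; simp
  have hprod' : ∀ f : RatFunc k, ∃ B₀ : Finset (Option k), f ≠ 0 → ∀ B : Finset (Option k),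
      B₀ ⊆ B → ∑ c ∈ B, (sg c f).order = 0 := by
    intro f
    by_cases hf : f = 0
    · exact ⟨∅, fun h => absurd hf h⟩
    · obtain ⟨B₀, hB₀⟩ := hprod f hf
      exact ⟨B₀, fun _ => hB₀⟩
  choose B₀ hB₀ using hprod'
  obtain ⟨B, hB⟩ : ∃ B : Finset (Option k), B =
      (Bs.biUnion fun a => B₀ (RatFunc.X - RatFunc.C a)) ∪
      (Pi.biUnion fun π => Pi.biUnion fun π' => B₀ (resultant π π')) ∪ {none} := ⟨_, rfl⟩
  have hnone : none ∈ B := by rw [hB]; simp
  have hBa : ∀ a ∈ Bs, B₀ (RatFunc.X - RatFunc.C a) ⊆ B := by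
    intro a ha c hc
    rw [hB, Finset.mem_union, Finset.mem_union]
    exact Or.inl (Or.inl (Finset.mem_biUnion.mpr ⟨a, ha, hc⟩))
  have hBr : ∀ π ∈ Pi, ∀ π' ∈ Pi, B₀ (resultant π π') ⊆ B := by
    intro π hπ π' hπ' c hc
    rw [hB, Finset.mem_union, Finset.mem_union]
    exact Or.inl (Or.inr (Finset.mem_biUnion.mpr ⟨π, hπ, Finset.mem_biUnion.mpr ⟨π', hπ', hc⟩⟩))
  have ha : ∀ a ∈ Bs, ∑ c ∈ B, aord (sg c) a = 0 := by
    intro a ha
    have := hB₀ (RatFunc.X - RatFunc.C a) (X_sub_C_ne_zero' a) B (hBa a ha)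
    unfold aord
    rw [← Int.cast_sum, this, Int.cast_zero]
  have hr : ∀ π ∈ Pi, ∀ π' ∈ Pi, ∑ c ∈ B, rord (sg c) π π' = 0 := by
    intro π hπ π' hπ'
    unfold rord
    by_cases hpp : π = π'
    · simp [hpp]
    · simp only [if_neg hpp]
      have hres : resultant π π' ≠ 0 := by
        refine resultant_ne_zero _ _ ?_
        refine (hPi π hπ).2.coprime_iff_not_dvd.mpr ?_
        intro hd
        exact hpp (eq_of_monic_of_associated (hPi π hπ).1 (hPi π' hπ').1
          ((hPi π hπ).2.associated_of_dvd (hPi π' hπ').2 hd))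
      have := hB₀ (resultant π π') hres B (hBr π hπ π' hπ')
      rw [← Int.cast_sum, this, Int.cast_zero]
  choose Q iQ nn mm ψ hst hid hnz using fun c => local_thm (sg c) Bs Pi hPi h0 hX hX1
  refine ⟨Idx Bs Pi, inferInstance, (Σ c : {c : Option k // c ∈ B}, Q c.1), inferInstance,
    bas Bs Pi, Sum.elim (fun a => eA a.1) (fun π => eP π.1), fun q => nn q.1.1 q.2,
    fun q => mm q.1.1 q.2, fun q => ψ q.1.1 q.2, Sum.inl ⟨0, h0⟩, Sum.inr ⟨X, hX⟩,
    ?_, ?_, ?_, fun q => hst q.1.1 q.2, ?_, by simp, rfl, rfl, ?_⟩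
  · rintro (a | π)
    · exact h4 a.1
    · exact h1 π.1 (hPi π.1 π.2).1 (hPi π.1 π.2).2
  · rintro (a | π) (a' | π') hne
    · exact h5 a.1 a'.1 (fun h => hne (by rw [Subtype.ext h]))
    · exact h6 a.1 π'.1 (hPi π'.1 π'.2).1
    · exact h3 π.1 a'.1
    · exact h2 π.1 π'.1 (hPi π.1 π.2).1 (hPi π.1 π.2).2 (hPi π'.1 π'.2).1 (hPi π'.1 π'.2).2
        (fun h => hne (by rw [Subtype.ext h]))
  · intro s hs
    have h7 := hcov Bs Pi (by rw [hBs]; exact Finset.subset_union_left)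
      (by rw [hPi']; exact Finset.subset_union_left) hPi s hs
    rw [Fintype.sum_sum_type]
    conv_lhs => rw [h7]
    rw [← Finset.sum_coe_sort Bs, ← Finset.sum_coe_sort Pi]
    rfl
  · intro i
    have h8 : ∀ j : Idx Bs Pi, ∑ q : (Σ c : {c : Option k // c ∈ B}, Q c.1),
        MvPolynomial.C (nn q.1.1 q.2 (bas Bs Pi i) * mm q.1.1 q.2 (bas Bs Pi j) +
          nn q.1.1 q.2 (bas Bs Pi j) * mm q.1.1 q.2 (bas Bs Pi i)) * ψ q.1.1 q.2
        = ∑ c ∈ B, ∑ q, MvPolynomial.C (nn c q (bas Bs Pi i) * mm c q (bas Bs Pi j) +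
          nn c q (bas Bs Pi j) * mm c q (bas Bs Pi i)) * ψ c q := by
      intro j
      rw [Fintype.sum_sigma, ← Finset.sum_coe_sort B]
    simp only [h8]
    have h9 := glob_sum_zero Bs Pi B sg ha hr i
    rw [← h9]
    simp only [Finset.mul_sum, ← hid]
    rw [Finset.sum_comm]
  · rw [Fintype.sum_sigma]
    have h10 : ∀ c : {c : Option k // c ∈ B}, ∑ q : Q c.1,
        (nn c.1 q (xa (-1)) * mm c.1 q (pc (X + 1)) + nn c.1 q (pc (X + 1)) * mm c.1 q (xa (-1))) *
          MvPolynomial.coeff (Finsupp.single (Sum.inl ⟨0, h0⟩) 3 +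
            Finsupp.single (Sum.inr ⟨X, hX⟩) 1) (ψ c.1 q)
        = aord (sg c.1) (-1) * aord (sg c.1) 0 := fun c => hnz c.1
    rw [Finset.sum_congr rfl fun c _ => h10 c]
    rw [Finset.sum_eq_single ⟨none, hnone⟩]
    · unfold aord
      rw [hsn, hsn]
      decide
    · rintro ⟨c, hc⟩ _ hne
      rcases c with _ | b
      · exact absurd rfl hne
      · simp only
        by_cases hb : b = 0
        · subst hb
          have : aord (sg (some 0)) (-1 : k) = 0 := by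
            unfold aord
            rw [hs0 (-1) 0 (by simp)]
            simp
          rw [this, zero_mul]
        · have : aord (sg (some b)) (0 : k) = 0 := by
            unfold aord
            rw [hs0 0 b (Ne.symm hb)]
            simp
          rw [this, mul_zero]
    · intro h
      exact absurd (Finset.mem_univ _) h

end H39.KZ
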