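import Mathlib
import Pool.Agent.H38.KZ.Roots

/-!
# Job KZ-B2: the norm of a resultant with an irreducible polynomial

PROOF.  Let `Ω = AlgebraicClosure L` with the spectral norm `|·| = spectralNorm L Ω`; it is
multiplicative (`spectralMulAlgNorm`, `spectralMulAlgNorm_def`, `spectralAlgNorm_mul`) and
extends the norm (`spectralNorm_extends`) since `L` is complete and ultrametric.
`algebraMap L Ω (resultant ρ g) = resultant (ρ.map _) (g.map _)` with the same degrees
(`Polynomial.resultant_map_map`, `natDegree_map`) `= ∏_{β ∈ roots ρ} eval β (g.map _)`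
(`Polynomial.resultant_eq_prod_eval`, `ρ` is monic and splits in `Ω`).
Take norms: `‖resultant ρ g‖ = ∏_β |aeval β g|` (`map_multiset_prod`), a product of `natDegree ρ`
factors (`Polynomial.splits_iff_card_roots` / `IsAlgClosed.card_roots_eq...`).
All factors are equal to `|aeval α g|`: if `β` is another root of `ρ`, then `ρ` is the minimal
polynomial of `α` and `β`, so there is `s : Ω ≃ₐ[L] Ω` with `s α = β`
(`IsConjRoot`, `isConjRoot_iff_exists_algEquiv`, or `minpoly.exists_algEquiv_of_root'`; `Ω/L` is
normal) and `aeval β g = s (aeval α g)`, `spectralNorm_eq_of_equiv`.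
-/

set_option autoImplicit false

namespace H39.KZ

open Polynomial

theorem norm_resultant {L : Type*} [NontriviallyNormedField L] [IsUltrametricDist L]
    [CompleteSpace L] (ρ g : L[X]) (hm : ρ.Monic) (hi : Irreducible ρ)
    (α : AlgebraicClosure L) (hα : aeval α ρ = 0) :
    ‖resultant ρ g‖ = (spectralNorm L (AlgebraicClosure L) (aeval α g)) ^ ρ.natDegree :=
  Pool.Agent.H38.KZ.norm_resultant hm hi g hα

end H39.KZ
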