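import Pool.Agent.H39.KZ.B2
import Pool.Agent.H38.KZ.Roots

/-!
# Job KZ-B3: two closest roots

PROOF.  Let `Ω = AlgebraicClosure L` with the spectral norm `|·|`
(`spectralMulAlgNorm`: multiplicative; `isNonarchimedean_spectralNorm`;
`|x| = 0 → x = 0`: `eq_zero_of_map_spectralNorm_eq_zero`).
The set of pairs `(a, b)`, `a` a root of some `ρ ∈ R`, `b` a root of some `ρ' ∈ R`, `ρ ≠ ρ'`, is
finite and nonempty (`R` has two elements; nonconstant polynomials have roots in `Ω`).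
Choose such a pair `(a₁, a₂)`, roots of `x ≠ y`, with `|a₁ - a₂| = δ` minimal
(`Finset.exists_min_image` on a suitable finite set, e.g. the `Finset`
`R.biUnion (fun ρ => R.biUnion fun ρ' => …)`, or `Set.Finite.exists_minimal...`).
Let `z ∈ R`, `z ≠ x, y`.  For every root `c` of `z`: `|a₁ - c| ≥ δ`, `|a₂ - c| ≥ δ`, so
`|a₁ - c| ≤ max |a₁ - a₂| |a₂ - c| = |a₂ - c|` and symmetrically: `|a₁ - c| = |a₂ - c|`.
Since `z` is monic and splits, `aeval a z = ∏_c (a - c)`
(`Polynomial.Splits.eq_prod_roots`…, `eval_multiset_prod`), so `|aeval a₁ z| = |aeval a₂ z| =: q`.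
By `norm_resultant` `‖resultant x z‖ = q ^ (deg x)` and `‖resultant y z‖ = q ^ (deg y)`.
Hence `‖resultant x z‖ ^ (deg y) = q ^ (deg x * deg y) = ‖resultant y z‖ ^ (deg x)`.
-/

set_option autoImplicit false

namespace H39.KZ

open Polynomial

theorem closest_roots {L : Type*} [NontriviallyNormedField L] [IsUltrametricDist L]
    [CompleteSpace L] (R : Finset L[X]) (hR : ∀ ρ ∈ R, ρ.Monic ∧ Irreducible ρ)
    (h2 : 2 ≤ R.card) :
    ∃ x ∈ R, ∃ y ∈ R, x ≠ y ∧ ∀ z ∈ R, z ≠ x → z ≠ y →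
      ‖resultant x z‖ ^ y.natDegree = ‖resultant y z‖ ^ x.natDegree :=
  Pool.Agent.H38.KZ.exists_closest R (fun ρ hρ => (hR ρ hρ).1) (fun ρ hρ => (hR ρ hρ).2) h2

end H39.KZ
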