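import Pool.Agent.H39.KZ.B3

/-!
# Job KZ-B4: the same for Laurent series, in terms of orders

PROOF.  `LaurentSeries k` is complete for its valuation (instances `Valued (LaurentSeries k) ℤᵐ⁰`
and `CompleteSpace (LaurentSeries k)`, `LaurentSeries.instLaurentSeriesComplete`, in
`Mathlib/RingTheory/LaurentSeries.lean`).  Make it a nontrivially normed field whose underlying
field is (definitionally) the standard one and whose uniform structure is the one of the valuation:
`Valued.toNormedField` with a `Valuation.RankOne` instance given by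
`WithZeroMulInt.toNNReal (e := 2)` (`WithZeroMulInt.toNNReal_strictMono`), cf.
`Valued.toNontriviallyNormedField`, `Valued.isUltrametricDist` or similar names in
`Mathlib/Topology/Algebra/Valued/NormedValued.lean`.
Then `‖f‖ = 2 ^ (-f.order)` for `f ≠ 0`: write `f = single (order f) 1 * u` with `u` a unit power
series (`LaurentSeries.single_order_mul_powerSeriesPart`, `LaurentSeries.valuation_single_zpow`),
or use `LaurentSeries.valuation_le_iff_coeff_lt_eq_zero`.
(Alternatively define the norm directly, `‖f‖ = 2 ^ (-order f)`, build the `NormedField` by hand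
and compare the uniform structures.)
Apply `closest_roots`.  The resultants `resultant x z` are nonzero (`x ≠ z` monic irreducible, so
coprime; `Polynomial.resultant_ne_zero`), and `‖a‖ ^ n = ‖b‖ ^ m` with `a, b ≠ 0` gives
`n * order a = m * order b` (injectivity of `n ↦ 2 ^ n` on `ℤ`, `zpow_right_injective₀`).
-/

set_option autoImplicit false

namespace H39.KZ

open Polynomial

universe u

open WithZero in
/-- the valuation of a nonzero Laurent series -/
lemma B4_val {k : Type u} [Field k] {f : LaurentSeries k} (hf : f ≠ 0) :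
    (Valued.v : Valuation (LaurentSeries k) ℤᵐ⁰) f = exp (-f.order) := by
  have h0 : (Valued.v : Valuation (LaurentSeries k) ℤᵐ⁰) f ≠ 0 :=
    (Valuation.ne_zero_iff _).2 hf
  have h1 : (Valued.v : Valuation (LaurentSeries k) ℤᵐ⁰) f ≤ exp (-f.order) :=
    (LaurentSeries.valuation_le_iff_coeff_lt_eq_zero k).2 fun n hn =>
      HahnSeries.coeff_eq_zero_of_lt_order hn
  have h2 : ¬ (Valued.v : Valuation (LaurentSeries k) ℤᵐ⁰) f ≤ exp (-(f.order + 1)) := by
    intro h
    have h3 := (LaurentSeries.valuation_le_iff_coeff_lt_eq_zero k).1 h f.order (by omega)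
    exact HahnSeries.coeff_order_eq_zero.not.2 hf h3
  have h3 : (Valued.v : Valuation (LaurentSeries k) ℤᵐ⁰) f =
      exp (log ((Valued.v : Valuation (LaurentSeries k) ℤᵐ⁰) f)) := (exp_log h0).symm
  rw [h3] at h1 h2 ⊢
  rw [exp_le_exp] at h1 h2
  congr 1
  omega

open WithZero MonoidWithZeroHom in
/-- a rank one structure for the valuation of `k((t))` -/
@[instance_reducible]
noncomputable def B4_rank (k : Type u) [Field k] :
    Valuation.RankOne (Valued.v : Valuation (LaurentSeries k) ℤᵐ⁰) where
  hom' := (WithZeroMulInt.toNNReal (e := 2) two_ne_zero).comp ValueGroup₀.embedding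
  strictMono' := (WithZeroMulInt.toNNReal_strictMono one_lt_two).comp
    ValueGroup₀.embedding_strictMono
  exists_val_nontrivial := ⟨HahnSeries.single 1 1, by
    rw [LaurentSeries.valuation_single_zpow]
    simp, by
    rw [LaurentSeries.valuation_single_zpow]
    simp⟩

/-- different monic irreducible polynomials have nonzero resultant -/
lemma B4_res {F : Type*} [Field F] {x z : F[X]} (hx : x.Monic ∧ Irreducible x)
    (hz : z.Monic ∧ Irreducible z) (h : x ≠ z) : resultant x z ≠ 0 := by
  refine resultant_ne_zero x z ?_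
  rw [hx.2.coprime_iff_not_dvd]
  intro hd
  exact h (eq_of_monic_of_associated hx.1 hz.1 (hx.2.associated_of_dvd hz.2 hd))

theorem closest_order {k : Type u} [Field k] (R : Finset (LaurentSeries k)[X])
    (hR : ∀ ρ ∈ R, ρ.Monic ∧ Irreducible ρ) (h2 : 2 ≤ R.card) :
    ∃ x ∈ R, ∃ y ∈ R, x ≠ y ∧ ∀ z ∈ R, z ≠ x → z ≠ y →
      (y.natDegree : ℤ) * (resultant x z).order = (x.natDegree : ℤ) * (resultant y z).order := by
  let _ := B4_rank k
  let _ : NontriviallyNormedField (LaurentSeries k) :=
    Valued.toNontriviallyNormedField (LaurentSeries k) (WithZero (Multiplicative ℤ))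
  obtain ⟨x, hx, y, hy, hxy, h⟩ := closest_roots R hR h2
  refine ⟨x, hx, y, hy, hxy, fun z hz hzx hzy => ?_⟩
  have h1 := h z hz hzx hzy
  have hT0 : (HahnSeries.single 1 1 : LaurentSeries k) ≠ 0 :=
    HahnSeries.single_ne_zero one_ne_zero
  have hvT : (Valued.v : Valuation (LaurentSeries k) (WithZero (Multiplicative ℤ)))
      (HahnSeries.single 1 1) = WithZero.exp (-1) :=
    LaurentSeries.valuation_single_zpow k 1
  set T : LaurentSeries k := HahnSeries.single 1 1 with hT
  have hTpos : 0 < ‖T‖ := norm_pos_iff.2 hT0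
  have hTlt : ‖T‖ < 1 := by
    rw [Valued.toNormedField.norm_lt_one_iff, hvT]
    exact WithZero.exp_lt_exp.2 (by norm_num)
  have key : ∀ f : LaurentSeries k, f ≠ 0 → ‖f‖ = ‖T‖ ^ f.order := by
    intro f hf
    have hv : (Valued.v : Valuation (LaurentSeries k) (WithZero (Multiplicative ℤ))) f =
        (Valued.v : Valuation (LaurentSeries k) (WithZero (Multiplicative ℤ))) (T ^ f.order) := by
      rw [B4_val hf, map_zpow₀, hvT, ← WithZero.exp_zsmul]
      congr 1
      simp
    rw [← norm_zpow]
    exact le_antisymm (Valued.toNormedField.norm_le_iff.2 hv.le)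
      (Valued.toNormedField.norm_le_iff.2 hv.ge)
  have e1 := key _ (B4_res (hR x hx) (hR z hz) (Ne.symm hzx))
  have e2 := key _ (B4_res (hR y hy) (hR z hz) (Ne.symm hzy))
  have h3 : ‖T‖ ^ ((y.natDegree : ℤ) * (resultant x z).order) =
      ‖T‖ ^ ((x.natDegree : ℤ) * (resultant y z).order) := by
    rw [mul_comm, zpow_mul, zpow_natCast, mul_comm (x.natDegree : ℤ), zpow_mul, zpow_natCast]
    rw [← e1, ← e2]
    exact h1
  exact zpow_right_injective₀ hTpos hTlt.ne h3

end H39.KZ
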