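import Pool.Agent.H39.KZ.B0
import Pool.Agent.H39.KZ.B4

/-!
# Job KZ-B5: twins and pendant vertices

`Imod x y = ((resultant x y).order : ZMod 2)`, `Nmod x = (x.natDegree : ZMod 2)`.

(0) `Imod_self`: `resultant x x = 0 ^ x.natDegree` (`Polynomial.resultant_self`) is `0` or `1`, of
    order `0` (`HahnSeries.order_zero`, `HahnSeries.order_one`).
    `Imod_comm`: `Polynomial.resultant_comm`, `resultant x y = (-1)^(..) * resultant y x`, and
    `order (-f) = order f` (`HahnSeries.order_neg`).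
(1) `local_graph`: apply `closest_order` to `R'` and get `x ≠ y` with
    `N₂ * I₁ z = N₁ * I₂ z` for all other `z` (`N₁ = deg x > 0`, `N₂ = deg y > 0`).
    Let `e₁, e₂` be the exponents of `2` in `N₁, N₂`, `Nᵢ = 2 ^ eᵢ * uᵢ` with `uᵢ` odd
    (`Nat.exists_eq_two_pow_mul_odd`).
     * `e₁ = e₂`: `u₂ * I₁ z = u₁ * I₂ z`, so `I₁ z ≡ I₂ z` mod `2`; and `N₁ ≡ N₂` mod `2` (both odd
       if `e₁ = 0`, both even otherwise): first alternative.
     * `e₁ > e₂`: `u₂ * I₁ z = 2 ^ (e₁ - e₂) * u₁ * I₂ z` is even, so `I₁ z` is even, `N₁` is even: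
       second alternative for `(x, y)`.
     * `e₁ < e₂`: second alternative for `(y, x)`.
-/

set_option autoImplicit false

namespace H39.KZ

open Polynomial

universe u

theorem Imod_self {k : Type u} [Field k] (x : (LaurentSeries k)[X]) : Imod x x = 0 := by
  have h0 : (resultant x x).order = 0 := by
    rw [Polynomial.resultant_self]
    by_cases hn : x.natDegree = 0
    · rw [hn, pow_zero]; exact HahnSeries.order_one
    · rw [zero_pow hn]; exact HahnSeries.order_zero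
  unfold Imod
  rw [h0, Int.cast_zero]

theorem Imod_comm {k : Type u} [Field k] (x y : (LaurentSeries k)[X]) : Imod x y = Imod y x := by
  have h0 : (resultant x y).order = (resultant y x).order := by
    rw [Polynomial.resultant_comm]
    rcases neg_one_pow_eq_or (LaurentSeries k) (x.natDegree * y.natDegree) with h | h
    · rw [h, one_mul]
    · rw [h, neg_one_mul]; exact HahnSeries.order_neg
  unfold Imod
  rw [h0]

/-- comparison of the powers of two in two positive numbers -/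
lemma b5_par {N₁ N₂ : ℕ} (h1 : 0 < N₁) (h2 : 0 < N₂) :
    ((N₁ : ZMod 2) = (N₂ : ZMod 2) ∧
      ∀ a b : ℤ, (N₂ : ℤ) * a = (N₁ : ℤ) * b → (a : ZMod 2) = (b : ZMod 2)) ∨
    ((N₁ : ZMod 2) = 0 ∧ ∀ a b : ℤ, (N₂ : ℤ) * a = (N₁ : ℤ) * b → (a : ZMod 2) = 0) ∨
    ((N₂ : ZMod 2) = 0 ∧ ∀ a b : ℤ, (N₂ : ℤ) * a = (N₁ : ℤ) * b → (b : ZMod 2) = 0) := by
  obtain ⟨e₁, u₁, hu₁, rfl⟩ := Nat.exists_eq_two_pow_mul_odd h1.ne'
  obtain ⟨e₂, u₂, hu₂, rfl⟩ := Nat.exists_eq_two_pow_mul_odd h2.ne'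
  have c1 : (u₁ : ZMod 2) = 1 := by
    obtain ⟨m, rfl⟩ := hu₁
    push_cast
    rw [show (2 : ZMod 2) = 0 from rfl, zero_mul, zero_add]
  have c2 : (u₂ : ZMod 2) = 1 := by
    obtain ⟨m, rfl⟩ := hu₂
    push_cast
    rw [show (2 : ZMod 2) = 0 from rfl, zero_mul, zero_add]
  have two0 : (2 : ZMod 2) = 0 := rfl
  rcases lt_trichotomy e₁ e₂ with h | h | h
  · obtain ⟨d, rfl⟩ := Nat.exists_eq_add_of_lt h
    right; right
    refine ⟨?_, fun a b hab => ?_⟩
    · push_cast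
      rw [two0, pow_succ, mul_zero, zero_mul]
    · have hab' : (2 : ℤ) ^ e₁ * (2 * 2 ^ d * u₂ * a) = 2 ^ e₁ * (u₁ * b) := by
        push_cast at hab
        rw [pow_succ, pow_add] at hab
        linear_combination hab
      have h3 := mul_left_cancel₀ (pow_ne_zero e₁ (by norm_num : (2 : ℤ) ≠ 0)) hab'
      have h4 := congrArg (fun s : ℤ => (s : ZMod 2)) h3
      simp only [Int.cast_mul, Int.cast_pow, Int.cast_ofNat, Int.cast_natCast, c1, c2] at h4
      rw [two0] at h4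
      simpa using h4.symm
  · subst h
    left
    refine ⟨?_, fun a b hab => ?_⟩
    · push_cast
      rw [c1, c2]
    · have hab' : (2 : ℤ) ^ e₁ * (u₂ * a) = 2 ^ e₁ * (u₁ * b) := by
        push_cast at hab
        linear_combination hab
      have h3 := mul_left_cancel₀ (pow_ne_zero e₁ (by norm_num : (2 : ℤ) ≠ 0)) hab'
      have h4 := congrArg (fun s : ℤ => (s : ZMod 2)) h3
      simp only [Int.cast_mul, Int.cast_natCast, c1, c2, one_mul] at h4
      exact h4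
  · obtain ⟨d, rfl⟩ := Nat.exists_eq_add_of_lt h
    right; left
    refine ⟨?_, fun a b hab => ?_⟩
    · push_cast
      rw [two0, pow_succ, mul_zero, zero_mul]
    · have hab' : (2 : ℤ) ^ e₂ * (u₂ * a) = 2 ^ e₂ * (2 * 2 ^ d * u₁ * b) := by
        push_cast at hab
        rw [pow_succ, pow_add] at hab
        linear_combination hab
      have h3 := mul_left_cancel₀ (pow_ne_zero e₂ (by norm_num : (2 : ℤ) ≠ 0)) hab'
      have h4 := congrArg (fun s : ℤ => (s : ZMod 2)) h3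
      simp only [Int.cast_mul, Int.cast_pow, Int.cast_ofNat, Int.cast_natCast, c1, c2] at h4
      rw [two0] at h4
      simpa using h4

theorem local_graph {k : Type u} [Field k] (R : Finset (LaurentSeries k)[X])
    (hR : ∀ ρ ∈ R, ρ.Monic ∧ Irreducible ρ) (R' : Finset (LaurentSeries k)[X]) (hR' : R' ⊆ R)
    (h2 : 2 ≤ R'.card) :
    ∃ x ∈ R', ∃ y ∈ R', x ≠ y ∧
      ((Nmod x = Nmod y ∧ ∀ z ∈ R', z ≠ x → z ≠ y → Imod x z = Imod y z) ∨
        (Nmod x = 0 ∧ ∀ z ∈ R', z ≠ x → z ≠ y → Imod x z = 0)) := by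
  obtain ⟨x, hx, y, hy, hxy, hz⟩ := closest_order R' (fun ρ hρ => hR ρ (hR' hρ)) h2
  have hN : ∀ ρ ∈ R', 0 < ρ.natDegree := fun ρ hρ => (hR ρ (hR' hρ)).2.natDegree_pos
  rcases b5_par (hN x hx) (hN y hy) with ⟨h1, h3⟩ | ⟨h1, h3⟩ | ⟨h1, h3⟩
  · exact ⟨x, hx, y, hy, hxy, Or.inl ⟨h1, fun z hz1 hz2 hz3 => h3 _ _ (hz z hz1 hz2 hz3)⟩⟩
  · exact ⟨x, hx, y, hy, hxy, Or.inr ⟨h1, fun z hz1 hz2 hz3 => h3 _ _ (hz z hz1 hz2 hz3)⟩⟩
  · exact ⟨y, hy, x, hx, hxy.symm,
      Or.inr ⟨h1, fun z hz1 hz2 hz3 => h3 _ _ (hz z hz1 hz3 hz2)⟩⟩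

end H39.KZ
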