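import Pool.Agent.H39.KZ.B0
import Pool.Agent.H38.KZ.Graph

/-!
# Job KZ-B6: solving the system on the graph by recursion

Everything is in characteristic two (`P` is a `ZMod 2`-algebra: `CharP P 2` if nontrivial; or use
`∀ a : P, a + a = 0`, from `(2 : ZMod 2) = 0`; `ring_nf` + `linear_combination (...) * h2` with
`h2 : (2 : P) = 0` works well).  Recall `b(s,t) = s t⁴ + s³ t²`, `f(s,t) = s t³ + s³ t`,
`t f(s,t) = b(s,t)`, `b` is additive in `t`.

PROOF.  Induction on `R.card`, for all `v` simultaneously (`vt` fixed).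
 * `R = ∅`: nothing to prove (`ψ = 0`).
 * `R = {ρ}`: `ψ = 0`.  `loc`: `N • (vt * f(N v, vt)) = b(v, N • vt)`: for `N = 1` this is
   `t f(s,t) = b(s,t)`, for `N = 0` `b(v, 0) = 0`; `tgt` trivial.
 * `R.card ≥ 2`: take `x, y` from `H` (with `R' = R`).  Let `R₁ = R.erase x`, `ε = I x y`,
   `s = v x`, `t = v y`.
   (A) `N x = N y = ν`, `I x z = I y z` for `z ≠ x, y`.  Let `v' = v` except `v' y = v x + v y`
   (`Function.update`) and take `ψ'` for `R₁, v'` (induction hypothesis; `H` for `R₁` follows).  Put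
   `μ = ν • vt + ∑_{z ∈ R, z ≠ x, y} I x z • v z`,
   `κ = μ (μ² + s² + s t + t²)` if `ε = 0`, `κ = (μ + s + t) (μ² + s t)` if `ε = 1`,
   `ψ x = ψ' y + t κ`, `ψ y = ψ' y + s κ`, `ψ z = ψ' z` otherwise.
     `lamT R N v = lamT R₁ N v'` (as `N x = N y`).  Equation at `z ≠ x, y`: `λ_z = λ'_z` and
     `I z x • (v x * (ψ z + ψ x)) + I z y • (v y * (ψ z + ψ y))
        = I z y • ((v x + v y) * (ψ' z + ψ' y))` since `s t κ + t s κ = 0`.  In the same way `tgt`:
     `ν (s ψ x + t ψ y) = ν (s + t) ψ' y`.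
     Equation at `x`: the left side is (equation of `y` in the smaller system) + `μ t κ`
     + `ε t (ψ x + ψ y)` `= b(s + t, μ) + μ t κ + ε t (t κ + s κ)` (the sum over the neighbours
     `z ≠ x, y` and over `t` gives `μ * (ψ x)`-terms: `ψ x = ψ' y + t κ`), the right side is
     `b(s, μ + ε t)`.
       `ε = 0`: `b(s + t, μ) + b(s, μ) = t μ⁴ + (s² t + s t² + t³) μ² = t μ κ`.
       `ε = 1`: `b(s + t, μ) + b(s, μ + t) = t [μ⁴ + (s² + s t + t²) μ² + s t³ + s³ t]
                 = t κ (μ + s + t)`.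
     Equation at `y`: the same with `s` and `t` exchanged (`κ` is symmetric).
   (B) `N x = 0`, `I x z = 0` for `z ≠ x, y`.  Take `ψ'` for `R₁, v`.
     `ε = 0`: `ψ x = 0`, `ψ z = ψ' z`: the equation at `x` is `0 = b(v x, 0)`, the others are
     unchanged (`I z x = I x z = 0`).
     `ε = 1`: `ψ x = ψ' y + f(v x, v y)`, `ψ z = ψ' z` for `z ≠ x`.  Equation at `x`:
     `v y (ψ x + ψ y) = v y f(v x, v y) = b(v x, v y)`, `λ_x = v y`.  Equation at `y`: the left side
     is `b(v y, λ'_y) + v x (ψ y + ψ x) = b(v y, λ'_y) + v x f(v x, v y)`, and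
     `v x f(v x, v y) = b(v y, v x)`, `λ_y = λ'_y + v x`, `b` additive in the second variable.
     Others unchanged; `tgt` unchanged (`N x = 0`).
(`I x x = 0` for all `x` by `hI0`, so that the sums over `R` have no diagonal terms.)
-/

set_option autoImplicit false

namespace H39.KZ

/-- The weights on the graph with the additional vertex `none`. -/
def extI {α : Type*} (I : α → α → ZMod 2) (N : α → ZMod 2) : Option α → Option α → ZMod 2
  | none, none => 0
  | none, some y => N y
  | some x, none => N x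
  | some x, some y => I x y

theorem exists_locSol {α P : Type*} [CommRing P] [Algebra (ZMod 2) P]
    (I : α → α → ZMod 2) (N : α → ZMod 2) (hI0 : ∀ x, I x x = 0) (hIs : ∀ x y, I x y = I y x)
    (R : Finset α)
    (H : ∀ R' : Finset α, R' ⊆ R → 2 ≤ R'.card → ∃ x ∈ R', ∃ y ∈ R', x ≠ y ∧
      ((N x = N y ∧ ∀ z ∈ R', z ≠ x → z ≠ y → I x z = I y z) ∨
        (N x = 0 ∧ ∀ z ∈ R', z ≠ x → z ≠ y → I x z = 0)))
    (vt : P) (v : α → P) : ∃ ψ : α → P, LocSol R I N vt v ψ := by
  classical
  have hsymm : ∀ x y, extI I N x y = extI I N y x := by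
    rintro (_ | x) (_ | y)
    · rfl
    · rfl
    · rfl
    · exact hIs x y
  have hdiag : ∀ x, extI I N x x = 0 := by
    rintro (_ | x)
    · rfl
    · exact hI0 x
  have hred : Pool.Agent.H38.KZ.Reducible (extI I N) none (Finset.insertNone R) := by
    intro T hT htT hc
    have hsub : Finset.eraseNone T ⊆ R := by
      intro ρ hρ
      have := hT (Finset.mem_eraseNone.1 hρ)
      simpa using this
    have hcard : 2 ≤ (Finset.eraseNone T).card := by
      have h1 : Finset.insertNone (Finset.eraseNone T) = T := by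
        rw [Finset.insertNone_eraseNone, Finset.insert_eq_of_mem htT]
      have h2 : T.card = (Finset.eraseNone T).card + 1 := by
        conv_lhs => rw [← h1]
        exact Finset.card_insertNone _
      omega
    obtain ⟨x, hx, y, hy, hxy, h⟩ := H _ hsub hcard
    refine ⟨some x, Finset.mem_eraseNone.1 hx, some y, Finset.mem_eraseNone.1 hy, by simp,
      by simp, by simpa using hxy, ?_⟩
    rcases h with ⟨hN, h⟩ | ⟨hN, h⟩
    · left
      rintro (_ | z) hz hzx hzy
      · exact hN
      · exact h z (Finset.mem_eraseNone.2 hz) (fun e => hzx (by rw [e])) (fun e => hzy (by rw [e]))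
    · right
      rintro (_ | z) hz hzx hzy
      · exact hN
      · exact h z (Finset.mem_eraseNone.2 hz) (fun e => hzx (by rw [e])) (fun e => hzy (by rw [e]))
  obtain ⟨ψ, hψ⟩ := Pool.Agent.H38.KZ.exists_isSol hsymm hdiag
    (t := none) (S := Finset.insertNone R) (by simp) hred
  set φ : MvPolynomial (Option α) (ZMod 2) →ₐ[ZMod 2] P :=
    MvPolynomial.aeval (fun z => Option.elim z vt v) with hφ
  have hφn : φ (MvPolynomial.X none) = vt := by rw [hφ, MvPolynomial.aeval_X]; rfl
  have hφs : ∀ x, φ (MvPolynomial.X (some x)) = v x := by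
    intro x; rw [hφ, MvPolynomial.aeval_X]; rfl
  have hφC : ∀ (a : ZMod 2) (p : MvPolynomial (Option α) (ZMod 2)),
      φ (MvPolynomial.C a * p) = a • φ p := by
    intro a p
    rw [MvPolynomial.C_mul', map_smul]
  have hbb : ∀ a b, φ (Pool.Agent.H38.KZ.bb a b) = bb (φ a) (φ b) := by
    intro a b; simp [Pool.Agent.H38.KZ.bb, bb]
  have hff : ∀ a b, φ (Pool.Agent.H38.KZ.ff a b) = ff (φ a) (φ b) := by
    intro a b; simp [Pool.Agent.H38.KZ.ff, ff]
  have hlamT : φ (Pool.Agent.H38.KZ.lam (extI I N) (Finset.insertNone R) none) = lamT R N v := by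
    unfold Pool.Agent.H38.KZ.lam lamT
    rw [Finset.sum_insertNone, map_add, map_sum, hφC]
    simp only [extI, hφC, hφs, zero_smul, zero_add]
  have hlamR : ∀ ρ, φ (Pool.Agent.H38.KZ.lam (extI I N) (Finset.insertNone R) (some ρ)) =
      lamR R I N vt v ρ := by
    intro ρ
    unfold Pool.Agent.H38.KZ.lam lamR
    rw [Finset.sum_insertNone, map_add, map_sum, hφC]
    simp only [extI, hφC, hφs, hφn]
  have hroot : φ (ψ none) = ff (lamT R N v) vt := by
    rw [hψ.root, hff, hlamT, hφn]
  refine ⟨fun ρ => φ (ψ (some ρ)), ?_, ?_⟩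
  · intro ρ hρ
    have h := congrArg φ (hψ.eqn (some ρ) (by simpa using hρ))
    rw [Finset.sum_insertNone, map_add, map_sum, hbb, hlamR, hφs, mul_assoc, hφC, map_mul, map_add,
      hφn, hroot] at h
    rw [← h]
    congr 1
    refine Finset.sum_congr rfl fun z _ => ?_
    rw [mul_assoc, hφC, map_mul, map_add, hφs]
    rfl
  · have h := congrArg φ (hψ.eqn none (by simp))
    rw [Finset.sum_insertNone, map_add, map_sum, hbb, hlamT, hφn, mul_assoc, hφC] at h
    have h0 : extI I N none none = 0 := rfl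
    rw [h0, zero_smul, zero_add] at h
    have h3 : ∀ z, φ (MvPolynomial.C (extI I N none (some z)) * MvPolynomial.X (some z) *
        (ψ none + ψ (some z))) = N z • (v z * ff (lamT R N v) vt) + N z • (v z * φ (ψ (some z))) := by
      intro z
      rw [mul_assoc, hφC, map_mul, map_add, hφs, hroot, mul_add, smul_add]
      rfl
    simp only [h3, Finset.sum_add_distrib] at h
    have h4 : ∑ z ∈ R, N z • (v z * ff (lamT R N v) vt) = lamT R N v * ff (lamT R N v) vt := by
      conv_rhs => rw [lamT, Finset.sum_mul]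
      refine Finset.sum_congr rfl fun z _ => ?_
      rw [smul_mul_assoc]
      rfl
    rw [h4] at h
    have h5 : lamT R N v * ff (lamT R N v) vt = bb vt (lamT R N v) := by
      simp only [ff, bb]; ring
    rw [h5] at h
    exact add_eq_left.1 h

end H39.KZ
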