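import Pool.Agent.H39.KZ.B6

/-!
# Job KZ-B7: the coefficient of the solution

Let `ι` be the index set of the variables, `ix ≠ iy`, `E = 3 δ_ix + δ_iy`.  Suppose
`vt = c • X ix + (terms without X ix, X iy)` etc.; the hypotheses are expressed with the
homomorphism `ev : P → P`, `X ix ↦ X ix`, `X iy ↦ X iy`, all other variables `↦ 0`, and the
homomorphism `ev' : P → P`, `X ix ↦ 0`, the other variables are fixed.

PROOF.
Case 1: `ev' vt = vt` and `ev' (v ρ) = v ρ` for `ρ ∈ R` (hypothesis `h1`).  Take a solution `ψ` of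
`exists_locSol` and replace it by `ev' ∘ ψ`: applying the algebra homomorphism `ev'` to the
equations `loc`, `tgt` (`map_sum`, `map_smul`, `map_mul`, unfold `ff`, `bb`, `lamT`, `lamR`) shows
that it is a solution for `ev' vt = vt`, `ev' ∘ v` (which agrees with `v` on `R`; this is all that
`LocSol` sees, `Finset.sum_congr`).  A polynomial `ev' p` has no monomial divisible by `X ix`
(check on monomials: `ev' (monomial s c) = 0` if `s ix ≠ 0` and `= monomial s c` otherwise), so
`coeff E (ev' p) = 0`.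
Case 2: (hypothesis `h2`) `ev vt = X ix`, `ev (v ρ₀) = X iy`, `ev (v ρ) = 0` for `ρ ∈ R`,
`ρ ≠ ρ₀`.  Take a solution `ψ` of `exists_locSol`.  Apply `ev` to the equation `loc` at `ρ₁`:
`N ρ₁ = 1`, `I ρ₁ ρ₀ = 0`, so that all terms of the sum vanish (`ev (v z) = 0` for `z ≠ ρ₀`) and
`ev (v ρ₁) = 0` (`ρ₁ ≠ ρ₀`), i.e. `X ix * (ev (ψ ρ₁) + f(ev λ_t, X ix)) = b(0, …) = 0`.  Hence
`ev (ψ ρ₁) = f(ev λ_t, X ix)` (`MvPolynomial` over a field is a domain; characteristic two) and
`ev λ_t = N ρ₀ • X iy = X iy`: `ev (ψ ρ₁) = X iy * X ix ^ 3 + X iy ^ 3 * X ix`, and its coefficient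
at `E` is `1`.  Finally `coeff E (ev p) = coeff E p` for all `p`
(monomials: `ev (monomial s c) = monomial s c` if `supp s ⊆ {ix, iy}` and `= 0` otherwise).
-/

set_option autoImplicit false

namespace H39.KZ

open MvPolynomial

open Classical in
/-- `X ix ↦ 0`, the other variables are fixed. -/
noncomputable def evKill {ι : Type*} (ix : ι) :
    MvPolynomial ι (ZMod 2) →ₐ[ZMod 2] MvPolynomial ι (ZMod 2) :=
  aeval (fun i => if i = ix then 0 else X i)

open Classical in
/-- `X ix` and `X iy` are fixed, the other variables are mapped to `0`. -/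
noncomputable def evKeep {ι : Type*} (ix iy : ι) :
    MvPolynomial ι (ZMod 2) →ₐ[ZMod 2] MvPolynomial ι (ZMod 2) :=
  aeval (fun i => if i = ix ∨ i = iy then X i else 0)

theorem B7_map {α P Q : Type*} [CommRing P] [Algebra (ZMod 2) P] [CommRing Q]
    [Algebra (ZMod 2) Q] (φ : P →ₐ[ZMod 2] Q) {R : Finset α} {I : α → α → ZMod 2}
    {N : α → ZMod 2} {vt : P} {v ψ : α → P} (h : LocSol R I N vt v ψ) :
    LocSol R I N (φ vt) (fun z => φ (v z)) (fun z => φ (ψ z)) where
  loc ρ hρ := by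
    have h1 := congrArg φ (h.loc ρ hρ)
    simp only [bb, ff, lamT, lamR, map_add, map_mul, map_pow, map_sum, map_smul] at h1 ⊢
    exact h1
  tgt := by
    have h1 := congrArg φ h.tgt
    simp only [map_mul, map_sum, map_smul, map_zero] at h1
    exact h1

theorem B7_congr {α P : Type*} [CommRing P] [Algebra (ZMod 2) P] {R : Finset α}
    {I : α → α → ZMod 2} {N : α → ZMod 2} {vt : P} {v v' ψ : α → P}
    (h : LocSol R I N vt v ψ) (hv : ∀ ρ ∈ R, v ρ = v' ρ) : LocSol R I N vt v' ψ where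
  loc ρ hρ := by
    have h1 := h.loc ρ hρ
    have e1 : lamT R N v = lamT R N v' := Finset.sum_congr rfl fun z hz => by rw [hv z hz]
    have e2 : lamR R I N vt v ρ = lamR R I N vt v' ρ := by
      unfold lamR
      rw [Finset.sum_congr rfl fun z hz => by rw [hv z hz]]
    have e3 : ∑ z ∈ R, I ρ z • (v z * (ψ ρ + ψ z)) = ∑ z ∈ R, I ρ z • (v' z * (ψ ρ + ψ z)) :=
      Finset.sum_congr rfl fun z hz => by rw [hv z hz]
    rw [e1, e2, e3, hv ρ hρ] at h1
    exact h1
  tgt := by
    have h1 := h.tgt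
    rw [Finset.sum_congr rfl fun z hz => by rw [hv z hz]] at h1
    exact h1

open Classical in
theorem B7_mon {ι : Type*} (T : ι → Prop) (f : ι → MvPolynomial ι (ZMod 2))
    (hf : ∀ i, T i → f i = X i) (hf0 : ∀ i, ¬ T i → f i = 0) (s : ι →₀ ℕ) (c : ZMod 2) :
    aeval f (monomial s c) = if (∀ i, s i ≠ 0 → T i) then monomial s c else 0 := by
  rw [aeval_monomial]
  split_ifs with h
  · rw [monomial_eq, algebraMap_eq]
    congr 1
    refine Finset.prod_congr rfl fun i hi => ?_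
    show f i ^ s i = X i ^ s i
    rw [hf i (h i (Finsupp.mem_support_iff.1 hi))]
  · push Not at h
    obtain ⟨i, hi, hT⟩ := h
    rw [Finsupp.prod, Finset.prod_eq_zero (Finsupp.mem_support_iff.2 hi), mul_zero]
    rw [hf0 i hT, zero_pow hi]

open Classical in
theorem B7_coeff {ι : Type*} (T : ι → Prop) (f : ι → MvPolynomial ι (ZMod 2))
    (hf : ∀ i, T i → f i = X i) (hf0 : ∀ i, ¬ T i → f i = 0) (E : ι →₀ ℕ)
    (p : MvPolynomial ι (ZMod 2)) :
    coeff E (aeval f p) = if (∀ i, E i ≠ 0 → T i) then coeff E p else 0 := by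
  induction p using MvPolynomial.induction_on' with
  | monomial s c =>
    rw [B7_mon T f hf hf0]
    by_cases hs : s = E
    · subst hs
      split_ifs <;> simp
    · have h0 : coeff E (monomial s c) = 0 := by rw [coeff_monomial, if_neg hs]
      rw [h0, ite_self]
      split_ifs
      · exact h0
      · exact coeff_zero E
  | add p q hp hq =>
    rw [map_add, coeff_add, hp, hq, coeff_add]
    split_ifs <;> simp

theorem B7_kill {ι : Type*} (ix iy : ι) (p : MvPolynomial ι (ZMod 2)) :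
    coeff (Finsupp.single ix 3 + Finsupp.single iy 1) (evKill ix p) = 0 := by
  classical
  unfold evKill
  rw [B7_coeff (fun i => i ≠ ix) _ (fun i hi => if_neg hi) (fun i hi => if_pos (not_not.1 hi)),
    if_neg]
  intro h
  refine h ix ?_ rfl
  simp

theorem B7_keep {ι : Type*} (ix iy : ι) (p : MvPolynomial ι (ZMod 2)) :
    coeff (Finsupp.single ix 3 + Finsupp.single iy 1) (evKeep ix iy p) =
      coeff (Finsupp.single ix 3 + Finsupp.single iy 1) p := by
  classical
  unfold evKeep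
  rw [B7_coeff (fun i => i = ix ∨ i = iy) _ (fun i hi => if_pos hi) (fun i hi => if_neg hi),
    if_pos]
  intro i hi
  by_contra hne
  push Not at hne
  refine hi ?_
  rw [Finsupp.add_apply, Finsupp.single_apply, Finsupp.single_apply, if_neg (Ne.symm hne.1),
    if_neg (Ne.symm hne.2), add_zero]

theorem exists_locSol_coeff {α ι : Type*}
    (I : α → α → ZMod 2) (N : α → ZMod 2) (hI0 : ∀ x, I x x = 0) (hIs : ∀ x y, I x y = I y x)
    (R : Finset α)
    (H : ∀ R' : Finset α, R' ⊆ R → 2 ≤ R'.card → ∃ x ∈ R', ∃ y ∈ R', x ≠ y ∧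
      ((N x = N y ∧ ∀ z ∈ R', z ≠ x → z ≠ y → I x z = I y z) ∨
        (N x = 0 ∧ ∀ z ∈ R', z ≠ x → z ≠ y → I x z = 0)))
    (vt : MvPolynomial ι (ZMod 2)) (v : α → MvPolynomial ι (ZMod 2))
    (ix iy : ι) (hne : ix ≠ iy) (ρ₀ ρ₁ : α) (hρ₀ : ρ₀ ∈ R) (hρ₁ : ρ₁ ∈ R) (h01 : ρ₁ ≠ ρ₀)
    (hN0 : N ρ₀ = 1) (hN1 : N ρ₁ = 1) (hI : I ρ₁ ρ₀ = 0) (o : ZMod 2)
    (h1 : o = 0 → evKill ix vt = vt ∧ ∀ ρ ∈ R, evKill ix (v ρ) = v ρ)
    (h2 : o = 1 → evKeep ix iy vt = X ix ∧ evKeep ix iy (v ρ₀) = X iy ∧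
      ∀ ρ ∈ R, ρ ≠ ρ₀ → evKeep ix iy (v ρ) = 0) :
    ∃ ψ : α → MvPolynomial ι (ZMod 2), LocSol R I N vt v ψ ∧
      coeff (Finsupp.single ix 3 + Finsupp.single iy 1) (ψ ρ₁) = o := by
  classical
  obtain ⟨ψ, hψ⟩ := exists_locSol I N hI0 hIs R H vt v
  have ho : ∀ o : ZMod 2, o = 0 ∨ o = 1 := by decide
  rcases ho o with rfl | rfl
  · obtain ⟨a1, a2⟩ := h1 rfl
    have h3 := B7_map (evKill ix) hψ
    rw [a1] at h3
    exact ⟨fun z => evKill ix (ψ z), B7_congr h3 a2, B7_kill ix iy _⟩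
  · obtain ⟨e1, e2, e3⟩ := h2 rfl
    refine ⟨ψ, hψ, ?_⟩
    have h3 := (B7_map (evKeep ix iy) hψ).loc ρ₁ hρ₁
    have hs : ∑ z ∈ R, I ρ₁ z • (evKeep ix iy (v z) * (evKeep ix iy (ψ ρ₁) + evKeep ix iy (ψ z))) =
        0 := by
      refine Finset.sum_eq_zero fun z hz => ?_
      by_cases h : z = ρ₀
      · rw [h, hI, zero_smul]
      · rw [e3 z hz h, zero_mul, smul_zero]
    have hl : lamT R N (fun z => evKeep ix iy (v z)) = X iy := by
      unfold lamT
      rw [Finset.sum_eq_single ρ₀]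
      · show N ρ₀ • evKeep ix iy (v ρ₀) = X iy
        rw [hN0, e2, one_smul]
      · intro z hz hne
        show N z • evKeep ix iy (v z) = 0
        rw [e3 z hz hne, smul_zero]
      · intro h
        exact absurd hρ₀ h
    have hb : bb (evKeep ix iy (v ρ₁)) (lamR R I N (evKeep ix iy vt)
        (fun z => evKeep ix iy (v z)) ρ₁) = 0 := by
      rw [e3 ρ₁ hρ₁ h01]
      unfold bb
      ring
    rw [hs, hl, hb, hN1, one_smul, add_zero, e1] at h3
    have hX : (X ix : MvPolynomial ι (ZMod 2)) ≠ 0 := X_ne_zero ix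
    have h4 := (mul_eq_zero.1 h3).resolve_left hX
    have h5 := congrArg (coeff (Finsupp.single ix 3 + Finsupp.single iy 1)) h4
    rw [coeff_add, B7_keep, coeff_zero] at h5
    have h6 : coeff (Finsupp.single ix 3 + Finsupp.single iy 1)
        (ff (X iy) (X ix) : MvPolynomial ι (ZMod 2)) = 1 := by
      have m1 : (X iy * X ix ^ 3 : MvPolynomial ι (ZMod 2)) =
          monomial (Finsupp.single ix 3 + Finsupp.single iy 1) 1 := by
        rw [X_pow_eq_monomial, X, monomial_mul, one_mul, add_comm]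
      have m2 : (X iy ^ 3 * X ix : MvPolynomial ι (ZMod 2)) =
          monomial (Finsupp.single iy 3 + Finsupp.single ix 1) 1 := by
        rw [X_pow_eq_monomial, X, monomial_mul, one_mul]
      unfold ff
      rw [m1, m2, coeff_add, coeff_monomial, coeff_monomial, if_pos rfl, if_neg, add_zero]
      intro h
      have h7 := DFunLike.congr_fun h ix
      rw [Finsupp.add_apply, Finsupp.add_apply, Finsupp.single_eq_same, Finsupp.single_eq_same,
        Finsupp.single_apply, Finsupp.single_apply, if_neg (Ne.symm hne)] at h7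
      omega
    rw [h6] at h5
    have h8 : ∀ a : ZMod 2, a + 1 = 0 → a = 1 := by decide
    exact h8 _ h5

end H39.KZ
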