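import Pool.Agent.H39.KZ.Defs

/-!
# Certificates (the interface between part A and part B)
-/

set_option autoImplicit false

namespace H39.KZ

open MvPolynomial

universe u

/-- A certificate: a finite dual basis of a subspace of `V` containing `S`, finitely many pairs
`(nn q, mm q)` of functionals whose alternating products kill the Steinberg pairs, and
polynomials `ψ q`. -/
def Cert {K : Type u} [Field K] (x y x' y' : V 2 K) (S : Set (V 2 K)) : Prop :=
  ∃ (ι : Type u) (_ : Fintype ι) (Q : Type u) (_ : Fintype Q) (bas : ι → V 2 K)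
    (e : ι → V 2 K →ₗ[ZMod 2] ZMod 2) (nn mm : Q → V 2 K →ₗ[ZMod 2] ZMod 2)
    (ψ : Q → MvPolynomial ι (ZMod 2)) (ix iy : ι),
    (∀ i, e i (bas i) = 1) ∧ (∀ i j, i ≠ j → e i (bas j) = 0) ∧
    (∀ s ∈ S, s = ∑ i, e i s • bas i) ∧
    (∀ q, ∀ a b : Kˣ, (a : K) + (b : K) = 1 →
      nn q (cl 2 a) * mm q (cl 2 b) + nn q (cl 2 b) * mm q (cl 2 a) = 0) ∧
    (∀ i, ∑ j, X j * ∑ q, C (nn q (bas i) * mm q (bas j) + nn q (bas j) * mm q (bas i)) * ψ q
      = 0) ∧
    ix ≠ iy ∧ bas ix = x ∧ bas iy = y ∧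
    ∑ q, (nn q x' * mm q y' + nn q y' * mm q x') *
      coeff (Finsupp.single ix 3 + Finsupp.single iy 1) (ψ q) = 1

end H39.KZ
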