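import Pool.Agent.H39.KZ.Stmt

/-!
# Mod-`p` Milnor K-theory, the kernel `J_𝕂`, and Koszul modules

Working versions of the definitions of `Stmt.lean` (definitionally equal to them).
-/

set_option autoImplicit false

open scoped TensorProduct

namespace H39.KZ

universe u

export H39.KZS (V SteinbergRel MilnorK sym sym_add Good sym_mul_sym sym_mul_sym_neg)

/-- The projection `𝕂ˣ → 𝕂ˣ / (𝕂ˣ)ᵖ`. -/
def toV (p : ℕ) (K : Type u) [Field K] : Additive Kˣ →+ V p K :=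
  (ModN.mkQ (G := Additive Kˣ) p)

/-- The class `[a] ∈ 𝕂ˣ / (𝕂ˣ)ᵖ` of a unit `a`. -/
def cl (p : ℕ) {K : Type u} [Field K] (a : Kˣ) : V p K := toV p K (Additive.ofMul a)

/-- The projection of the tensor algebra onto `K^M_•(𝕂)`. -/
def mkMilnor (K : Type u) [Field K] : TensorAlgebra ℤ (Additive Kˣ) →+* MilnorK K :=
  RingQuot.mkRingHom (SteinbergRel K)

/-- `K^M_•(𝕂) ⊗ 𝔽_p`, an `𝔽_p`-algebra. -/
abbrev MilnorMod (p : ℕ) (K : Type u) [Field K] : Type u := ZMod p ⊗[ℤ] MilnorK K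

/-- The homomorphism `𝕂ˣ → K^M_1(𝕂) ⊗ 𝔽_p`. -/
def symMod (p : ℕ) (K : Type u) [Field K] : Additive Kˣ →+ MilnorMod p K where
  toFun a := (1 : ZMod p) ⊗ₜ[ℤ] sym a
  map_zero' := KZS.symMod_zero p
  map_add' a b := by rw [sym_add, TensorProduct.tmul_add]

theorem smul_symMod (p : ℕ) (K : Type u) [Field K] (g : Additive Kˣ) : p • symMod p K g = 0 := by
  change p • ((1 : ZMod p) ⊗ₜ[ℤ] sym g) = 0
  rw [← natCast_zsmul, TensorProduct.smul_tmul', ← Int.cast_smul_eq_zsmul (ZMod p)]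
  simp

/-- The identification `V = 𝕂ˣ/(𝕂ˣ)ᵖ → K^M_1(𝕂) ⊗ 𝔽_p`, `[a] ↦ {a}`. -/
noncomputable def symV (p : ℕ) (K : Type u) [Field K] : V p K →ₗ[ZMod p] MilnorMod p K :=
  (ModN.liftEquiv'.symm ⟨symMod p K, smul_symMod p K⟩ :
    ModN (Additive Kˣ) p →ₗ[ZMod p] MilnorMod p K)

theorem symV_cl (p : ℕ) {K : Type u} [Field K] (a : Kˣ) :
    symV p K (cl p a) = (1 : ZMod p) ⊗ₜ[ℤ] sym (Additive.ofMul a) := by
  rfl

/-- In `K^M_•(𝕂) ⊗ 𝔽_p` one has `{v}{v} = 0` under the standing assumption. -/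
theorem symV_sq {p : ℕ} [Fact p.Prime] {K : Type u} [Field K] (h : Good p K) (v : V p K) :
    symV p K v * symV p K v = 0 := by
  obtain ⟨a, rfl⟩ : ∃ a : Kˣ, cl p a = v := by
    obtain ⟨x, hx⟩ := Submodule.mkQ_surjective _ v
    exact ⟨x.toMul, hx⟩
  obtain ⟨c, hc⟩ : ∃ c : Kˣ, -1 = c ^ p := by
    rcases (Fact.out : p.Prime).eq_two_or_odd' with h2 | h2
    · obtain ⟨i, hi⟩ := h.2 h2
      have hi0 : i ≠ 0 := by
        rintro rfl
        simp at hi
      exact ⟨Units.mk0 i hi0, Units.ext (by simp [h2, hi])⟩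
    · exact ⟨-1, by rw [h2.neg_one_pow]⟩
  rw [symV_cl, Algebra.TensorProduct.tmul_mul_tmul, one_mul]
  have h1 := sym_mul_sym_neg a
  have h2 : sym (Additive.ofMul (-a)) = sym (Additive.ofMul a) + p • sym (Additive.ofMul c) := by
    have : -a = a * c ^ p := by rw [← hc]; simp
    rw [this, ofMul_mul, sym_add, KZS.sym_pow]
  rw [h2, mul_add] at h1
  have h3 : sym (Additive.ofMul a) * sym (Additive.ofMul a)
      = -(p • (sym (Additive.ofMul a) * sym (Additive.ofMul c))) := by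
    rw [← mul_smul_comm]
    exact eq_neg_of_add_eq_zero_left h1
  rw [h3, TensorProduct.tmul_neg, ← natCast_zsmul, ← TensorProduct.smul_tmul, ← Int.cast_smul_eq_zsmul (ZMod p)]
  simp

/-- The natural surjection `Λ(V) → K^M_•(𝕂) ⊗ 𝔽_p`. -/
noncomputable def toMilnor {p : ℕ} [Fact p.Prime] {K : Type u} [Field K] (h : Good p K) :
    ExteriorAlgebra (ZMod p) (V p K) →ₐ[ZMod p] MilnorMod p K :=
  ExteriorAlgebra.lift (ZMod p) ⟨symV p K, symV_sq h⟩

/-- The ideal `J_𝕂`, kernel of `Λ(V) → K^M_•(𝕂) ⊗ 𝔽_p`. -/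
noncomputable def J {p : ℕ} [Fact p.Prime] {K : Type u} [Field K] (h : Good p K) :
    Ideal (ExteriorAlgebra (ZMod p) (V p K)) :=
  RingHom.ker (toMilnor h)

/-- The grading of `J_𝕂(2)`: the component of degree `j` is `J_𝕂 ∩ Λ^(j+2)(V)`. -/
noncomputable def Jdeg {p : ℕ} [Fact p.Prime] {K : Type u} [Field K] (h : Good p K) (j : ℕ) :
    Submodule (ZMod p) (J h) :=
  (⋀[ZMod p]^(j + 2) (V p K)).comap ((J h).subtype.restrictScalars (ZMod p))

/-! ## The normalized bar complex and Koszul modules -/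

section Bar

variable (k : Type) [Field k] (A : Type u) [Ring A] [Algebra k A]
  (M : Type u) [AddCommGroup M] [Module k M] [Module A M] [IsScalarTower k A M]

/-- `A ⊗ ⋯ ⊗ A ⊗ M` with `n` factors `A` (all tensor products over `k`). -/
noncomputable def Bar : ℕ → ModuleCat.{u} k
  | 0 => ModuleCat.of k M
  | n + 1 => ModuleCat.of k (A ⊗[k] (Bar n : Type u))

/-- The action `A ⊗ M → M`. -/
noncomputable def act : A ⊗[k] M →ₗ[k] M :=
  TensorProduct.lift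
    (LinearMap.mk₂ k (fun (a : A) (m : M) => a • m) (fun a b m => add_smul a b m)
      (fun c a m => smul_assoc c a m) (fun a m n => smul_add a m n)
      (fun c a m => (smul_comm c a m).symm))

/-- `a ⊗ (b ⊗ x) ↦ ab ⊗ x`. -/
noncomputable def mulFirst (N : Type u) [AddCommGroup N] [Module k N] :
    A ⊗[k] (A ⊗[k] N) →ₗ[k] A ⊗[k] N :=
  (LinearMap.mul' k A).rTensor N ∘ₗ (TensorProduct.assoc k A A N).symm.toLinearMap

/-- The bar differential
`[a₁|…|aₙ₊₁]m ↦ [a₁a₂|…]m - [a₁|a₂a₃|…]m + ⋯ ± [a₁|…|aₙ]aₙ₊₁m`, defined by recursion: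
`d[a|x] = a·x - [a|dx]`. -/
noncomputable def barD : (n : ℕ) → (Bar k A M (n + 1) →ₗ[k] Bar k A M n)
  | 0 => act k A M
  | n + 1 =>
    let f : A ⊗[k] (A ⊗[k] (Bar k A M n : Type u)) →ₗ[k] A ⊗[k] (Bar k A M n : Type u) :=
      mulFirst k A (Bar k A M n)
    let g : A ⊗[k] (A ⊗[k] (Bar k A M n : Type u)) →ₗ[k] A ⊗[k] (Bar k A M n : Type u) :=
      LinearMap.lTensor A (barD n)
    f - g

/-- The part of internal degree `j` of `A₊ ⊗ ⋯ ⊗ A₊ ⊗ M ⊆ A ⊗ ⋯ ⊗ A ⊗ M` (`n` factors), where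
`A = ⨁ 𝒜 i`, `A₊ = ⨁_{i ≥ 1} 𝒜 i` and `M = ⨁ ℳ j`: the span of the tensors of homogeneous
elements, those of `A` having positive degree, with total degree `j`. -/
noncomputable def barDeg (𝒜 : ℕ → Submodule k A) (ℳ : ℕ → Submodule k M) :
    (n : ℕ) → ℕ → Submodule k (Bar k A M n)
  | 0, j => ℳ j
  | n + 1, j => ⨆ (i : ℕ) (_ : 1 ≤ i ∧ i ≤ j),
      Submodule.map₂ (TensorProduct.mk k A (Bar k A M n)) (𝒜 i) (barDeg 𝒜 ℳ n (j - i))

/-- Cycles of the bar complex. -/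
def IsCycle : (n : ℕ) → Bar k A M n → Prop
  | 0, _ => True
  | n + 1, z => barD k A M n z = 0

/-- `H_{n,j}(A, M) = Tor^A_n(k, M)_j = 0`: every cycle of internal degree `j` in the `n`-th term
of the normalized bar complex is the boundary of an element of internal degree `j`. -/
def HVanish (𝒜 : ℕ → Submodule k A) (ℳ : ℕ → Submodule k M) (n j : ℕ) : Prop :=
  ∀ z ∈ barDeg k A M 𝒜 ℳ n j, IsCycle k A M n z →
    ∃ y ∈ barDeg k A M 𝒜 ℳ (n + 1) j, barD k A M n y = z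

end Bar

/-- `H_{i,j}(Λ(V), J_𝕂(2)) = 0`. -/
def JHVanish {p : ℕ} [Fact p.Prime] {K : Type u} [Field K] (h : Good p K) (i j : ℕ) : Prop :=
  HVanish (ZMod p) (ExteriorAlgebra (ZMod p) (V p K)) (J h)
    (fun n => ⋀[ZMod p]^n (V p K)) (Jdeg h) i j

theorem bar_conv (k : Type) [Field k] (A : Type u) [Ring A] [Algebra k A]
    (M : Type u) [AddCommGroup M] [Module k M] [Module A M] [IsScalarTower k A M]
    (𝒜 : ℕ → Submodule k A) (ℳ : ℕ → Submodule k M) (h : KZS.HZero k A M 𝒜 ℳ 3 4) :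
    HVanish k A M 𝒜 ℳ 3 4 := by
  intro z hz hc
  exact h z hz hc

theorem conv {K : Type u} [Field K] (h : Good 2 K) (h1 : KZS.JHZero h 3 4) : JHVanish h 3 4 := by
  unfold JHVanish
  apply bar_conv
  exact h1

end H39.KZ
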