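import Pool.Agent.H39.KZ.A9
import Pool.Agent.H39.KZ.B18

/-!
# KZ-Main: `H_{3,4}(Λ(V), J(2)) ≠ 0` for `𝕂 = k(x, y)`, `p = 2`
-/

set_option autoImplicit false

namespace H39.KZ

open Polynomial

universe u

theorem good_two (k : Type u) [Field k] [IsAlgClosed k] [CharZero k] :
    Good 2 (RatFunc (RatFunc k)) := by
  refine ⟨⟨-1, ?_⟩, fun _ => ?_⟩
  · refine IsPrimitiveRoot.neg_one 0 (by norm_num)
  · obtain ⟨i, hi⟩ := IsAlgClosed.exists_pow_nat_eq (-1 : k) (n := 2) (by norm_num)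
    refine ⟨algebraMap k (RatFunc (RatFunc k)) i, ?_⟩
    rw [← map_pow, hi]
    simp

theorem main_vanish (k : Type u) [Field k] [IsAlgClosed k] [CharZero k]
    (h : Good 2 (RatFunc (RatFunc k))) : ¬ JHVanish h 3 4 := by
  have hx : algebraMap (RatFunc k)[X] (RatFunc (RatFunc k))
      (C (RatFunc.X - RatFunc.C (0 : k))) ≠ 0 := by
    have := X_sub_C_ne_zero' (0 : k)
    exact RatFunc.algebraMap_ne_zero (by rw [Ne, C_eq_zero]; exact this)
  have hx' : algebraMap (RatFunc k)[X] (RatFunc (RatFunc k))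
      (C (RatFunc.X - RatFunc.C (-1 : k))) ≠ 0 := by
    have := X_sub_C_ne_zero' (-1 : k)
    exact RatFunc.algebraMap_ne_zero (by rw [Ne, C_eq_zero]; exact this)
  have hy : algebraMap (RatFunc k)[X] (RatFunc (RatFunc k)) X ≠ 0 :=
    RatFunc.algebraMap_ne_zero X_ne_zero
  have hy' : algebraMap (RatFunc k)[X] (RatFunc (RatFunc k)) (X + 1) ≠ 0 := by
    refine RatFunc.algebraMap_ne_zero ?_
    have h1 : (X + 1 : (RatFunc k)[X]) = X - C (-1) := by simp
    rw [h1]
    exact X_sub_C_ne_zero _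
  refine not_vanish_of_cert h (Units.mk0 _ hx) (Units.mk0 _ hy) (Units.mk0 _ hx')
    (Units.mk0 _ hy') ?_ ?_ ?_
  · simp only [Units.val_mk0]
    rw [← map_one (algebraMap (RatFunc k)[X] (RatFunc (RatFunc k))), ← map_add, ← C_1, ← C_add]
    congr 2
    simp [add_comm]
  · simp only [Units.val_mk0]
    rw [map_add, map_one, add_comm]
  · intro S hS
    have h2 := cert_exists k S hS
    unfold xa pc ucl at h2
    rw [dif_neg hx, dif_neg hy, dif_neg hx', dif_neg hy'] at h2
    exact h2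

end H39.KZ
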