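import Mathlib

/-!
# Mod-`p` Milnor K-theory, the kernel `J_𝕂`, and Koszul modules

Definitions used by the statement of the hand-in `MP_dc4b79_al.ModuleKoszulityFails`.
-/

set_option autoImplicit false
set_option warn.classDefReducibility false

open scoped TensorProduct

namespace H39.KZS

universe u

/-! ## Milnor K-theory modulo `p` -/

/-- `V = 𝕂ˣ / (𝕂ˣ)ᵖ`, written additively (`ModN G p = G / pG`). -/
def V (p : ℕ) (K : Type u) [Field K] : Type u := ModN (Additive Kˣ) p

/-- The group structure of the quotient. -/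
def instAddCommGroupV (p : ℕ) (K : Type u) [Field K] : AddCommGroup (V p K) :=
  (inferInstance : AddCommGroup (ModN (Additive Kˣ) p))

attribute [instance] instAddCommGroupV

/-- `V` is a vector space over `𝔽_p = ZMod p`. -/
def instModuleV (p : ℕ) (K : Type u) [Field K] : Module (ZMod p) (V p K) :=
  (inferInstance : Module (ZMod p) (ModN (Additive Kˣ) p))

attribute [instance] instModuleV

/-- The universal property of `V = 𝕂ˣ / (𝕂ˣ)ᵖ`: a homomorphism `φ` from `𝕂ˣ` to an `𝔽_p`-algebra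
(so that `p φ(a) = 0`) induces the linear map `[a] ↦ φ(a)`. -/
noncomputable def liftV (p : ℕ) (K : Type u) [Field K] {H : Type u} [Ring H]
    [Algebra (ZMod p) H] (φ : Additive Kˣ →+ H) (h : ∀ a, p • φ a = 0) : V p K →ₗ[ZMod p] H :=
  (ModN.liftEquiv'.symm ⟨φ, h⟩ : ModN (Additive Kˣ) p →ₗ[ZMod p] H)

/-- The Steinberg relations on the tensor algebra of the abelian group `𝕂ˣ`:
`a ⊗ x ⊗ b = 0` whenever `a + b = 1` (`x` arbitrary).  So `a₁ ⊗ ⋯ ⊗ aₙ = 0` as soon as
`aᵢ + aⱼ = 1` for some `i ≠ j`. -/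
inductive SteinbergRel (K : Type u) [Field K] :
    TensorAlgebra ℤ (Additive Kˣ) → TensorAlgebra ℤ (Additive Kˣ) → Prop
  | of (a b : Kˣ) (x : TensorAlgebra ℤ (Additive Kˣ)) (h : (a : K) + (b : K) = 1) :
      SteinbergRel K
        (TensorAlgebra.ι ℤ (Additive.ofMul a) * x * TensorAlgebra.ι ℤ (Additive.ofMul b)) 0

/-- Milnor's ring `K^M_•(𝕂)`: the tensor algebra of `𝕂ˣ` over `ℤ` modulo the Steinberg
relations. -/
def MilnorK (K : Type u) [Field K] : Type u := RingQuot (SteinbergRel K)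

/-- The ring structure of the quotient. -/
def instRingMilnorK (K : Type u) [Field K] : Ring (MilnorK K) :=
  (inferInstance : Ring (RingQuot (SteinbergRel K)))

attribute [instance] instRingMilnorK

/-- The symbol `{a} ∈ K^M_1(𝕂)`. -/
def sym {K : Type u} [Field K] (a : Additive Kˣ) : MilnorK K :=
  RingQuot.mkRingHom (SteinbergRel K) (TensorAlgebra.ι ℤ a)

/-- `K^M_•(𝕂) ⊗ 𝔽_p`. -/
def MilnorMod (p : ℕ) (K : Type u) [Field K] : Type u := ZMod p ⊗[ℤ] MilnorK K

/-- The ring structure of the tensor product. -/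
def instRingMilnorMod (p : ℕ) (K : Type u) [Field K] : Ring (MilnorMod p K) :=
  (inferInstance : Ring (ZMod p ⊗[ℤ] MilnorK K))

attribute [instance] instRingMilnorMod

/-- `K^M_•(𝕂) ⊗ 𝔽_p` is an `𝔽_p`-algebra. -/
def instAlgebraMilnorMod (p : ℕ) (K : Type u) [Field K] : Algebra (ZMod p) (MilnorMod p K) :=
  (inferInstance : Algebra (ZMod p) (ZMod p ⊗[ℤ] MilnorK K))

attribute [instance] instAlgebraMilnorMod

/-- The image `1 ⊗ {a}` of the symbol `{a}` in `K^M_1(𝕂) ⊗ 𝔽_p`. -/
def symMod (p : ℕ) {K : Type u} [Field K] (a : Additive Kˣ) : MilnorMod p K :=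
  (1 : ZMod p) ⊗ₜ[ℤ] sym a

theorem symMod_zero (p : ℕ) {K : Type u} [Field K] : symMod p (0 : Additive Kˣ) = 0 := by
  have h : sym (0 : Additive Kˣ) = 0 := by
    unfold sym
    rw [map_zero]
    exact map_zero (RingQuot.mkRingHom (SteinbergRel K))
  unfold symMod
  rw [h]
  exact TensorProduct.tmul_zero _ _

theorem sym_add {K : Type u} [Field K] (a b : Additive Kˣ) : sym (a + b) = sym a + sym b := by
  unfold sym
  rw [map_add]
  exact map_add (RingQuot.mkRingHom (SteinbergRel K)) _ _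

theorem symMod_add (p : ℕ) {K : Type u} [Field K] (a b : Additive Kˣ) :
    symMod p (a + b) = symMod p a + symMod p b := by
  unfold symMod
  rw [sym_add]
  exact TensorProduct.tmul_add _ _ _

/-- The homomorphism `𝕂ˣ → K^M_1(𝕂) ⊗ 𝔽_p`. -/
def symHom (p : ℕ) (K : Type u) [Field K] : Additive Kˣ →+ MilnorMod p K where
  toFun := symMod p
  map_zero' := symMod_zero p
  map_add' := symMod_add p

theorem smul_symHom (p : ℕ) (K : Type u) [Field K] (g : Additive Kˣ) : p • symHom p K g = 0 := by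
  change p • ((1 : ZMod p) ⊗ₜ[ℤ] sym g) = 0
  rw [← natCast_zsmul, TensorProduct.smul_tmul', ← Int.cast_smul_eq_zsmul (ZMod p)]
  simp

/-- The identification `V = 𝕂ˣ/(𝕂ˣ)ᵖ → K^M_1(𝕂) ⊗ 𝔽_p`, `[a] ↦ {a}`. -/
noncomputable def symV (p : ℕ) (K : Type u) [Field K] : V p K →ₗ[ZMod p] MilnorMod p K :=
  liftV p K (symHom p K) (smul_symHom p K)

theorem symV_cl (p : ℕ) {K : Type u} [Field K] (a : Kˣ) :
    symV p K (ModN.mkQ p (Additive.ofMul a)) = (1 : ZMod p) ⊗ₜ[ℤ] sym (Additive.ofMul a) := by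
  rfl

/-- The standing assumption on `𝕂`: it contains a primitive `p`-th root of unity, and `√-1` if
`p = 2`. -/
def Good (p : ℕ) (K : Type u) [Field K] : Prop :=
  (∃ ζ : K, IsPrimitiveRoot ζ p) ∧ (p = 2 → ∃ i : K, i ^ 2 = -1)

/-- `{a}{b} = 0` if `a + b = 1`. -/
theorem sym_mul_sym {K : Type u} [Field K] {a b : Kˣ} (h : (a : K) + (b : K) = 1) :
    sym (Additive.ofMul a) * sym (Additive.ofMul b) = 0 := by
  have h1 := RingQuot.mkRingHom_rel (SteinbergRel.of a b 1 h)
  rw [mul_one, map_mul, map_zero] at h1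
  exact h1

theorem sym_one {K : Type u} [Field K] : sym (Additive.ofMul (1 : Kˣ)) = 0 := by
  unfold sym
  rw [ofMul_one, map_zero]
  exact map_zero (RingQuot.mkRingHom (SteinbergRel K))

/-- `{a}{-a} = 0`. -/
theorem sym_mul_sym_neg {K : Type u} [Field K] (a : Kˣ) :
    sym (Additive.ofMul a) * sym (Additive.ofMul (-a)) = 0 := by
  by_cases ha : a = 1
  · subst ha
    rw [sym_one, zero_mul]
  · have ha1 : (a : K) ≠ 1 := fun h => ha (Units.ext h)
    have h1 : (1 : K) - a ≠ 0 := sub_ne_zero.mpr (Ne.symm ha1)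
    have h2 : (1 : K) - (a⁻¹ : Kˣ) ≠ 0 := by
      refine sub_ne_zero.mpr (fun h => ha ?_)
      have : (a⁻¹ : Kˣ) = 1 := Units.ext (by simpa using h.symm)
      simpa using this
    set b : Kˣ := Units.mk0 _ h1
    set c : Kˣ := Units.mk0 _ h2
    have hb : sym (Additive.ofMul a) * sym (Additive.ofMul b) = 0 :=
      sym_mul_sym (by simp [b])
    have hc : sym (Additive.ofMul a⁻¹) * sym (Additive.ofMul c) = 0 :=
      sym_mul_sym (by simp [c])
    have hn : b = (-a) * c := by
      apply Units.ext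
      simp only [b, c, Units.val_mk0, Units.val_mul, Units.val_neg, Units.val_inv_eq_inv_val]
      field_simp
      ring
    have hbn : sym (Additive.ofMul b) = sym (Additive.ofMul (-a)) + sym (Additive.ofMul c) := by
      rw [hn, ofMul_mul, sym_add]
    have hinv : sym (Additive.ofMul a⁻¹) + sym (Additive.ofMul a) = 0 := by
      rw [← sym_add, ← ofMul_mul, inv_mul_cancel, sym_one]
    have hc' : sym (Additive.ofMul a) * sym (Additive.ofMul c) = 0 := by
      have h3 : (sym (Additive.ofMul a⁻¹) + sym (Additive.ofMul a)) * sym (Additive.ofMul c)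
          = 0 := by rw [hinv, zero_mul]
      rw [add_mul, hc, zero_add] at h3
      exact h3
    rw [hbn, mul_add, hc', add_zero] at hb
    exact hb

theorem sym_pow {K : Type u} [Field K] (c : Kˣ) (p : ℕ) :
    sym (Additive.ofMul (c ^ p)) = p • sym (Additive.ofMul c) := by
  induction p with
  | zero => rw [pow_zero, zero_smul, sym_one]
  | succ n ih => rw [pow_succ, ofMul_mul, sym_add, ih, succ_nsmul]

/-- In `K^M_•(𝕂) ⊗ 𝔽_p` one has `{v}{v} = 0` under the standing assumption. -/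
theorem symV_sq {p : ℕ} [Fact p.Prime] {K : Type u} [Field K] (h : Good p K) (v : V p K) :
    symV p K v * symV p K v = 0 := by
  obtain ⟨a, rfl⟩ : ∃ a : Kˣ, (ModN.mkQ p (Additive.ofMul a) : ModN (Additive Kˣ) p) = v := by
    obtain ⟨x, hx⟩ := Submodule.mkQ_surjective (LinearMap.range (LinearMap.lsmul ℤ (Additive Kˣ) p)) v
    exact ⟨x.toMul, hx⟩
  obtain ⟨c, hc⟩ : ∃ c : Kˣ, -1 = c ^ p := by
    rcases (Fact.out : p.Prime).eq_two_or_odd' with h2 | h2
    · obtain ⟨i, hi⟩ := h.2 h2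
      have hi0 : i ≠ 0 := by
        rintro rfl
        simp at hi
      exact ⟨Units.mk0 i hi0, Units.ext (by simp [h2, hi])⟩
    · exact ⟨-1, by rw [h2.neg_one_pow]⟩
  have h1 := sym_mul_sym_neg a
  have h2 : sym (Additive.ofMul (-a)) = sym (Additive.ofMul a) + p • sym (Additive.ofMul c) := by
    have : -a = a * c ^ p := by rw [← hc]; simp
    rw [this, ofMul_mul, sym_add, sym_pow]
  rw [h2, mul_add] at h1
  have h3 : sym (Additive.ofMul a) * sym (Additive.ofMul a)
      = -(p • (sym (Additive.ofMul a) * sym (Additive.ofMul c))) := by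
    rw [← mul_smul_comm]
    exact eq_neg_of_add_eq_zero_left h1
  rw [symV_cl]
  change ((1 : ZMod p) ⊗ₜ[ℤ] sym (Additive.ofMul a)) * ((1 : ZMod p) ⊗ₜ[ℤ] sym (Additive.ofMul a))
    = (0 : ZMod p ⊗[ℤ] MilnorK K)
  rw [Algebra.TensorProduct.tmul_mul_tmul, one_mul, h3, TensorProduct.tmul_neg, ← natCast_zsmul,
    ← TensorProduct.smul_tmul, ← Int.cast_smul_eq_zsmul (ZMod p)]
  simp

/-- The exterior algebra `Λ(V)` over `𝔽_p`. -/
def Lam (p : ℕ) (K : Type u) [Field K] : Type u := ExteriorAlgebra (ZMod p) (V p K)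

/-- The ring structure of the exterior algebra. -/
def instRingLam (p : ℕ) (K : Type u) [Field K] : Ring (Lam p K) :=
  (inferInstance : Ring (ExteriorAlgebra (ZMod p) (V p K)))

attribute [instance] instRingLam

/-- The exterior algebra is an `𝔽_p`-algebra. -/
def instAlgebraLam (p : ℕ) (K : Type u) [Field K] : Algebra (ZMod p) (Lam p K) :=
  (inferInstance : Algebra (ZMod p) (ExteriorAlgebra (ZMod p) (V p K)))

attribute [instance] instAlgebraLam

/-- The graded component `Λⁿ(V)`. -/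
def LamDeg (p : ℕ) (K : Type u) [Field K] (n : ℕ) : Submodule (ZMod p) (Lam p K) :=
  ⋀[ZMod p]^n (V p K)

/-- The universal property of the exterior algebra: a linear map `f : M → A` to an algebra with
`f(m)² = 0` extends to a homomorphism of algebras `Λ(M) → A`. -/
noncomputable def extLift (R : Type) [CommRing R] (M : Type u) [AddCommGroup M] [Module R M]
    (A : Type u) [Ring A] [Algebra R A] (f : M →ₗ[R] A) (hf : ∀ m, f m * f m = 0) :
    ExteriorAlgebra R M →ₐ[R] A :=
  ExteriorAlgebra.lift R ⟨f, hf⟩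

/-- The natural surjection `Λ(V) → K^M_•(𝕂) ⊗ 𝔽_p`. -/
noncomputable def toMilnor {p : ℕ} [Fact p.Prime] {K : Type u} [Field K] (h : Good p K) :
    Lam p K →ₐ[ZMod p] MilnorMod p K :=
  extLift (ZMod p) (V p K) (MilnorMod p K) (symV p K) (symV_sq h)

/-- The ideal `J_𝕂`, kernel of `Λ(V) → K^M_•(𝕂) ⊗ 𝔽_p`. -/
noncomputable def J {p : ℕ} [Fact p.Prime] {K : Type u} [Field K] (h : Good p K) :
    Ideal (Lam p K) :=
  RingHom.ker (toMilnor h)

/-- `J_𝕂`, as a module over `Λ(V)`. -/
def JMod {p : ℕ} [Fact p.Prime] {K : Type u} [Field K] (h : Good p K) : Type u := J h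

section

variable {p : ℕ} [Fact p.Prime] {K : Type u} [Field K] (h : Good p K)

/-- The group structure of the ideal. -/
noncomputable def instAddCommGroupJMod : AddCommGroup (JMod h) :=
  (inferInstance : AddCommGroup (J h))

attribute [instance] instAddCommGroupJMod

/-- `J_𝕂` is a module over `Λ(V)`. -/
noncomputable def instModuleLamJMod : Module (Lam p K) (JMod h) :=
  (inferInstance : Module (Lam p K) (J h))

attribute [instance] instModuleLamJMod

/-- `J_𝕂` is a vector space over `𝔽_p`. -/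
noncomputable def instModuleJMod : Module (ZMod p) (JMod h) :=
  (inferInstance : Module (ZMod p) (J h))

attribute [instance] instModuleJMod

instance instIsScalarTowerJMod : IsScalarTower (ZMod p) (Lam p K) (JMod h) :=
  (inferInstance : IsScalarTower (ZMod p) (Lam p K) (J h))

/-- The inclusion `J_𝕂 → Λ(V)`. -/
noncomputable def inclJ : JMod h →ₗ[ZMod p] Lam p K where
  toFun x := (x : Subtype (fun x => x ∈ J h)).1
  map_add' _ _ := rfl
  map_smul' _ _ := rfl

/-- The grading of `J_𝕂(2)`: the component of degree `j` is `J_𝕂 ∩ Λ^(j+2)(V)`. -/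
noncomputable def JDeg (j : ℕ) : Submodule (ZMod p) (JMod h) :=
  (LamDeg p K (j + 2)).comap (inclJ h)

end

/-! ## The normalized bar complex and Koszul modules -/

section Bar

variable (k : Type) [Field k] (A : Type u) [Ring A] [Algebra k A]

/-- A term `X = A ⊗ ⋯ ⊗ A ⊗ M` of the bar complex, together with: the differential
`d : A ⊗ X → X` from the next term `A ⊗ X`; the subspace `cyc` of cycles in `X` (the kernel of the
differential from `X` to the previous term); the components `deg j` of internal degree `j` of the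
normalized part `A₊ ⊗ ⋯ ⊗ A₊ ⊗ M` of `X`. -/
structure Stage where
  /-- the space -/
  X : Type u
  [grp : AddCommGroup X]
  [mod : Module k X]
  /-- the differential from the next term -/
  d : A ⊗[k] X →ₗ[k] X
  /-- the cycles -/
  cyc : Submodule k X
  /-- the grading -/
  deg : ℕ → Submodule k X

attribute [instance] Stage.grp Stage.mod

/-- `a ⊗ (b ⊗ x) ↦ ab ⊗ x`. -/
noncomputable def mulFirst (N : Type u) [AddCommGroup N] [Module k N] :
    A ⊗[k] (A ⊗[k] N) →ₗ[k] A ⊗[k] N :=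
  (LinearMap.mul' k A).rTensor N ∘ₗ (TensorProduct.assoc k A A N).symm.toLinearMap

/-- The next differential: `d'(a ⊗ (b ⊗ x)) = ab ⊗ x - a ⊗ d(b ⊗ x)`. -/
noncomputable def nextD (N : Type u) [AddCommGroup N] [Module k N] (d : A ⊗[k] N →ₗ[k] N) :
    A ⊗[k] (A ⊗[k] N) →ₗ[k] A ⊗[k] N :=
  mulFirst k A N - LinearMap.lTensor A d

/-- The component of degree `j` of `A₊ ⊗ N` is the sum of the `𝒜 i ⊗ 𝒩 (j - i)`, `1 ≤ i ≤ j`. -/
noncomputable def nextDeg (𝒜 : ℕ → Submodule k A) (N : Type u) [AddCommGroup N] [Module k N]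
    (𝒩 : ℕ → Submodule k N) (j : ℕ) : Submodule k (A ⊗[k] N) :=
  ⨆ (i : ℕ) (_ : 1 ≤ i ∧ i ≤ j), Submodule.map₂ (TensorProduct.mk k A N) (𝒜 i) (𝒩 (j - i))

variable {k A} in
/-- The next term `A ⊗ X` of the bar complex; the cycles are the kernel of `d : A ⊗ X → X`. -/
noncomputable def Stage.next (𝒜 : ℕ → Submodule k A) (S : Stage k A) : Stage k A where
  X := A ⊗[k] S.X
  d := nextD k A S.X S.d
  cyc := LinearMap.ker S.d
  deg := nextDeg k A 𝒜 S.X S.deg

variable {k A} in
/-- Exactness in degree `j`: every cycle of degree `j` in `X` is the boundary `d y` of some `y` of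
degree `j` in the next term. -/
def Stage.Exact (𝒜 : ℕ → Submodule k A) (S : Stage k A) (j : ℕ) : Prop :=
  ∀ z ∈ S.deg j, z ∈ S.cyc → ∃ y : A ⊗[k] S.X, y ∈ nextDeg k A 𝒜 S.X S.deg j ∧ S.d y = z

variable (M : Type u) [AddCommGroup M] [Module k M] [Module A M] [IsScalarTower k A M]

/-- The action `A ⊗ M → M`. -/
noncomputable def act : A ⊗[k] M →ₗ[k] M :=
  TensorProduct.lift
    (LinearMap.mk₂ k (fun (a : A) (m : M) => a • m) (fun a b m => add_smul a b m)
      (fun c a m => smul_assoc c a m) (fun a m n => smul_add a m n)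
      (fun c a m => (smul_comm c a m).symm))

/-- The terms of the bar complex: `bar 0 = M` (with the differential `A ⊗ M → M`, the action; every
element is a cycle), `bar (n + 1) = A ⊗ bar n`. -/
noncomputable def bar (𝒜 : ℕ → Submodule k A) (ℳ : ℕ → Submodule k M) (n : ℕ) : Stage k A :=
  Nat.rec ⟨M, act k A M, ⊤, ℳ⟩ (fun _ S => S.next 𝒜) n

/-- `H_{n,j}(A, M) = Tor^A_n(k, M)_j = 0`: every cycle of internal degree `j` in the `n`-th term
of the normalized bar complex is the boundary of an element of internal degree `j` of the next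
term. -/
def HZero (𝒜 : ℕ → Submodule k A) (ℳ : ℕ → Submodule k M) (n j : ℕ) : Prop :=
  (bar k A M 𝒜 ℳ n).Exact 𝒜 j

/-- `M` is a Koszul module over `A`: `H_{i,j}(A, M) = 0` for all `i ≠ j`. -/
def IsKoszulModule (𝒜 : ℕ → Submodule k A) (ℳ : ℕ → Submodule k M) : Prop :=
  ∀ i j : ℕ, i ≠ j → HZero k A M 𝒜 ℳ i j

end Bar

/-- `H_{i,j}(Λ(V), J_𝕂(2)) = 0`. -/
def JHZero {p : ℕ} [Fact p.Prime] {K : Type u} [Field K] (h : Good p K) (i j : ℕ) : Prop :=
  HZero (ZMod p) (Lam p K) (JMod h) (LamDeg p K) (JDeg h) i j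

/-- `J_𝕂(2)` is a Koszul module over `Λ(𝕂ˣ/(𝕂ˣ)ᵖ)`. -/
def JKoszul {p : ℕ} [Fact p.Prime] {K : Type u} [Field K] (h : Good p K) : Prop :=
  IsKoszulModule (ZMod p) (Lam p K) (JMod h) (LamDeg p K) (JDeg h)

end H39.KZS
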